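import Pool.Agent.L5helper6.SM.Sum

/-!
The bad loci are closed, and the equations have coefficients in the number field.
-/

namespace Pool.Agent.L5helper6.SM

open scoped Classical
open NumberField Module Function MvPolynomial
open Pool.Agent Pool.Agent.N852.GR
open Pool.Agent.N852.MM (Tup)
open Pool.Agent.N852.EL (lc gr MH MH_grl MH_C MH_X ea Zer zer_fC fP fC fP_MH fP_CH map_fP wz wx dc Ci)

set_option linter.unusedSectionVars false

variable {K : Type} [Field K] [NumberField K]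
variable {V : Type} [Fintype V] [DecidableEq V] {n : V → ℕ} {k r : ℕ}

/-- The equations of the bad loci in the vectors and the coefficients. -/
theorem clo_univ (hr : 1 ≤ r) (n : V → ℕ) (e : Fin k → Finset V)
    (A : ∀ v, Fin r → Fin (n v) → ℤ) :
    ∃ Ω : Set (MvPolynomial (Σ t : Option V, Fin (nn n e t)) ℤ),
      (∀ w ∈ Ω, ∃ ε : Option V → ℕ, MH w ε) ∧
      ∀ (T : ∀ i, (∀ v : e i, Fin (n v)) → ℂ) (x : Tup n ℂ),
        (∃ S : Finset V, S ≠ Finset.univ ∧ BS (⟨e, T⟩ : Sy n k ℂ) (cA A) S x) ↔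
          ∀ w ∈ Ω, ea (fun q => jn (⟨e, T⟩ : Sy n k ℂ) x q.1 q.2) w = 0 := by
  have key : ∀ p : {p : Finset V × V // p.2 ∉ p.1},
      ∃ Ω : Set (MvPolynomial (Σ t : Option V, Fin (nn n e t)) ℤ),
        (∀ w ∈ Ω, ∃ ε : Option V → ℕ, MH w ε) ∧
        ∀ (T : ∀ i, (∀ v : e i, Fin (n v)) → ℂ) (x : Tup n ℂ),
          Bu (⟨e, T⟩ : Sy n k ℂ) (cA A) p.1.2 p.1.1 x ↔
            ∀ w ∈ Ω, ea (fun q => jn (⟨e, T⟩ : Sy n k ℂ) x q.1 q.2) w = 0 := by
    rintro ⟨⟨S, u⟩, hu⟩
    obtain ⟨Ω, d, h1, h2⟩ := Pool.Agent.N20.EL.elimP (Option V) (Option V)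
      (Ci (US n e) (some u)) (fun t => Fin (nn n e t)) (fun _ => Fin r)
      (fP (US n e) (A' n e A) (some u) (Finset.insertNone S))
      (dc (US n e) (some u) (wz (Finset.insertNone S)))
      (fun l => fP_MH (A' n e A) (Finset.insertNone S) l)
    refine ⟨Ω, h1 (dc (US n e) (some u) (wx (Finset.insertNone S)))
      fun l β => fP_CH (A' n e A) (Finset.insertNone S) l β, fun T x => ?_⟩
    have h3 := (h2 fun q => jn (⟨e, T⟩ : Sy n k ℂ) x q.1 q.2).1
    have h4 : (fun l => MvPolynomial.map (ea fun q => jn (⟨e, T⟩ : Sy n k ℂ) x q.1 q.2)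
        (fP (US n e) (A' n e A) (some u) (Finset.insertNone S) l)) =
        fC (US n e) (A' n e A) (some u) (Finset.insertNone S) (jn (⟨e, T⟩ : Sy n k ℂ) x) :=
      funext fun l => map_fP (A' n e A) (Finset.insertNone S) (jn (⟨e, T⟩ : Sy n k ℂ) x) l
    rw [h4, zer_fC, cA_A'] at h3
    rw [← h3]
    exact (bu_jn hr (⟨e, T⟩ : Sy n k ℂ) (cA A) u S x).symm
  choose Ω h1 h2 using key
  refine ⟨{w | ∃ g : {p : Finset V × V // p.2 ∉ p.1} →
    MvPolynomial (Σ t : Option V, Fin (nn n e t)) ℤ,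
    (∀ p, g p ∈ Ω p) ∧ w = ∏ p, g p}, ?_, fun T x => ⟨?_, ?_⟩⟩
  · rintro w ⟨g, hg, rfl⟩
    choose ε hε using fun p => h1 p (g p) (hg p)
    exact ⟨_, MH_grl.prod Finset.univ fun p _ => hε p⟩
  · rintro ⟨S, -, u, hu, hb⟩ w ⟨g, hg, rfl⟩
    rw [map_prod]
    exact Finset.prod_eq_zero (Finset.mem_univ ⟨(S, u), hu⟩)
      ((h2 ⟨(S, u), hu⟩ T x).1 hb _ (hg _))
  · intro h
    by_contra hno
    have h3 : ∀ p : {p : Finset V × V // p.2 ∉ p.1},
        ∃ w ∈ Ω p, ea (fun q => jn (⟨e, T⟩ : Sy n k ℂ) x q.1 q.2) w ≠ 0 := by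
      rintro ⟨⟨S, u⟩, hu⟩
      by_contra hp
      push Not at hp
      refine hno ⟨S, ?_, u, hu, (h2 ⟨(S, u), hu⟩ T x).2 hp⟩
      rintro rfl
      exact hu (Finset.mem_univ u)
    choose g hg hg' using h3
    have h4 := h _ ⟨g, hg, rfl⟩
    rw [map_prod] at h4
    exact Finset.prod_ne_zero_iff.2 (fun p _ => hg' p) h4

/-- The coefficients as constant polynomials. -/
noncomputable def cG (G : Sy n k (𝓞 K)) : Sy n k (MvPolynomial (Σ v, Fin (n v)) K) :=
  G.map fun a => C (a : K)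

/-- The variables. -/
noncomputable def vX (K : Type) [Field K] (n : V → ℕ) : Tup n (MvPolynomial (Σ v, Fin (n v)) K) :=
  fun v l => X ⟨v, l⟩

/-- The coefficients are inserted. -/
noncomputable def sub (G : Sy n k (𝓞 K)) :
    MvPolynomial (Σ t : Option V, Fin (nn n G.e t)) ℤ →+* MvPolynomial (Σ v, Fin (n v)) K :=
  eval₂Hom (Int.castRingHom _) fun q => jn (cG G) (vX K n) q.1 q.2

/-- The values of a polynomial. -/
theorem sub_eval (G : Sy n k (𝓞 K)) (σ : K →+* ℂ) (x : Tup n K)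
    (w : MvPolynomial (Σ t : Option V, Fin (nn n G.e t)) ℤ) :
    σ (eval (fun q : (Σ v, Fin (n v)) => x q.1 q.2) (sub G w)) =
      ea (fun q => jn (Gs σ G) (fun v l => σ (x v l)) q.1 q.2) w := by
  have h : (σ.comp (eval fun q : (Σ v, Fin (n v)) => x q.1 q.2)).comp (sub G) =
      ea (fun q : (Σ t : Option V, Fin (nn n G.e t)) =>
        jn (Gs σ G) (fun v l => σ (x v l)) q.1 q.2) := by
    apply MvPolynomial.ringHom_ext
    · intro m
      simp [ea]
    · rintro ⟨t, l⟩
      rcases t with _ | v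
      · show σ (eval _ (eval₂Hom _ _ (X _))) = eval₂Hom _ _ (X _)
        rw [eval₂Hom_X', eval₂Hom_X']
        show σ (eval _ (C _)) = _
        rw [eval_C]
        rfl
      · show σ (eval _ (eval₂Hom _ _ (X _))) = eval₂Hom _ _ (X _)
        rw [eval₂Hom_X', eval₂Hom_X']
        show σ (eval _ (X _)) = _
        rw [eval_X]
        rfl
  exact congrArg (fun f => f w) (congrArg DFunLike.coe h)

/-- The polynomials stay homogeneous. -/
theorem sub_MH (G : Sy n k (𝓞 K)) {w : MvPolynomial (Σ t : Option V, Fin (nn n G.e t)) ℤ}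
    {ε : Option V → ℕ} (hw : MH w ε) : MH (sub G w) fun v => ε (some v) := by
  have hX : ∀ q : (Σ t : Option V, Fin (nn n G.e t)),
      MH (jn (cG G) (vX K n) q.1 q.2) (fun v : V => if q.1 = some v then 1 else 0) := by
    rintro ⟨t, l⟩
    rcases t with _ | u
    · have h1 := MH_C (κ := fun v : V => Fin (n v))
        ((G.T _ ((Fintype.equivFin (Cf n G.e)).symm l).2 : 𝓞 K) : K)
      have h2 : (0 : V → ℕ) = fun v : V => if (none : Option V) = some v then 1 else 0 := by
        funext v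
        rw [if_neg (by simp)]
        rfl
      rw [h2] at h1
      exact h1
    · have h1 := MH_X (κ := fun v : V => Fin (n v)) (R := K) u l
      have h2 : (Pi.single u 1 : V → ℕ) = fun v : V => if (some u : Option V) = some v then 1
          else 0 := by
        funext v
        by_cases hv : u = v
        · subst hv
          simp
        · rw [Pi.single_eq_of_ne (Ne.symm hv), if_neg]
          intro h
          exact hv (Option.some_injective _ h)
      rw [h2] at h1
      exact h1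
  have e1 : sub G w = ∑ β ∈ w.support, ((w.coeff β : ℤ) : MvPolynomial (Σ v, Fin (n v)) K) *
      ∏ q, jn (cG G) (vX K n) q.1 q.2 ^ β q := by
    unfold sub
    rw [coe_eval₂Hom, eval₂_eq']
    rfl
  rw [e1]
  refine MH_grl.sum _ fun β hβ => MH_grl.intMul _ ?_
  have h3 : MH (∏ q : (Σ t : Option V, Fin (nn n G.e t)), jn (cG G) (vX K n) q.1 q.2 ^ β q)
      (∑ q : (Σ t : Option V, Fin (nn n G.e t)),
        fun v : V => β q * (if q.1 = some v then 1 else 0)) := by
    refine MH_grl.prod Finset.univ fun q _ => ?_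
    have h4 := MH_grl.prod (Finset.range (β q)) (f := fun _ => jn (cG G) (vX K n) q.1 q.2)
      (d := fun _ => fun v : V => if q.1 = some v then 1 else 0) fun _ _ => hX q
    rw [Finset.prod_const, Finset.card_range] at h4
    have h5 : (∑ _i ∈ Finset.range (β q), fun v : V => if q.1 = some v then 1 else 0) =
        fun v : V => β q * (if q.1 = some v then 1 else 0) := by
      funext v
      rw [Finset.sum_apply, Finset.sum_const, Finset.card_range, smul_eq_mul]
    rw [h5] at h4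
    exact h4
  have h6 : (∑ q : (Σ t : Option V, Fin (nn n G.e t)),
        fun v : V => β q * (if q.1 = some v then 1 else 0)) = fun v => ε (some v) := by
    funext v
    rw [Finset.sum_apply, Fintype.sum_sigma, Finset.sum_eq_single (some v)]
    · rw [← hw β hβ (some v)]
      refine Finset.sum_congr rfl fun l _ => ?_
      rw [if_pos rfl, mul_one]
    · intro t _ ht
      refine Finset.sum_eq_zero fun l _ => ?_
      rw [if_neg ht, mul_zero]
    · intro h
      exact absurd (Finset.mem_univ _) h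
  rw [h6] at h3
  exact h3

/-- The equations of the bad loci over the number field. -/
theorem clo (hr : 1 ≤ r) (G : Sy n k (𝓞 K)) (A : ∀ v, Fin r → Fin (n v) → ℤ) :
    ∃ Ω : Set (MvPolynomial (Σ v, Fin (n v)) K), (∀ w ∈ Ω, ∃ ε : V → ℕ, MH w ε) ∧
      ∀ (σ : K →+* ℂ) (x : Tup n K),
        (∃ S : Finset V, S ≠ Finset.univ ∧ BS (Gs σ G) (cA A) S fun v l => σ (x v l)) ↔
          ∀ w ∈ Ω, eval (fun q => x q.1 q.2) w = 0 := by
  obtain ⟨Ω, h1, h2⟩ := clo_univ hr n G.e A
  refine ⟨sub G '' Ω, ?_, fun σ x => ?_⟩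
  · rintro _ ⟨w, hw, rfl⟩
    obtain ⟨ε, hε⟩ := h1 w hw
    exact ⟨_, sub_MH G hε⟩
  · have h3 := h2 (fun i j => sg σ (G.T i j)) fun v l => σ (x v l)
    refine h3.trans ?_
    rw [Set.forall_mem_image]
    refine forall_congr' fun w => forall_congr' fun hw => ?_
    rw [← map_eq_zero σ, sub_eval]
    rfl

end Pool.Agent.L5helper6.SM
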