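import Pool.Agent.L5helper6.SM.Uni
import Pool.Agent.L5helper6.BF.Eng

/-!
Integral vectors over a number field in the bad loci (after `Pool.Agent.N147.EL.CntBS`).
-/

namespace Pool.Agent.L5helper6.SM

open scoped Classical
open NumberField Module Function
open Pool.Agent Pool.Agent.N852.GR
open Pool.Agent.N852.MM (Tup)
open Pool.Agent.N852.EL (lc gr lc_map)

set_option linter.unusedSectionVars false

variable {K : Type} [Field K] [NumberField K]
variable {V : Type} [Fintype V] [DecidableEq V] {n : V → ℕ} {k r : ℕ}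

/-- The embedding of the integers. -/
noncomputable def sg (σ : K →+* ℂ) : 𝓞 K →+* ℂ := σ.comp (algebraMap (𝓞 K) K)

theorem sg_inj (σ : K →+* ℂ) : Injective (sg σ) :=
  σ.injective.comp RingOfIntegers.coe_injective

/-- The complex system. -/
noncomputable def Gs (σ : K →+* ℂ) (G : Sy n k (𝓞 K)) : Sy n k ℂ := G.map (sg σ)

/-- The complex family. -/
noncomputable def xs (σ : K →+* ℂ) (x : Tup n (𝓞 K)) : Tup n ℂ := fun v l => sg σ (x v l)

theorem io_apply {N : ℕ} (z : Fin N → 𝓞 K) (l : Fin N) :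
    io z l = mixedEmbedding K (z l : K) := rfl

/-- The linear combination. -/
theorem nrm_tl {N r : ℕ} {X a : ℝ} (hX : 0 ≤ X) (ha : 0 ≤ a) (B : Fin r → ℤ)
    (hB : ∀ j, |(B j : ℝ)| ≤ a) (y : Fin r → 𝓞 K) (t : 𝓞 K)
    (hy : ∀ j, ‖mixedEmbedding K (y j : K)‖ ≤ X) (ht : ‖mixedEmbedding K (t : K)‖ ≤ X) :
    ‖mixedEmbedding K ((t - ∑ j, y j * (B j : 𝓞 K) : 𝓞 K) : K)‖ ≤ (1 + r * a) * X := by
  have e : ((t - ∑ j, y j * (B j : 𝓞 K) : 𝓞 K) : K) = (t : K) - ∑ j, (y j : K) * ((B j : ℤ) : K) := by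
    have h1 : algebraMap (𝓞 K) K (t - ∑ j, y j * (B j : 𝓞 K)) =
        algebraMap (𝓞 K) K t - ∑ j, algebraMap (𝓞 K) K (y j) * ((B j : ℤ) : K) := by
      rw [map_sub, map_sum]
      congr 1
    exact h1
  rw [e, map_sub, map_sum]
  have h2 : ∀ j, ‖mixedEmbedding K ((y j : K) * ((B j : ℤ) : K))‖ ≤ a * X := by
    intro j
    have e2 : mixedEmbedding K ((y j : K) * ((B j : ℤ) : K)) =
        (B j) • mixedEmbedding K (y j : K) := by
      rw [map_mul, map_intCast, zsmul_eq_mul, mul_comm]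
    rw [e2]
    have e3 : (B j) • mixedEmbedding K (y j : K) = (B j : ℝ) • mixedEmbedding K (y j : K) :=
      (Int.cast_smul_eq_zsmul ℝ _ _).symm
    rw [e3, norm_smul, Real.norm_eq_abs]
    exact mul_le_mul (hB j) (hy j) (norm_nonneg _) ha
  calc ‖mixedEmbedding K (t : K) - ∑ j, mixedEmbedding K ((y j : K) * ((B j : ℤ) : K))‖
      ≤ ‖mixedEmbedding K (t : K)‖ + ‖∑ j, mixedEmbedding K ((y j : K) * ((B j : ℤ) : K))‖ :=
        norm_sub_le _ _
    _ ≤ X + ∑ j : Fin r, a * X :=
        add_le_add ht ((norm_sum_le _ _).trans (Finset.sum_le_sum fun j _ => h2 j))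
    _ = (1 + r * a) * X := by
        rw [Finset.sum_const, Finset.card_univ, Fintype.card_fin, nsmul_eq_mul]
        ring

theorem lc_low' {R : Type*} [CommRing R] {N : ℕ} (A : Fin r → Fin N → R) (y : Fin r → R)
    (l : Fin N) (hl : (l : ℕ) < r) : lc A y l = y ⟨l, hl⟩ := Pool.Agent.N147.EL.lc_low A y l hl

theorem lc_high {R : Type*} [CommRing R] {N : ℕ} (A : Fin r → Fin N → R) (y : Fin r → R)
    (l : Fin N) (hl : ¬ (l : ℕ) < r) : lc A y l = ∑ j, y j * A j l := by
  unfold lc gr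
  simp only [if_neg hl]

/-- **The number of the integral vectors in a box in the bad locus.** -/
theorem cntBS (G : Sy n k (𝓞 K)) (σ : K →+* ℂ) (A : ∀ v, Fin r → Fin (n v) → ℤ) (hr : 1 ≤ r)
    (hrn : ∀ v, r ≤ n v) : ∃ C : ℝ, 0 ≤ C ∧ ∀ (S : Finset V) (v : V), v ∉ S →
      ∀ x : Tup n (𝓞 K), ¬ BS (Gs σ G) (cA A) S (xs σ x) → ∀ X : ℝ, 1 ≤ X →
        ({z : Fin (n v) → 𝓞 K | ‖io z‖ ≤ X ∧
          BS (Gs σ G) (cA A) (insert v S) (xs σ (update x v z))}.ncard : ℝ) ≤
            C * X ^ (finrank ℚ K * (n v - r)) := by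
  set F := Gs σ G with hF
  -- the bounds
  have hf : ∀ p : V × V × Finset V, ∃ δ₀ : ℕ, p.2.1 ∉ p.2.2 → ∀ x : Tup n ℂ,
      ¬ Bu F (cA A) p.1 p.2.2 x → ∀ (w : Fin (n p.2.1) → ℂ) (Y : Finset (Fin r → ℂ)),
        (∀ y ∈ Y, Bu F (cA A) p.1 (insert p.2.1 p.2.2)
          (update x p.2.1 fun l => w l + lc (cA A p.2.1) y l)) → Y.card ≤ δ₀ := by
    rintro ⟨u, v, S⟩
    by_cases hv : v ∈ S
    · exact ⟨0, fun h => absurd hv h⟩
    · obtain ⟨δ₀, h⟩ := few hr F A u v S hv
      refine ⟨δ₀, fun _ x hx w Y hY => h x hx w Y fun y hy => ?_⟩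
      convert hY y hy
  choose δ₀ hδ using hf
  obtain ⟨a, ha0, ha⟩ : ∃ a : ℝ, 0 ≤ a ∧ ∀ v j l, |(A v j l : ℝ)| ≤ a := by
    refine ⟨∑ v, ∑ j, ∑ l, |(A v j l : ℝ)|, by positivity, fun v j l => ?_⟩
    have h1 : |(A v j l : ℝ)| ≤ ∑ l, |(A v j l : ℝ)| :=
      Finset.single_le_sum (f := fun l => |(A v j l : ℝ)|) (fun _ _ => abs_nonneg _)
        (Finset.mem_univ l)
    have h2 : ∑ l, |(A v j l : ℝ)| ≤ ∑ j, ∑ l, |(A v j l : ℝ)| :=
      Finset.single_le_sum (f := fun j => ∑ l, |(A v j l : ℝ)|) (fun _ _ => by positivity)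
        (Finset.mem_univ j)
    have h3 : ∑ j, ∑ l, |(A v j l : ℝ)| ≤ ∑ v, ∑ j, ∑ l, |(A v j l : ℝ)| :=
      Finset.single_le_sum (f := fun v => ∑ j, ∑ l, |(A v j l : ℝ)|) (fun _ _ => by positivity)
        (Finset.mem_univ v)
    linarith
  set c : ℝ := 1 + r * a with hc
  have hc1 : 1 ≤ c := by
    have : 0 ≤ (r : ℝ) * a := by positivity
    linarith
  set d := finrank ℚ K with hd
  set Δ : ℕ := ∑ p : V × V × Finset V, δ₀ p with hΔ
  refine ⟨Δ * ∑ v, (6 * c) ^ (d * (n v - r)), by positivity, ?_⟩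
  intro S v hv x hx X hX
  have hZf : {z : Fin (n v) → 𝓞 K | ‖io z‖ ≤ X ∧
      BS F (cA A) (insert v S) (xs σ (update x v z))}.Finite :=
    ((latP K (n v)).2.1 X).subset fun z hz => hz.1
  set Z := hZf.toFinset with hZ
  have hmZ : ∀ z, z ∈ Z ↔ ‖io z‖ ≤ X ∧ BS F (cA A) (insert v S) (xs σ (update x v z)) :=
    fun z => Set.Finite.mem_toFinset _
  rw [Set.ncard_eq_toFinset_card _ hZf]
  have hcX : 1 ≤ c * X := by nlinarith
  -- coordinates
  let yy : (Fin (n v) → 𝓞 K) → Fin r → 𝓞 K := fun z j => z (Fin.castLE (hrn v) j)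
  let ii : Fin (n v - r) → Fin (n v) := fun l => ⟨r + l, by have := hrn v; omega⟩
  let tl : (Fin (n v) → 𝓞 K) → Fin (n v - r) → 𝓞 K := fun z l =>
    z (ii l) - ∑ j, yy z j * ((A v j (ii l) : ℤ) : 𝓞 K)
  have hWf := (latP K (n v - r)).2.1 (c * X)
  have hmaps : ∀ z ∈ Z, tl z ∈ hWf.toFinset := by
    intro z hz
    rw [hmZ] at hz
    rw [Set.Finite.mem_toFinset]
    show ‖io (tl z)‖ ≤ c * X
    rw [pi_norm_le_iff_of_nonneg (by linarith)]
    intro l
    rw [io_apply]
    refine nrm_tl (N := 0) (by linarith) ha0 (fun j => A v j (ii l)) (fun j => ha v j _) _ _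
      (fun j => ?_) ?_
    · exact (norm_le_pi_norm (io z) _).trans hz.1
    · exact (norm_le_pi_norm (io z) _).trans hz.1
  have htl : ∀ z z', tl z = tl z' → ∀ l, z l - lc (fun j l => ((A v j l : ℤ) : 𝓞 K)) (yy z) l =
      z' l - lc (fun j l => ((A v j l : ℤ) : 𝓞 K)) (yy z') l := by
    intro z z' h l
    by_cases hl : (l : ℕ) < r
    · rw [lc_low' _ _ l hl, lc_low' _ _ l hl]
      have e1 : yy z ⟨l, hl⟩ = z l := rfl
      have e2 : yy z' ⟨l, hl⟩ = z' l := rfl
      rw [e1, e2, sub_self, sub_self]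
    · rw [lc_high _ _ l hl, lc_high _ _ l hl]
      have h1 := congrFun h ⟨l - r, by have := l.2; omega⟩
      have e1 : ii ⟨l - r, by have := l.2; omega⟩ = l := by
        apply Fin.ext
        show r + (l - r) = (l : ℕ)
        omega
      simp only [tl] at h1
      rw [e1] at h1
      exact h1
  have hfib : ∀ w ∈ hWf.toFinset, (Z.filter fun z => tl z = w).card ≤ Δ := by
    intro w _
    -- the fibre is the union over `u`
    have hsub : (Z.filter fun z => tl z = w) ⊆
        (Finset.univ : Finset V).biUnion fun u => (Z.filter fun z => tl z = w ∧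
          u ∉ insert v S ∧ Bu F (cA A) u (insert v S) (xs σ (update x v z))) := by
      intro z hz
      rw [Finset.mem_filter] at hz
      have h1 := hz.1
      rw [hmZ] at h1
      obtain ⟨u, hu, hb⟩ := h1.2
      rw [Finset.mem_biUnion]
      exact ⟨u, Finset.mem_univ _, Finset.mem_filter.2 ⟨hz.1, hz.2, hu, hb⟩⟩
    refine (Finset.card_le_card hsub).trans (Finset.card_biUnion_le.trans ?_)
    have hle : ∀ u ∈ (Finset.univ : Finset V), (Z.filter fun z => tl z = w ∧
          u ∉ insert v S ∧ Bu F (cA A) u (insert v S) (xs σ (update x v z))).card ≤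
            δ₀ (u, v, S) := by
      intro u _
      by_cases hu : u ∈ insert v S
      · have : (Z.filter fun z => tl z = w ∧ u ∉ insert v S ∧
            Bu F (cA A) u (insert v S) (xs σ (update x v z))) = ∅ := by
          apply Finset.filter_eq_empty_iff.2
          intro z _ h
          exact h.2.1 hu
        rw [this]
        exact Nat.zero_le _
      have huS : u ∉ S := fun h => hu (Finset.mem_insert_of_mem h)
      have hnb : ¬ Bu F (cA A) u S (xs σ x) := fun h => hx ⟨u, huS, h⟩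
      set Zu' := Z.filter fun z => tl z = w ∧
          u ∉ insert v S ∧ Bu F (cA A) u (insert v S) (xs σ (update x v z)) with hZu
      rcases Zu'.eq_empty_or_nonempty with h0 | ⟨z₀, hz₀⟩
      · rw [h0]
        exact Nat.zero_le _
      have hz₀' := hz₀
      rw [hZu, Finset.mem_filter] at hz₀'
      let ww : Fin (n v) → 𝓞 K := fun l =>
        z₀ l - lc (fun j l => ((A v j l : ℤ) : 𝓞 K)) (yy z₀) l
      have hzw : ∀ z ∈ Zu', ∀ l, z l = ww l +
          lc (fun j l => ((A v j l : ℤ) : 𝓞 K)) (yy z) l := by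
        intro z hz l
        rw [hZu, Finset.mem_filter] at hz
        have h1 := htl z z₀ (hz.2.1.trans hz₀'.2.1.symm) l
        simp only [ww]
        rw [← h1]
        ring
      let yc : (Fin (n v) → 𝓞 K) → Fin r → ℂ := fun z j => sg σ (yy z j)
      have hinj : Set.InjOn yc Zu' := by
        intro z hz z' hz' h
        have hy : yy z = yy z' := by
          funext j
          exact sg_inj σ (congrFun h j)
        funext l
        rw [hzw z hz l, hzw z' hz' l, hy]
      rw [← Finset.card_image_of_injOn hinj]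
      refine hδ (u, v, S) hv (xs σ x) hnb (fun l => sg σ (ww l)) _ ?_
      intro y hy
      obtain ⟨z, hz, rfl⟩ := Finset.mem_image.1 hy
      have hz' := hz
      rw [hZu, Finset.mem_filter] at hz'
      have h1 := hz'.2.2.2
      have e : xs σ (update x v z) = update (xs σ x) v fun l =>
          sg σ (ww l) + lc (cA A v) (yc z) l := by
        funext t l
        by_cases ht : t = v
        · subst ht
          unfold xs
          rw [update_self, update_self, hzw z hz l, map_add]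
          congr 1
          have h3 := lc_map (sg σ) (fun j l => ((A t j l : ℤ) : 𝓞 K)) (yy z) l
          rw [← h3]
          congr 1
          funext j l
          exact map_intCast _ _
        · unfold xs
          simp only [update_of_ne ht]
      rw [e] at h1
      exact h1
    refine (Finset.sum_le_sum hle).trans ?_
    rw [hΔ]
    have h2 : ∑ u : V, δ₀ (u, v, S) = ∑ p ∈ (Finset.univ : Finset V).image (fun u => (u, v, S)),
        δ₀ p := by
      rw [Finset.sum_image]
      intro u _ u' _ h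
      exact (Prod.mk.inj h).1
    rw [h2]
    exact Finset.sum_le_sum_of_subset (Finset.subset_univ _)
  have hcard := Finset.card_le_mul_card_image_of_maps_to hmaps Δ hfib
  have hW : (hWf.toFinset.card : ℝ) ≤ (6 * (c * X)) ^ (d * (n v - r)) := by
    rw [← Set.ncard_eq_toFinset_card _ hWf]
    exact EngT.ball_le (latP K) (n v - r) (c * X) hcX
  have hcard' : (Z.card : ℝ) ≤ Δ * (6 * (c * X)) ^ (d * (n v - r)) := by
    calc (Z.card : ℝ) ≤ ((Δ * hWf.toFinset.card : ℕ) : ℝ) := by exact_mod_cast hcard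
      _ = Δ * (hWf.toFinset.card : ℝ) := by push_cast; rfl
      _ ≤ _ := mul_le_mul_of_nonneg_left hW (Nat.cast_nonneg _)
  refine hcard'.trans ?_
  have e3 : (6 * (c * X)) ^ (d * (n v - r)) = (6 * c) ^ (d * (n v - r)) *
      X ^ (d * (n v - r)) := by
    rw [← mul_pow]; ring
  rw [e3, ← mul_assoc]
  refine mul_le_mul_of_nonneg_right (mul_le_mul_of_nonneg_left ?_ (Nat.cast_nonneg _))
    (by positivity)
  exact Finset.single_le_sum (f := fun v => (6 * c) ^ (d * (n v - r))) (fun v _ => by positivity)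
    (Finset.mem_univ v)

end Pool.Agent.L5helper6.SM
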