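import Mathlib
import Pool.Agent.N852.EL.Stm

/-!
Systems of multilinear equations with coefficients in any ring (after `Pool.Agent.N852.MM.Def` and
`Pool.Agent.N852.EL.Stm`, where the coefficients are integers).
-/

namespace Pool.Agent.L5helper6.SM

set_option linter.unusedSectionVars false

open Matrix Module Filter Topology Function
open Pool.Agent.N852.MM (Tup)
open Pool.Agent.N852.EL (lc gr)

/-- A system of `k` multilinear equations: the `i`-th form depends on the vectors `x v` with
`v ∈ e i`, and is linear in each of them. -/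
structure Sy {V : Type} (n : V → ℕ) (k : ℕ) (R : Type*) where
  /-- the vectors which occur in the `i`-th form -/
  e : Fin k → Finset V
  /-- the coefficients -/
  T : ∀ i, (∀ v : e i, Fin (n v)) → R

variable {V : Type} [DecidableEq V] {n : V → ℕ} {k : ℕ}

/-- The value of the `i`-th form. -/
def ev {R : Type*} [CommRing R] (F : Sy n k R) (i : Fin k) (x : Tup n R) : R :=
  ∑ j : (∀ v : F.e i, Fin (n v)), F.T i j * ∏ v : F.e i, x v (j v)

/-- The partial derivative. -/
def dd {R : Type*} [CommRing R] (F : Sy n k R) (i : Fin k) (v : V) (x : Tup n R) : Fin (n v) → R :=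
  fun l => ev F i (update x v (Pi.single l 1))

/-- The equations. -/
def Inc {R : Type*} [CommRing R] (F : Sy n k R) (x : Tup n R) : Prop := ∀ i, ev F i x = 0

/-- The forms which depend on the vector `x v`. -/
abbrev Wi {R : Type*} (F : Sy n k R) (v : V) : Type := {i : Fin k // v ∈ F.e i}

/-- The coefficient vectors of the equations for `x v`. -/
def der {R : Type*} [CommRing R] (F : Sy n k R) (v : V) (x : Tup n R) : Wi F v → Fin (n v) → R :=
  fun i => dd F i.1 v x

/-- The equations which do not depend on `x v`. -/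
def IncN {R : Type*} [CommRing R] (F : Sy n k R) (v : V) (x : Tup n R) : Prop :=
  ∀ i, v ∉ F.e i → ev F i x = 0

/-- The number of equations for `x v`. -/
def dg {R : Type*} (F : Sy n k R) (v : V) : ℕ := Fintype.card (Wi F v)

variable {R : Type*} [CommRing R] {F : Sy n k R}

theorem ev_update {i : Fin k} {v : V} (hv : v ∈ F.e i) (x : Tup n R) (z : Fin (n v) → R) :
    ev F i (update x v z) = dd F i v x ⬝ᵥ z := by
  classical
  have key : ∀ w : Fin (n v) → R, ev F i (update x v w) = ∑ j : (∀ u : F.e i, Fin (n u)),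
      F.T i j * (w (j ⟨v, hv⟩) *
        ∏ u ∈ (Finset.univ : Finset (F.e i)).erase ⟨v, hv⟩, x u (j u)) := by
    intro w
    unfold ev
    refine Finset.sum_congr rfl fun j _ => ?_
    rw [← Finset.mul_prod_erase Finset.univ _ (Finset.mem_univ (⟨v, hv⟩ : F.e i))]
    congr 2
    · simp
    · refine Finset.prod_congr rfl fun u hu => ?_
      rw [Finset.mem_erase] at hu
      have h1 : (u : V) ≠ v := fun h => hu.1 (Subtype.ext h)
      rw [update_of_ne h1]
  unfold dotProduct dd
  rw [key z]
  simp only [key, Finset.sum_mul]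
  rw [Finset.sum_comm]
  refine Finset.sum_congr rfl fun j _ => ?_
  rw [Finset.sum_eq_single (j ⟨v, hv⟩)]
  · rw [Pi.single_eq_same]
    ring
  · intro l _ hl
    rw [Pi.single_eq_of_ne (Ne.symm hl)]
    ring
  · intro h
    exact absurd (Finset.mem_univ _) h

theorem ev_congr {i : Fin k} {x y : Tup n R} (h : ∀ v ∈ F.e i, x v = y v) :
    ev F i x = ev F i y := by
  unfold ev
  refine Finset.sum_congr rfl fun j _ => ?_
  congr 1
  refine Finset.prod_congr rfl fun u _ => ?_
  rw [h u u.2]

theorem ev_update_not {i : Fin k} {v : V} (hv : v ∉ F.e i) (x : Tup n R) (z : Fin (n v) → R) :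
    ev F i (update x v z) = ev F i x := by
  apply ev_congr
  intro u hu
  rw [update_of_ne]
  rintro rfl
  exact hv hu

theorem dd_update (i : Fin k) (v : V) (x : Tup n R) (z : Fin (n v) → R) :
    dd F i v (update x v z) = dd F i v x := by
  unfold dd
  funext l
  rw [update_idem]

theorem der_update (v : V) (x : Tup n R) (z : Fin (n v) → R) :
    der F v (update x v z) = der F v x := by
  unfold der
  funext i
  rw [dd_update]

theorem ev_eq {i : Fin k} {v : V} (hv : v ∈ F.e i) (x : Tup n R) : ev F i x = dd F i v x ⬝ᵥ x v := by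
  conv_lhs => rw [← update_eq_self v x]
  exact ev_update hv x (x v)

theorem inc_iff (v : V) (x : Tup n R) : Inc F x ↔ IncN F v x ∧ ∀ i, der F v x i ⬝ᵥ x v = 0 := by
  constructor
  · intro h
    refine ⟨fun i _ => h i, fun i => ?_⟩
    have := h i.1
    rwa [ev_eq i.2] at this
  · rintro ⟨h1, h2⟩ i
    by_cases hi : v ∈ F.e i
    · rw [ev_eq hi]
      exact h2 ⟨i, hi⟩
    · exact h1 i hi

theorem incN_update (v : V) (x : Tup n R) (z : Fin (n v) → R) :
    IncN F v (update x v z) ↔ IncN F v x := by
  unfold IncN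
  refine forall_congr' fun i => forall_congr' fun hi => ?_
  rw [ev_update_not hi]

theorem inc_update_iff (v : V) (x : Tup n R) (z : Fin (n v) → R) :
    Inc F (update x v z) ↔ IncN F v x ∧ ∀ i, der F v x i ⬝ᵥ z = 0 := by
  rw [inc_iff v, incN_update, der_update, update_self]

/-! ### Scaling -/

/-- The product of the factors of the vectors which occur in the `i`-th form. -/
theorem ev_smul (i : Fin k) (c : V → R) (x : Tup n R) :
    ev F i (fun v => c v • x v) = (∏ v ∈ F.e i, c v) * ev F i x := by
  unfold ev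
  rw [Finset.mul_sum]
  refine Finset.sum_congr rfl fun j _ => ?_
  have h1 : ∏ v : F.e i, (c v • x v) (j v) = (∏ v : F.e i, c v) * ∏ v : F.e i, x v (j v) := by
    rw [← Finset.prod_mul_distrib]
    rfl
  rw [h1, Finset.prod_coe_sort (F.e i) c]
  ring

theorem dd_smul (i : Fin k) {v : V} (hv : v ∈ F.e i) (c : V → R) (x : Tup n R) :
    dd F i v (fun u => c u • x u) = (∏ u ∈ (F.e i).erase v, c u) • dd F i v x := by
  classical
  funext l
  unfold dd
  have h1 : update (fun u => c u • x u) v (Pi.single l 1) =
      fun u => (update c v 1 u) • (update x v (Pi.single l 1) u) := by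
    funext u
    by_cases hu : u = v
    · subst hu
      simp
    · rw [update_of_ne hu, update_of_ne hu, update_of_ne hu]
  rw [h1, ev_smul, Pi.smul_apply, smul_eq_mul]
  congr 1
  rw [← Finset.mul_prod_erase _ _ hv, update_self, one_mul]
  refine Finset.prod_congr rfl fun u hu => ?_
  rw [update_of_ne (Finset.ne_of_mem_erase hu)]

theorem inc_smul {x : Tup n R} (h : Inc F x) (c : V → R) : Inc F fun v => c v • x v := by
  intro i
  rw [ev_smul, h i, mul_zero]

theorem inc_smul_iff {K : Type*} [Field K] {F : Sy n k K} {x : Tup n K} {c : V → K} (hc : ∀ v, c v ≠ 0) :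
    (Inc F fun v => c v • x v) ↔ Inc F x := by
  unfold Inc
  refine forall_congr' fun i => ?_
  rw [ev_smul, mul_eq_zero]
  constructor
  · intro h
    exact h.resolve_left (Finset.prod_ne_zero_iff.2 fun v _ => hc v)
  · intro h
    exact Or.inr h

/-! ### Change of rings -/

/-- The system with the coefficients mapped. -/
def Sy.map {R S : Type*} (F : Sy n k R) (f : R → S) : Sy n k S := ⟨F.e, fun i j => f (F.T i j)⟩

theorem ev_map {S : Type*} [CommRing S] (f : R →+* S) (i : Fin k) (x : Tup n R) :
    ev (F.map f) i (fun v l => f (x v l)) = f (ev F i x) := by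
  unfold ev
  rw [map_sum]
  refine Finset.sum_congr rfl fun j _ => ?_
  rw [map_mul, map_prod]
  rfl

theorem update_map {S : Type*} [CommRing S] (f : R →+* S) (v : V) (x : Tup n R)
    (z : Fin (n v) → R) : (fun u l => f (update x v z u l)) =
      (update (fun u l => f (x u l)) v (fun l => f (z l)) : Tup n S) := by
  funext u
  by_cases hu : u = v
  · subst hu
    rw [update_self, update_self]
  · rw [update_of_ne hu, update_of_ne hu]

theorem single_map {S : Type*} [CommRing S] (f : R →+* S) {N : ℕ} (l : Fin N) :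
    (fun m => f ((Pi.single l 1 : Fin N → R) m)) = Pi.single l 1 := by
  funext m
  by_cases hm : m = l
  · subst hm
    simp
  · simp [hm]

theorem dd_map {S : Type*} [CommRing S] (f : R →+* S) (i : Fin k) (v : V) (x : Tup n R) :
    dd (F.map f) i v (fun v l => f (x v l)) = fun l => f (dd F i v x l) := by
  funext l
  unfold dd
  rw [← ev_map, update_map, single_map]

/-! ### Bad loci -/

/-- The Jacobian criterion. -/
def Sm (F : Sy n k ℂ) : Prop := ∀ x : Tup n ℂ, (∀ v, x v ≠ 0) → Inc F x → ∀ s : Fin k → ℂ,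
  (∀ v (l : Fin (n v)), ∑ i : Wi F v, s i * der F v x i l = 0) → s = 0

/-- The vectors of the family with index in `S` are those of `x`, the others are in the linear
subspaces. -/
def mx {R : Type*} [CommRing R] {r : ℕ} (A : ∀ v, Fin r → Fin (n v) → R) (S : Finset V)
    (x : Tup n R) (z : V → Fin r → R) : Tup n R :=
  fun v => if v ∈ S then x v else lc (A v) (z v)

theorem mx_empty {R : Type*} [CommRing R] {r : ℕ} (A : ∀ v, Fin r → Fin (n v) → R) (x : Tup n R)
    (z : V → Fin r → R) : mx A ∅ x z = fun v => lc (A v) (z v) := by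
  funext v
  unfold mx
  rw [if_neg (Finset.notMem_empty v)]

/-- The forms of the bad locus of index `u`. -/
def Zu {R : Type*} [CommRing R] (F : Sy n k R) (u : V) (x : Tup n R) (s : Wi F u → R) : Prop :=
  IncN F u x ∧ ∀ l, ∑ i, s i * der F u x i l = 0

/-- The bad locus of index `S`, `u`. -/
def Bu (F : Sy n k ℂ) {r : ℕ} (A : ∀ v, Fin r → Fin (n v) → ℂ) (u : V) (S : Finset V)
    (x : Tup n ℂ) : Prop :=
  ∃ (z : V → Fin r → ℂ) (s : Wi F u → ℂ), (∀ v, z v ≠ 0) ∧ s ≠ 0 ∧ Zu F u (mx A S x z) s

/-- The bad locus of index `S`. -/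
def BS (F : Sy n k ℂ) {r : ℕ} (A : ∀ v, Fin r → Fin (n v) → ℂ) (S : Finset V) (x : Tup n ℂ) :
    Prop := ∃ u, u ∉ S ∧ Bu F A u S x

/-- The complex linear subspaces. -/
def cA {r : ℕ} (A : ∀ v, Fin r → Fin (n v) → ℤ) : ∀ v, Fin r → Fin (n v) → ℂ :=
  fun v j l => (A v j l : ℂ)

/-! ### The Jacobian of the bad loci -/

/-- The dimensions of the vectors of the bad locus of index `u`. -/
def nu (F : Sy n k ℂ) (u : V) : Option {v : V // v ≠ u} → ℕ
  | none => dg F u
  | some v => n v.1

/-- The families of complex vectors of the bad locus of index `u`. -/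
abbrev Yu (F : Sy n k ℂ) (u : V) : Type := ∀ t : Option {v : V // v ≠ u}, Fin (nu F u t) → ℂ

/-- The family of vectors, with value `0` at `u`. -/
def xu (F : Sy n k ℂ) (u : V) (y : Yu F u) : Tup n ℂ :=
  fun v => if h : v = u then 0 else y (some ⟨v, h⟩)

/-- The coefficients. -/
noncomputable def su (F : Sy n k ℂ) (u : V) (y : Yu F u) : Wi F u → ℂ :=
  fun i => y none (Fintype.equivFin (Wi F u) i)

/-- The equations of the bad locus. -/
noncomputable def Phi (F : Sy n k ℂ) (u : V) (y : Yu F u) :
    ({i : Fin k // u ∉ F.e i} → ℂ) × (Fin (n u) → ℂ) :=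
  (fun i => ev F i.1 (xu F u y), fun l => ∑ i, su F u y i * der F u (xu F u y) i l)

end Pool.Agent.L5helper6.SM
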