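import Pool.Agent.L5helper6.SM.Cnt

/-!
The engine over number fields for smooth complete intersections (after `Pool.Agent.N482.EL.EngSP`).
-/

namespace Pool.Agent.L5helper6.SM

open scoped Classical
open NumberField Module Function Matrix
open Pool.Agent Pool.Agent.N852.GR
open Pool.Agent.N852.MM (Tup)
open Pool.Agent.N852.EL (lc gr lc_map)
open Pool.Agent.L5helper6.BF (Nm Nm_pos It ncard_fibre box_finite box_card io_zero)

set_option linter.unusedSectionVars false

variable {K : Type} [Field K] [NumberField K]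
variable {V : Type} [Fintype V] [DecidableEq V] {n : V → ℕ} {k r : ℕ}

/-! ### The bad loci -/

theorem mx_congr {R : Type*} [CommRing R] (A : ∀ v, Fin r → Fin (n v) → R) {S : Finset V}
    {x y : Tup n R} (h : ∀ v ∈ S, x v = y v) (z : V → Fin r → R) : mx A S x z = mx A S y z := by
  funext v
  unfold mx
  split_ifs with hv
  · exact h v hv
  · rfl

theorem BS_congr {F : Sy n k ℂ} {A : ∀ v, Fin r → Fin (n v) → ℂ} {S : Finset V} {x y : Tup n ℂ}
    (h : ∀ v ∈ S, x v = y v) : BS F A S x ↔ BS F A S y := by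
  unfold BS Bu
  simp only [mx_congr A h]

theorem xs_congr (σ : K →+* ℂ) {x y : Tup n (𝓞 K)} {v : V} (h : x v = y v) :
    xs σ x v = xs σ y v := by
  funext l
  unfold xs
  rw [h]

theorem BS_update {F : Sy n k ℂ} {A : ∀ v, Fin r → Fin (n v) → ℂ} {S : Finset V} {v : V}
    (hv : v ∉ S) (σ : K →+* ℂ) (x : Tup n (𝓞 K)) (z : Fin (n v) → 𝓞 K) :
    BS F A S (xs σ (update x v z)) ↔ BS F A S (xs σ x) := by
  apply BS_congr
  intro w hw
  apply xs_congr
  rw [update_of_ne]
  rintro rfl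
  exact hv hw

/-- The family is good for the vector `x v`. -/
def GI (G : Sy n k (𝓞 K)) (v : V) (x : Tup n (𝓞 K)) : Prop :=
  LinearIndependent K fun i : Wi G v => co (der G v x i)

/-- The good families. -/
def GS (G : Sy n k (𝓞 K)) (σ : K →+* ℂ) (A : ∀ v, Fin r → Fin (n v) → ℤ) (v : V)
    (x : Tup n (𝓞 K)) : Prop :=
  GI G v x ∧ ∀ S : Finset V, v ∉ S → ¬ BS (Gs σ G) (cA A) S (xs σ x)

variable {G : Sy n k (𝓞 K)} {σ : K →+* ℂ} {A : ∀ v, Fin r → Fin (n v) → ℤ}

theorem GI_update (v : V) (x : Tup n (𝓞 K)) (z : Fin (n v) → 𝓞 K) :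
    GI G v (update x v z) ↔ GI G v x := by
  unfold GI
  rw [der_update]

theorem GS_update (v : V) (x : Tup n (𝓞 K)) (z : Fin (n v) → 𝓞 K) :
    GS G σ A v (update x v z) ↔ GS G σ A v x := by
  unfold GS
  rw [GI_update]
  refine and_congr_right fun _ => forall_congr' fun S => forall_congr' fun hS => ?_
  rw [BS_update hS]

theorem ev_xs (i : Fin k) (x : Tup n (𝓞 K)) : ev (Gs σ G) i (xs σ x) = sg σ (ev G i x) :=
  ev_map (F := G) (sg σ) i x

theorem dd_xs (i : Fin k) (v : V) (x : Tup n (𝓞 K)) (l : Fin (n v)) :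
    dd (Gs σ G) i v (xs σ x) l = sg σ (dd G i v x l) :=
  congrFun (dd_map (F := G) (sg σ) i v x) l

/-- A family with a bad vector is in one of the bad loci. -/
theorem bad_of (hr : 1 ≤ r) {u : V} {x : Tup n (𝓞 K)}
    (hx : Inc G x) (h : ¬ GS G σ A u x) :
    ∃ S : Finset V, u ∉ S ∧ BS (Gs σ G) (cA A) S (xs σ x) := by
  by_cases hG : GI G u x
  · unfold GS at h
    push Not at h
    exact h hG
  · refine ⟨Finset.univ.erase u, Finset.notMem_erase _ _, u, Finset.notMem_erase _ _, ?_⟩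
    unfold GI at hG
    rw [Fintype.not_linearIndependent_iff] at hG
    obtain ⟨g, hg, i₀, hi₀⟩ := hG
    have hmx : ∀ z : V → Fin r → ℂ, mx (cA A) (Finset.univ.erase u) (xs σ x) z =
        update (xs σ x) u (lc (cA A u) (z u)) := by
      intro z
      funext v
      unfold mx
      by_cases hv : v = u
      · subst hv
        rw [if_neg (Finset.notMem_erase _ _), update_self]
      · rw [if_pos (Finset.mem_erase.2 ⟨hv, Finset.mem_univ _⟩), update_of_ne hv]
    refine ⟨fun _ _ => 1, fun i => σ (g i), fun v h0 => ?_, fun h0 => ?_, ?_, ?_⟩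
    · have := congrFun h0 ⟨0, hr⟩
      simp at this
    · apply hi₀
      have h5 : σ (g i₀) = 0 := congrFun h0 i₀
      exact (map_eq_zero σ).1 h5
    · rw [hmx, incN_update]
      intro i _
      rw [ev_xs, hx i, map_zero]
    · intro l
      rw [hmx, der_update]
      have h1 := congrFun hg l
      simp only [Finset.sum_apply, Pi.smul_apply, smul_eq_mul, Pi.zero_apply] at h1
      have h2 : ∀ i : Wi G u, σ (g i) * der (Gs σ G) u (xs σ x) i l =
          σ (g i * co (der G u x i) l) := by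
        intro i
        change σ (g i) * dd (Gs σ G) i.1 u (xs σ x) l = _
        rw [dd_xs, map_mul]
        rfl
      have h3 : ∑ i : Wi G u, σ (g i) * der (Gs σ G) u (xs σ x) i l = 0 := by
        rw [Finset.sum_congr rfl fun i _ => h2 i, ← map_sum, h1, map_zero]
      exact h3

/-! ### The counts -/

/-- The families which become bad with the vector `v`. -/
def EX (G : Sy n k (𝓞 K)) (σ : K →+* ℂ) (A : ∀ v, Fin r → Fin (n v) → ℤ) (S : Finset V) (v : V)
    (X : V → ℝ) : Set (Tup n (𝓞 K)) :=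
  {x | (∀ u, ‖io (x u)‖ ≤ X u) ∧ ¬ BS (Gs σ G) (cA A) S (xs σ x) ∧
    BS (Gs σ G) (cA A) (insert v S) (xs σ x)}

theorem EX_finite (S : Finset V) (v : V) (X : V → ℝ) : (EX G σ A S v X).Finite :=
  (box_finite X).subset fun _ h => h.1

/-- **The number of families which become bad with the vector `v`.** -/
theorem card_EX (G : Sy n k (𝓞 K)) (σ : K →+* ℂ) (A : ∀ v, Fin r → Fin (n v) → ℤ) (hr : 1 ≤ r)
    (hn : ∀ v, r ≤ n v) : ∃ C : ℝ, 0 ≤ C ∧ ∀ (S : Finset V) (v : V), v ∉ S →
      ∀ X : V → ℝ, (∀ u, 1 ≤ X u) →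
        ((EX G σ A S v X).ncard : ℝ) * X v ^ (finrank ℚ K * r) ≤
          C * ∏ t, X t ^ (finrank ℚ K * n t) := by
  obtain ⟨C, hC, hcnt⟩ := cntBS G σ A hr hn
  set d := finrank ℚ K with hd
  refine ⟨C * 6 ^ (∑ t, d * n t), by positivity, ?_⟩
  intro S v hv X hX
  have hX0 : ∀ u, 0 < X u := fun u => by linarith [hX u]
  have hBf : {y : Tup n (𝓞 K) | ((∀ u ∈ ({v} : Finset V), y u = 0) ∧ ∀ u, ‖io (y u)‖ ≤ X u) ∧
      ¬ BS (Gs σ G) (cA A) S (xs σ y)}.Finite := (box_finite X).subset fun y hy => hy.1.2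
  have h1 : (EX G σ A S v X).ncard = ∑ y ∈ hBf.toFinset,
      {z | update y v z ∈ EX G σ A S v X}.ncard := by
    refine ncard_fibre v _ (EX_finite S v X) _ ?_ ?_
    · rintro x ⟨h2, h3, h4⟩
      rw [Set.Finite.mem_toFinset]
      refine ⟨⟨fun u hu => ?_, fun u => ?_⟩, ?_⟩
      · rw [Finset.mem_singleton] at hu
        subst hu
        exact update_self _ _ _
      · by_cases hu : u = v
        · subst hu
          rw [update_self, io_zero, norm_zero]
          exact (hX0 u).le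
        · rw [update_of_ne hu]
          exact h2 u
      · rw [BS_update hv]
        exact h3
    · intro y hy
      rw [Set.Finite.mem_toFinset] at hy
      exact hy.1.1 v (Finset.mem_singleton_self v)
  have h2 : ∀ y ∈ hBf.toFinset, ({z | update y v z ∈ EX G σ A S v X}.ncard : ℝ) ≤
      C * X v ^ (d * (n v - r)) := by
    intro y hy
    rw [Set.Finite.mem_toFinset] at hy
    refine le_trans ?_ (hcnt S v hv y hy.2 (X v) (hX v))
    rw [Nat.cast_le]
    refine Set.ncard_le_ncard ?_ (((latP K (n v)).2.1 (X v)).subset fun z hz => hz.1)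
    rintro z ⟨h3, h4, h5⟩
    have h6 := h3 v
    rw [update_self] at h6
    exact ⟨h6, h5⟩
  have h3 : (hBf.toFinset.card : ℝ) ≤ ∏ u, if u ∈ ({v} : Finset V) then 1 else
      (6 * X u) ^ (d * n u) := by
    rw [← Set.ncard_eq_toFinset_card _ hBf]
    refine le_trans ?_ (box_card n {v} X hX)
    have : {y : Tup n (𝓞 K) | ((∀ u ∈ ({v} : Finset V), y u = 0) ∧ ∀ u, ‖io (y u)‖ ≤ X u) ∧
        ¬ BS (Gs σ G) (cA A) S (xs σ y)} ⊆
        {y : Tup n (𝓞 K) | (∀ u ∈ ({v} : Finset V), y u = 0) ∧ ∀ u, ‖io (y u)‖ ≤ X u} :=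
      fun y hy => hy.1
    exact_mod_cast Set.ncard_le_ncard this ((box_finite X).subset fun y hy => hy.2)
  have h4 : (∏ u, if u ∈ ({v} : Finset V) then 1 else (6 * X u) ^ (d * n u)) *
      X v ^ (d * n v) ≤ 6 ^ (∑ t, d * n t) * ∏ t, X t ^ (d * n t) := by
    rw [← Finset.prod_pow_eq_pow_sum, ← Finset.prod_mul_distrib,
      ← Finset.mul_prod_erase Finset.univ _ (Finset.mem_univ v),
      if_pos (Finset.mem_singleton_self v), one_mul,
      ← Finset.mul_prod_erase Finset.univ (fun t => (6 : ℝ) ^ (d * n t) * X t ^ (d * n t))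
        (Finset.mem_univ v)]
    have e1 : (1 : ℝ) ≤ 6 ^ (d * n v) := one_le_pow₀ (by norm_num)
    have e2 : ∏ x ∈ Finset.univ.erase v, (if x ∈ ({v} : Finset V) then (1 : ℝ) else
        (6 * X x) ^ (d * n x)) = ∏ t ∈ Finset.univ.erase v, (6 : ℝ) ^ (d * n t) *
          X t ^ (d * n t) := by
      refine Finset.prod_congr rfl fun t ht => ?_
      rw [if_neg (fun h => Finset.ne_of_mem_erase ht (Finset.mem_singleton.1 h)), mul_pow]
    rw [e2, mul_comm]
    have e3 : 0 ≤ ∏ t ∈ Finset.univ.erase v, (6 : ℝ) ^ (d * n t) * X t ^ (d * n t) :=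
      Finset.prod_nonneg fun t _ => by
        have := hX0 t
        positivity
    have e4 := hX0 v
    refine mul_le_mul_of_nonneg_right ?_ e3
    nlinarith [pow_pos e4 (d * n v)]
  have h5 : X v ^ (d * (n v - r)) * X v ^ (d * r) = X v ^ (d * n v) := by
    rw [← pow_add, ← mul_add, Nat.sub_add_cancel (hn v)]
  have hXv := hX0 v
  rw [h1]
  push_cast
  calc (∑ y ∈ hBf.toFinset, ({z | update y v z ∈ EX G σ A S v X}.ncard : ℝ)) * X v ^ (d * r)
      ≤ (∑ y ∈ hBf.toFinset, C * X v ^ (d * (n v - r))) * X v ^ (d * r) :=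
        mul_le_mul_of_nonneg_right (Finset.sum_le_sum h2) (by positivity)
    _ = C * (hBf.toFinset.card * (X v ^ (d * (n v - r)) * X v ^ (d * r))) := by
        rw [Finset.sum_const, nsmul_eq_mul]
        ring
    _ = C * (hBf.toFinset.card * X v ^ (d * n v)) := by rw [h5]
    _ ≤ C * ((∏ u, if u ∈ ({v} : Finset V) then 1 else (6 * X u) ^ (d * n u)) *
          X v ^ (d * n v)) := by gcongr
    _ ≤ C * (6 ^ (∑ t, d * n t) * ∏ t, X t ^ (d * n t)) :=
        mul_le_mul_of_nonneg_left h4 hC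
    _ = _ := by ring

theorem sum_dg (G : Sy n k (𝓞 K)) : ∑ v, dg G v = ∑ i, (G.e i).card := by
  have h1 : ∀ v, dg G v = ∑ i, if v ∈ G.e i then 1 else 0 := by
    intro v
    unfold dg
    rw [Fintype.card_subtype, Finset.card_filter]
  have h2 : ∀ i, (G.e i).card = ∑ v, if v ∈ G.e i then 1 else 0 := by
    intro i
    rw [Finset.card_eq_sum_ones, ← Finset.sum_filter, Finset.filter_mem_eq_inter,
      Finset.univ_inter]
  simp only [h1, h2]
  exact Finset.sum_comm

/-- The product of the powers. -/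
theorem prod_le {D d : ℕ} (hdg : ∀ v, dg G v ≤ n v)
    (hD : D = ∑ i, (G.e i).card) {v : V} {X : V → ℝ} {g : ℝ} (hX : ∀ u, 1 ≤ X u)
    (hXg : ∀ u, X u ≤ g * X v) : ∏ t, X t ^ (d * n t) ≤
      Nm (fun v => d * (n v - dg G v)) X * (g ^ (d * D) * X v ^ (d * D)) := by
  have hX0 : ∀ u, 0 < X u := fun u => by linarith [hX u]
  have h1 : ∏ t, X t ^ (d * n t) = Nm (fun v => d * (n v - dg G v)) X *
      ∏ t, X t ^ (d * dg G t) := by
    unfold Nm
    rw [← Finset.prod_mul_distrib]
    refine Finset.prod_congr rfl fun t _ => ?_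
    rw [← pow_add, ← mul_add, Nat.sub_add_cancel (hdg t)]
  have h2 : ∏ t, X t ^ (d * dg G t) ≤ g ^ (d * D) * X v ^ (d * D) := by
    calc ∏ t, X t ^ (d * dg G t) ≤ ∏ t, (g * X v) ^ (d * dg G t) :=
          Finset.prod_le_prod (fun t _ => pow_nonneg (hX0 t).le _) fun t _ =>
            pow_le_pow_left₀ (hX0 t).le (hXg t) _
      _ = (g * X v) ^ (d * D) := by
          rw [Finset.prod_pow_eq_pow_sum, ← Finset.mul_sum, sum_dg, hD]
      _ = _ := mul_pow _ _ _
  rw [h1]
  exact mul_le_mul_of_nonneg_left h2 (Nm_pos hX0).le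

/-! ### The engine -/

/-- The solutions in a box which are good for one vector. -/
def TG (G : Sy n k (𝓞 K)) (σ : K →+* ℂ) (A : ∀ v, Fin r → Fin (n v) → ℤ) (v : V)
    (X : V → ℝ) : Set (Tup n (𝓞 K)) :=
  {x | (∀ u, ‖io (x u)‖ ≤ X u) ∧ Inc G x ∧ GS G σ A v x}

/-- The good solutions in a box. -/
def UG (G : Sy n k (𝓞 K)) (σ : K →+* ℂ) (A : ∀ v, Fin r → Fin (n v) → ℤ) (X : V → ℝ) :
    Set (Tup n (𝓞 K)) :=
  {x | (∀ u, ‖io (x u)‖ ≤ X u) ∧ Inc G x ∧ ∀ v, GS G σ A v x}

theorem TG_finite (v : V) (X : V → ℝ) : (TG G σ A v X).Finite :=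
  (box_finite X).subset fun _ h => h.1

theorem UG_finite (X : V → ℝ) : (UG G σ A X).Finite :=
  (box_finite X).subset fun _ h => h.1

/-- The lattice of solutions of linear equations. -/
def La {ι : Type} {N : ℕ} (w : ι → Fin N → 𝓞 K) : AddSubgroup (Fin N → 𝓞 K) where
  carrier := {b | ∀ i, w i ⬝ᵥ b = 0}
  zero_mem' := by
    intro i
    exact dotProduct_zero _
  add_mem' := by
    intro x y hx hy i
    rw [dotProduct_add, hx i, hy i, add_zero]
  neg_mem' := by
    intro x hx i
    rw [dotProduct_neg, hx i, neg_zero]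

theorem io_mem_WW {ι : Type} {N : ℕ} (w : ι → Fin N → 𝓞 K) (b : Fin N → 𝓞 K)
    (h : b ∈ La w) : io b ∈ WW w := by
  intro i
  have h0 : ∑ l, w i l * b l = 0 := h i
  have h1 : algebraMap (𝓞 K) K (∑ l, w i l * b l) = 0 := by
    rw [h0, map_zero]
  have h2 : mixedEmbedding K (algebraMap (𝓞 K) K (∑ l, w i l * b l)) = 0 := by rw [h1, map_zero]
  rw [← h2]
  unfold io N852.GR.em co
  rw [map_sum (algebraMap (𝓞 K) K), map_sum]
  refine Finset.sum_congr rfl fun j _ => ?_
  rw [map_mul, map_mul, mul_comm]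

theorem TG_pack (v : V) (X : V → ℝ) (ρ : ℝ) (hρ : 1 ≤ ρ)
    (hX : ρ ≤ X v) : ((TG G σ A v X).ncard : ℝ) ≤
      (3 * X v / ρ) ^ (finrank ℚ K * (n v - dg G v)) *
        ((TG G σ A v (update X v ρ)).ncard : ℝ) := by
  have hf : {y : Tup n (𝓞 K) | y v = 0 ∧ (∀ u, u ≠ v → ‖io (y u)‖ ≤ X u) ∧ IncN G v y ∧
      GS G σ A v y}.Finite := by
    refine (box_finite (update X v 0)).subset ?_
    rintro y ⟨h1, h2, -⟩ u
    by_cases hu : u = v
    · subst hu
      rw [update_self, h1, io_zero, norm_zero]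
    · rw [update_of_ne hu]
      exact h2 u hu
  have hG : ∀ Y : V → ℝ, (∀ u, u ≠ v → Y u = X u) → ∀ x ∈ TG G σ A v Y,
      update x v 0 ∈ hf.toFinset := by
    rintro Y hY x ⟨h1, h0, h2⟩
    rw [Set.Finite.mem_toFinset]
    refine ⟨update_self _ _ _, fun u hu => ?_, ?_, (GS_update v x 0).2 h2⟩
    · rw [update_of_ne hu, ← hY u hu]
      exact h1 u
    · rw [incN_update]
      exact ((inc_iff v x).1 h0).1
  have h0 : ∀ y ∈ hf.toFinset, y v = 0 := fun y hy => ((Set.Finite.mem_toFinset hf).1 hy).1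
  rw [ncard_fibre v (TG G σ A v X) (TG_finite v X) hf.toFinset (hG X fun _ _ => rfl) h0,
    ncard_fibre v (TG G σ A v (update X v ρ)) (TG_finite v _) hf.toFinset
      (hG _ fun u hu => update_of_ne hu _ _) h0]
  push_cast
  rw [Finset.mul_sum]
  refine Finset.sum_le_sum fun y hy => ?_
  obtain ⟨hy1, hy2, hy3, hy4⟩ := (Set.Finite.mem_toFinset hf).1 hy
  have hS : ∀ Y : V → ℝ, (∀ u, u ≠ v → Y u = X u) → {z | update y v z ∈ TG G σ A v Y} =
      {z | z ∈ La (der G v y) ∧ ‖io z‖ ≤ Y v} := by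
    intro Y hY
    ext z
    constructor
    · rintro ⟨h1, h2, -⟩
      have h3 := h1 v
      rw [update_self] at h3
      exact ⟨((inc_update_iff v y z).1 h2).2, h3⟩
    · rintro ⟨h1, h2⟩
      refine ⟨fun u => ?_, (inc_update_iff v y z).2 ⟨hy3, h1⟩, (GS_update v y z).2 hy4⟩
      by_cases hu : u = v
      · subst hu
        rw [update_self]
        exact h2
      · rw [update_of_ne hu, hY u hu]
        exact hy2 u hu
  rw [hS X fun _ _ => rfl, hS (update X v ρ) fun u hu => update_of_ne hu _ _, update_self]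
  have h1 := (latP K (n v)).2.2 (La (der G v y)) (WW (der G v y)) (fun x hx => io_mem_WW _ x hx)
    (X v) ρ (by linarith) hX
  have h2 : rk (der G v y) = dg G v := by
    unfold rk dg
    exact finrank_span_eq_card hy4.1
  rw [dimP K (n v) (Wi G v) (der G v y), h2] at h1
  exact h1

/-- **The engine.** -/
theorem eng (G : Sy n k (𝓞 K)) (σ : K →+* ℂ) {D : ℕ}
    (A : ∀ v, Fin (D + 1) → Fin (n v) → ℤ) (hD : D = ∑ i, (G.e i).card)
    (hn : ∀ v, D + 1 ≤ n v) (hdg : ∀ v, dg G v ≤ n v) :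
    ∃ (D' e : ℕ) (C : ℝ), It (fun X => ((UG G σ A X).ncard : ℝ))
      (fun v X => ((TG G σ A v X).ncard : ℝ))
      (fun v => finrank ℚ K * (n v - dg G v)) D' e C := by
  set d := finrank ℚ K with hd
  have hd1 : 1 ≤ d := Module.finrank_pos
  obtain ⟨C₀, hC₀, hEX⟩ := card_EX G σ A (Nat.succ_pos D) hn
  set Cb : ℝ := (Fintype.card (Finset V) : ℝ) * C₀ with hCb
  have hCb0 : 0 ≤ Cb := by positivity
  set C : ℝ := 6 ^ (∑ t, d * n t) + Cb with hC
  have h61 : (1 : ℝ) ≤ 6 ^ (∑ t, d * n t) := one_le_pow₀ (by norm_num)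
  refine ⟨d * D, ∑ t, d * n t, C, ?_, ?_, ?_, ?_, ?_, ?_⟩
  · linarith
  · exact fun X => Nat.cast_nonneg _
  · intro v X
    have : UG G σ A X ⊆ TG G σ A v X := fun x hx => ⟨hx.1, hx.2.1, hx.2.2 v⟩
    exact_mod_cast Set.ncard_le_ncard this (TG_finite v X)
  · intro v X ρ hX hρ hρX
    refine (TG_pack v X ρ hρ hρX).trans ?_
    refine mul_le_mul_of_nonneg_right ?_ (Nat.cast_nonneg _)
    rw [mul_div_assoc, mul_pow]
    have h0 : 0 ≤ X v / ρ := by
      have := hX v
      positivity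
    refine mul_le_mul_of_nonneg_right ?_ (by positivity)
    calc (3 : ℝ) ^ (d * (n v - dg G v)) ≤ 6 ^ (d * (n v - dg G v)) :=
          pow_le_pow_left₀ (by norm_num) (by norm_num) _
      _ ≤ 6 ^ (∑ t, d * n t) := by
          refine pow_le_pow_right₀ (by norm_num) ?_
          refine (Nat.mul_le_mul_left d (Nat.sub_le _ _)).trans ?_
          exact Finset.single_le_sum (f := fun t => d * n t) (fun _ _ => Nat.zero_le _)
            (Finset.mem_univ v)
      _ ≤ C := by rw [hC]; linarith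
  · intro v X g hX hg hgX
    have hX0 : ∀ u, 0 < X u := fun u => by linarith [hX u]
    have hXv := hX0 v
    have hN := Nm_pos (a := fun v => d * (n v - dg G v)) hX0
    have hsub : TG G σ A v X ⊆ UG G σ A X ∪
        ⋃ S ∈ (Finset.univ.filter fun S : Finset V => v ∉ S), EX G σ A S v X := by
      intro x hx
      obtain ⟨h3, h4, h5⟩ := hx
      by_cases h : ∀ u, GS G σ A u x
      · exact Or.inl ⟨h3, h4, h⟩
      · push Not at h
        obtain ⟨u, hu⟩ := h
        obtain ⟨S, _, hS⟩ := bad_of (Nat.succ_pos D) h4 hu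
        have hvS : v ∈ S := by
          by_contra hc
          exact h5.2 S hc hS
        refine Or.inr ?_
        simp only [Set.mem_iUnion]
        refine ⟨S.erase v, Finset.mem_filter.2 ⟨Finset.mem_univ _, Finset.notMem_erase _ _⟩,
          h3, h5.2 _ (Finset.notMem_erase _ _), ?_⟩
        rw [Finset.insert_erase hvS]
        exact hS
    have hbf : (⋃ S ∈ (Finset.univ.filter fun S : Finset V => v ∉ S), EX G σ A S v X).Finite :=
      Set.Finite.biUnion (Finset.finite_toSet _) fun S _ => EX_finite S v X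
    have h1 : (TG G σ A v X).ncard ≤ (UG G σ A X).ncard +
        ∑ S ∈ Finset.univ.filter (fun S : Finset V => v ∉ S), (EX G σ A S v X).ncard := by
      refine (Set.ncard_le_ncard hsub ((UG_finite X).union hbf)).trans ?_
      refine (Set.ncard_union_le _ _).trans ?_
      refine Nat.add_le_add_left ?_ _
      exact Finset.set_ncard_biUnion_le _ _
    have h2 : ∀ S ∈ Finset.univ.filter (fun S : Finset V => v ∉ S),
        ((EX G σ A S v X).ncard : ℝ) ≤
        C₀ * (Nm (fun v => d * (n v - dg G v)) X * (g ^ (d * D) / X v)) := by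
      intro S hS
      have hvS := (Finset.mem_filter.1 hS).2
      have h3 := hEX S v hvS X hX
      have h4 := prod_le (d := d) hdg hD hX hgX
      have h5 : ((EX G σ A S v X).ncard : ℝ) * X v ^ (d * (D + 1)) ≤
          C₀ * (Nm (fun v => d * (n v - dg G v)) X * (g ^ (d * D) * X v ^ (d * D))) :=
        h3.trans (mul_le_mul_of_nonneg_left h4 hC₀)
      have h6 : X v ^ (d * (D + 1)) = X v ^ (d * D) * X v ^ d := by
        rw [← pow_add]
        congr 1
      have h7 : X v ≤ X v ^ d := le_self_pow₀ (hX v) (by omega)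
      have h8 : 0 < X v ^ (d * D) := by positivity
      rw [mul_div_assoc', mul_div_assoc', le_div_iff₀ hXv]
      refine le_of_mul_le_mul_right ?_ h8
      calc ((EX G σ A S v X).ncard : ℝ) * X v * X v ^ (d * D)
          ≤ ((EX G σ A S v X).ncard : ℝ) * X v ^ d * X v ^ (d * D) := by gcongr
        _ = ((EX G σ A S v X).ncard : ℝ) * X v ^ (d * (D + 1)) := by rw [h6]; ring
        _ ≤ _ := h5
        _ = _ := by ring
    have hpos : 0 ≤ Nm (fun v => d * (n v - dg G v)) X * (g ^ (d * D) / X v) := by positivity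
    have h3 : ∑ S ∈ Finset.univ.filter (fun S : Finset V => v ∉ S),
        ((EX G σ A S v X).ncard : ℝ) ≤
        Cb * (Nm (fun v => d * (n v - dg G v)) X * (g ^ (d * D) / X v)) := by
      refine (Finset.sum_le_sum h2).trans ?_
      rw [Finset.sum_const, nsmul_eq_mul, hCb, mul_assoc]
      refine mul_le_mul_of_nonneg_right ?_ (by positivity)
      exact_mod_cast Finset.card_le_univ _
    have h4 : ((TG G σ A v X).ncard : ℝ) ≤ (UG G σ A X).ncard +
        ∑ S ∈ Finset.univ.filter (fun S : Finset V => v ∉ S),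
          ((EX G σ A S v X).ncard : ℝ) := by exact_mod_cast h1
    have h5 : Cb * (Nm (fun v => d * (n v - dg G v)) X * (g ^ (d * D) / X v)) ≤
        C * (Nm (fun v => d * (n v - dg G v)) X * (g ^ (d * D) / X v)) := by
      refine mul_le_mul_of_nonneg_right ?_ hpos
      rw [hC]
      linarith
    rw [mul_assoc]
    linarith
  · intro M X hM hX hXM
    have h1 := box_card (F := K) n ∅ X hX
    have h2 : ((UG G σ A X).ncard : ℝ) ≤
        ({y : Tup n (𝓞 K) | (∀ u ∈ (∅ : Finset V), y u = 0) ∧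
          ∀ u, ‖io (y u)‖ ≤ X u}.ncard : ℝ) := by
      have : UG G σ A X ⊆ {y : Tup n (𝓞 K) | (∀ u ∈ (∅ : Finset V), y u = 0) ∧
          ∀ u, ‖io (y u)‖ ≤ X u} := fun x hx => ⟨by simp, hx.1⟩
      exact_mod_cast Set.ncard_le_ncard this ((box_finite X).subset fun y hy => hy.2)
    refine h2.trans (h1.trans ?_)
    calc ∏ u, (if u ∈ (∅ : Finset V) then 1 else (6 * X u) ^ (d * n u))
        = ∏ u, (6 * X u) ^ (d * n u) := by
          refine Finset.prod_congr rfl fun u _ => ?_
          rw [if_neg (Finset.notMem_empty u)]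
      _ ≤ ∏ u, (6 * M) ^ (d * n u) := by
          refine Finset.prod_le_prod (fun u _ => ?_) fun u _ => ?_
          · have := hX u
            positivity
          · have := hX u
            have := hXM u
            gcongr
      _ = 6 ^ (∑ t, d * n t) * M ^ (∑ t, d * n t) := by
          rw [Finset.prod_pow_eq_pow_sum, mul_pow]
      _ ≤ C * M ^ (∑ t, d * n t) := by
          refine mul_le_mul_of_nonneg_right ?_ (by positivity)
          rw [hC]
          linarith

end Pool.Agent.L5helper6.SM
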