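import Pool.Agent.L5helper6.SM.Low

/-!
The existence of good integral solutions over a number field.
-/

namespace Pool.Agent.L5helper6.SM

open scoped Classical
open NumberField Module Function Matrix
open Pool.Agent Pool.Agent.N852.GR
open Pool.Agent.N852.MM (Tup)
open Pool.Agent.L5helper6.BF (Nm Nm_pos It ncard_fibre box_finite box_card io_zero)

set_option linter.unusedSectionVars false

variable {K : Type} [Field K] [NumberField K]
variable {V : Type} [Fintype V] [DecidableEq V] {n : V → ℕ} {k r : ℕ}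

/-- The families in a box which are in the bad locus of index `S`. -/
def BX (G : Sy n k (𝓞 K)) (σ : K →+* ℂ) (A : ∀ v, Fin r → Fin (n v) → ℤ) (S : Finset V)
    (X : ℝ) : Set (Tup n (𝓞 K)) :=
  {x | (∀ u, ‖io (x u)‖ ≤ X) ∧ BS (Gs σ G) (cA A) S (xs σ x)}

theorem BX_finite {G : Sy n k (𝓞 K)} {σ : K →+* ℂ} {A : ∀ v, Fin r → Fin (n v) → ℤ}
    (S : Finset V) (X : ℝ) : (BX G σ A S X).Finite :=
  (box_finite fun _ => X).subset fun _ h => h.1

theorem card_BX (G : Sy n k (𝓞 K)) (σ : K →+* ℂ) (A : ∀ v, Fin r → Fin (n v) → ℤ) (hr : 1 ≤ r)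
    (hn : ∀ v, r ≤ n v) (hne : ∀ x, ¬ BS (Gs σ G) (cA A) ∅ x) (S : Finset V) :
    ∃ C : ℝ, 0 ≤ C ∧ ∀ X : ℝ, 1 ≤ X →
      ((BX G σ A S X).ncard : ℝ) * X ^ (finrank ℚ K * r) ≤ C * X ^ (finrank ℚ K * ∑ t, n t) := by
  obtain ⟨C, hC, hcnt⟩ := card_EX G σ A hr hn
  set d := finrank ℚ K with hd
  induction S using Finset.induction_on with
  | empty =>
    refine ⟨0, le_rfl, fun X _ => ?_⟩
    have : BX G σ A ∅ X = ∅ := by
      ext x
      constructor
      · rintro ⟨_, h⟩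
        exact hne _ h
      · exact fun h => absurd h (Set.notMem_empty x)
    rw [this]
    simp
  | insert v S hvS ih =>
    obtain ⟨C₂, hC₂, hih⟩ := ih
    refine ⟨C₂ + C, by positivity, fun X hX => ?_⟩
    have hX0 : 0 ≤ X := by linarith
    have h3 : BX G σ A (insert v S) X ⊆ BX G σ A S X ∪ EX G σ A S v fun _ => X := by
      rintro x ⟨h4, h5⟩
      by_cases hc : BS (Gs σ G) (cA A) S (xs σ x)
      · exact Or.inl ⟨h4, hc⟩
      · exact Or.inr ⟨h4, hc, h5⟩
    have h4 : ((BX G σ A (insert v S) X).ncard : ℝ) ≤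
        ((BX G σ A S X).ncard : ℝ) + ((EX G σ A S v fun _ => X).ncard : ℝ) := by
      exact_mod_cast (Set.ncard_le_ncard h3 ((BX_finite S X).union (EX_finite S v _))).trans
        (Set.ncard_union_le _ _)
    have h5 := hcnt S v hvS (fun _ => X) fun _ => hX
    rw [Finset.prod_pow_eq_pow_sum, ← Finset.mul_sum] at h5
    calc ((BX G σ A (insert v S) X).ncard : ℝ) * X ^ (d * r)
        ≤ (((BX G σ A S X).ncard : ℝ) + ((EX G σ A S v fun _ => X).ncard : ℝ)) *
          X ^ (d * r) := by gcongr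
      _ = ((BX G σ A S X).ncard : ℝ) * X ^ (d * r) +
          ((EX G σ A S v fun _ => X).ncard : ℝ) * X ^ (d * r) := by ring
      _ ≤ C₂ * X ^ (d * ∑ t, n t) + C * X ^ (d * ∑ t, n t) := add_le_add (hih X hX) h5
      _ = _ := by ring

/-- **The existence of good solutions.** -/
theorem exists_good (G : Sy n k (𝓞 K)) (σ : K →+* ℂ) {D : ℕ}
    (A : ∀ v, Fin (D + 1) → Fin (n v) → ℤ) (hD : D = ∑ i, (G.e i).card)
    (hn : ∀ v, D + 1 ≤ n v) (h2 : ∀ i, 2 ≤ (G.e i).card)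
    (hne : ∀ x, ¬ BS (Gs σ G) (cA A) ∅ x) :
    ∃ x : Tup n (𝓞 K), Inc G x ∧ ∀ v, GS G σ A v x := by
  by_contra hno
  push Not at hno
  have hd1 : 1 ≤ finrank ℚ K := Module.finrank_pos
  obtain ⟨c, C₁, hc, hC₁, hpig⟩ := pigeon G h2
  choose C₂ hC₂ hbad using card_BX G σ A (Nat.succ_pos D) hn hne
  set d := finrank ℚ K with hd
  set C₃ : ℝ := ∑ S, C₂ S with hC₃
  have hC₃0 : 0 ≤ C₃ := Finset.sum_nonneg fun S _ => hC₂ S
  set X : ℝ := 1 + C₁ * C₃ / c with hXd
  have hX : 1 ≤ X := by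
    have : 0 ≤ C₁ * C₃ / c := by positivity
    linarith
  have hX0 : 0 < X := by linarith
  set Sol := SA G X Finset.univ with hSol
  have hcov : Sol ⊆ ⋃ S ∈ (Finset.univ : Finset (Finset V)), BX G σ A S X := by
    rintro x ⟨h3, _, h4⟩
    have h5 : Inc G x := fun i => h4 i (Finset.subset_univ _)
    obtain ⟨u, hu⟩ := hno x h5
    obtain ⟨S, _, hS⟩ := bad_of (Nat.succ_pos D) h5 hu
    simp only [Set.mem_iUnion]
    exact ⟨S, Finset.mem_univ _, fun t => h3 t (Finset.mem_univ _), hS⟩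
  have hfin : (⋃ S ∈ (Finset.univ : Finset (Finset V)), BX G σ A S X).Finite :=
    Set.Finite.biUnion (Finset.finite_toSet _) fun S _ => BX_finite S X
  have hcard : (Sol.ncard : ℝ) ≤ ∑ S : Finset V, ((BX G σ A S X).ncard : ℝ) := by
    exact_mod_cast (Set.ncard_le_ncard hcov hfin).trans (Finset.set_ncard_biUnion_le _ _)
  have h3 : (Sol.ncard : ℝ) * X ^ (d * (D + 1)) ≤ C₃ * X ^ (d * ∑ t, n t) := by
    calc (Sol.ncard : ℝ) * X ^ (d * (D + 1))
        ≤ (∑ S : Finset V, ((BX G σ A S X).ncard : ℝ)) * X ^ (d * (D + 1)) := by gcongr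
      _ = ∑ S : Finset V, ((BX G σ A S X).ncard : ℝ) * X ^ (d * (D + 1)) := by
          rw [Finset.sum_mul]
      _ ≤ ∑ S : Finset V, C₂ S * X ^ (d * ∑ t, n t) :=
          Finset.sum_le_sum fun S _ => hbad S X hX
      _ = _ := by rw [← Finset.sum_mul]
  have h4 := hpig X hX
  rw [← hD] at h4
  set NN := d * ∑ t, n t with hNN
  have h5 : (c * X ^ d) * X ^ NN ≤ (C₁ * C₃) * X ^ NN := by
    calc (c * X ^ d) * X ^ NN = (c * X ^ NN) * X ^ d := by ring
      _ ≤ (C₁ * X ^ (d * D) * (Sol.ncard : ℝ)) * X ^ d := by gcongr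
      _ = C₁ * ((Sol.ncard : ℝ) * X ^ (d * (D + 1))) := by
          rw [mul_add, mul_one, pow_add]
          ring
      _ ≤ C₁ * (C₃ * X ^ NN) := by gcongr
      _ = _ := by ring
  have h6 : c * X ^ d ≤ C₁ * C₃ := le_of_mul_le_mul_right h5 (by positivity)
  have h7 : X ≤ X ^ d := le_self_pow₀ hX (by omega)
  have h8 : c * X ≤ C₁ * C₃ := by
    have : c * X ≤ c * X ^ d := by gcongr
    linarith
  have h9 : c * X = c + C₁ * C₃ := by
    rw [hXd]
    field_simp
  linarith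

end Pool.Agent.L5helper6.SM
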