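import Pool.Agent.L5helper6.SM.Jac
import Pool.Agent.N852.EL.SepUp
import Pool.Agent.N31.EL.SepLow

/-!
There are complex linear subspaces without bad points, for complex coefficients (after
`Pool.Agent.N196.EL`).
-/

namespace Pool.Agent.L5helper6.SM

set_option linter.unusedSectionVars false

open Matrix Module Filter Topology Function MvPolynomial
open Pool.Agent.N852.MM (Tup)
open Pool.Agent.N852.EL (lc gr sepUpP)

section

variable {V : Type} [DecidableEq V] {n : V → ℕ} {k : ℕ}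

/-- The extension by zero. -/
def hat (u : V) (x : ∀ t : {v : V // v ≠ u}, Fin (n t.1) → ℂ) : Tup n ℂ :=
  fun v => if h : v = u then 0 else x ⟨v, h⟩

theorem zu_update (F : Sy n k ℂ) (u : V) (x : Tup n ℂ) (z : Fin (n u) → ℂ) (s : Wi F u → ℂ) :
    Zu F u (update x u z) s ↔ Zu F u x s := by
  unfold Zu
  rw [incN_update, der_update]

theorem hat_eq (u : V) (x : Tup n ℂ) : hat u (fun t => x t.1) = update x u 0 := by
  funext v
  unfold hat
  by_cases h : v = u
  · subst h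
    rw [dif_pos rfl, update_self]
  · rw [dif_neg h, update_of_ne h]

/-- The points of the bad locus. -/
def Wu (F : Sy n k ℂ) (u : V) : Set (∀ t : {v : V // v ≠ u}, Fin (n t.1) → ℂ) :=
  {x | (∀ t, x t ≠ 0) ∧ ∃ s : Wi F u → ℂ, s ≠ 0 ∧ Zu F u (hat u x) s}

theorem Wu_smul {F : Sy n k ℂ} {u : V} {x : ∀ t : {v : V // v ≠ u}, Fin (n t.1) → ℂ}
    (hx : x ∈ Wu F u) (a : {v : V // v ≠ u} → ℂ) (ha : ∀ t, a t ≠ 0) :
    (fun t => a t • x t) ∈ Wu F u := by
  obtain ⟨h1, s, hs, h2, h3⟩ := hx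
  set c : V → ℂ := fun v => if h : v = u then 1 else a ⟨v, h⟩ with hc
  have hc0 : ∀ v, c v ≠ 0 := by
    intro v
    rw [hc]
    by_cases h : v = u
    · simp only [dif_pos h]
      exact one_ne_zero
    · simp only [dif_neg h]
      exact ha _
  have he : hat u (fun t => a t • x t) = fun v => c v • hat u x v := by
    funext v
    unfold hat
    rw [hc]
    by_cases h : v = u
    · simp only [dif_pos h, smul_zero]
    · simp only [dif_neg h]
  refine ⟨fun t => smul_ne_zero (ha t) (h1 t),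
    fun i => s i * (∏ w ∈ (F.e i.1).erase u, c w)⁻¹, ?_, ?_, ?_⟩
  · intro h
    apply hs
    funext i
    have h4 := congrFun h i
    have h5 : (∏ w ∈ (F.e i.1).erase u, c w)⁻¹ ≠ 0 :=
      inv_ne_zero (Finset.prod_ne_zero_iff.2 fun w _ => hc0 w)
    exact (mul_eq_zero.1 h4).resolve_right h5
  · rw [he]
    intro i hi
    rw [ev_smul, h2 i hi, mul_zero]
  · intro l
    rw [he, ← h3 l]
    refine Finset.sum_congr rfl fun i _ => ?_
    have h4 : der F u (fun v => c v • hat u x v) i =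
        (∏ w ∈ (F.e i.1).erase u, c w) • der F u (hat u x) i := dd_smul i.1 i.2 c (hat u x)
    have h5 : (∏ w ∈ (F.e i.1).erase u, c w) ≠ 0 :=
      Finset.prod_ne_zero_iff.2 fun w _ => hc0 w
    rw [h4, Pi.smul_apply, smul_eq_mul]
    field_simp

theorem lc_first {r m : ℕ} (A : Fin r → Fin m → ℂ) (z : Fin r → ℂ) (j : Fin r)
    (h : (j : ℕ) < m) : lc A z ⟨j, h⟩ = z j := by
  unfold lc gr
  rw [Finset.sum_eq_single j]
  · simp
  · intro j' _ hj
    have h1 : ¬ ((j : ℕ) = (j' : ℕ)) := fun h' => hj (Fin.ext h'.symm)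
    simp [h1]
  · intro h'
    exact absurd (Finset.mem_univ _) h'

theorem lc_ne {r m : ℕ} (hrm : r ≤ m) (A : Fin r → Fin m → ℂ) {z : Fin r → ℂ} (hz : z ≠ 0) :
    lc A z ≠ 0 := by
  intro h
  apply hz
  funext j
  rw [← lc_first A z j (lt_of_lt_of_le j.2 hrm), h]
  rfl

/-- If the bad locus is never empty, its set of points meets all linear subspaces. -/
theorem Wu_meets {F : Sy n k ℂ} {u : V} {r : ℕ} (hr : ∀ v, r ≤ n v)
    (hno : ∀ A : ∀ v, Fin r → Fin (n v) → ℂ, ∃ x, Bu F A u ∅ x)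
    (A : ∀ t : {v : V // v ≠ u}, Fin r → Fin (n t.1) → ℂ) :
    ∃ z : ∀ _ : {v : V // v ≠ u}, Fin r → ℂ, (∀ t, z t ≠ 0) ∧
      (fun t => lc (A t) (z t)) ∈ Wu F u := by
  set A' : ∀ v, Fin r → Fin (n v) → ℂ := fun v => if h : v = u then 0 else A ⟨v, h⟩ with hA'
  have e1 : ∀ t : {v : V // v ≠ u}, A' t.1 = A t := by
    intro t
    rw [hA']
    exact dif_neg t.2
  obtain ⟨x, z, s, hz, hs, h⟩ := hno A'
  rw [mx_empty] at h
  refine ⟨fun t => z t.1, fun t => hz t.1, fun t => lc_ne (hr t.1) _ (hz t.1), s, hs, ?_⟩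
  have e2 : (fun t : {v : V // v ≠ u} => lc (A t) (z t.1)) =
      fun t : {v : V // v ≠ u} => (fun v => lc (A' v) (z v) : Tup n ℂ) t.1 := by
    funext t
    show lc (A t) (z t.1) = lc (A' t.1) (z t.1)
    rw [e1 t]
  have e3 : hat u (fun t : {v : V // v ≠ u} => lc (A t) (z t.1)) =
      update (fun v => lc (A' v) (z v)) u 0 := by
    rw [e2]
    exact hat_eq u (fun v => lc (A' v) (z v) : Tup n ℂ)
  rw [e3, zu_update]
  exact h

/-! ### The grid -/

/-- The points of the grid. -/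
noncomputable def gp (M : ℕ) (p : Fin M × Fin M) : ℂ :=
  ⟨1 + (p.1 : ℝ) / M, (p.2 : ℝ) / M⟩

theorem gp_norm (M : ℕ) (p : Fin M × Fin M) : 1 ≤ ‖gp M p‖ ∧ ‖gp M p‖ ≤ 3 := by
  have hM : (0 : ℝ) < M := by
    have : 0 < M := lt_of_le_of_lt (Nat.zero_le _) p.1.2
    exact_mod_cast this
  have h1 : (0 : ℝ) ≤ (p.1 : ℝ) / M := by positivity
  have h2 : (0 : ℝ) ≤ (p.2 : ℝ) / M := by positivity
  have h3 : (p.1 : ℝ) / M ≤ 1 := by
    rw [div_le_one hM]
    exact_mod_cast p.1.2.le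
  have h4 : (p.2 : ℝ) / M ≤ 1 := by
    rw [div_le_one hM]
    exact_mod_cast p.2.2.le
  constructor
  · have h5 : |(gp M p).re| ≤ ‖gp M p‖ := Complex.abs_re_le_norm _
    have h6 : (gp M p).re = 1 + (p.1 : ℝ) / M := rfl
    rw [h6] at h5
    have h7 := le_abs_self (1 + (p.1 : ℝ) / M)
    linarith
  · have h5 := Complex.norm_le_abs_re_add_abs_im (gp M p)
    have h6 : (gp M p).re = 1 + (p.1 : ℝ) / M := rfl
    have h7 : (gp M p).im = (p.2 : ℝ) / M := rfl
    rw [h6, h7, abs_of_nonneg (by linarith), abs_of_nonneg h2] at h5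
    linarith

theorem gp_sep (M : ℕ) {p q : Fin M × Fin M} (h : p ≠ q) : 1 / (M : ℝ) ≤ ‖gp M p - gp M q‖ := by
  have hM : (0 : ℝ) < M := by
    have : 0 < M := lt_of_le_of_lt (Nat.zero_le _) p.1.2
    exact_mod_cast this
  have key : ∀ a b : Fin M, a ≠ b → 1 / (M : ℝ) ≤ |(a : ℝ) / M - (b : ℝ) / M| := by
    intro a b hab
    rw [← sub_div, abs_div, abs_of_pos hM]
    refine div_le_div_of_nonneg_right ?_ hM.le
    have h1 : ((a : ℕ) : ℤ) - ((b : ℕ) : ℤ) ≠ 0 := by
      intro h'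
      apply hab
      apply Fin.ext
      omega
    have h2 : (1 : ℤ) ≤ |((a : ℕ) : ℤ) - ((b : ℕ) : ℤ)| := Int.one_le_abs h1
    have h3 : ((1 : ℤ) : ℝ) ≤ ((|((a : ℕ) : ℤ) - ((b : ℕ) : ℤ)| : ℤ) : ℝ) := by exact_mod_cast h2
    rw [Int.cast_abs] at h3
    push_cast at h3
    exact h3
  by_cases h1 : p.1 = q.1
  · have h2 : p.2 ≠ q.2 := fun h2 => h (Prod.ext h1 h2)
    refine (key _ _ h2).trans ?_
    have h3 : (gp M p - gp M q).im = (p.2 : ℝ) / M - (q.2 : ℝ) / M := rfl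
    rw [← h3]
    exact Complex.abs_im_le_norm _
  · refine (key _ _ h1).trans ?_
    have h3 : (gp M p - gp M q).re = (p.1 : ℝ) / M - (q.1 : ℝ) / M := by
      show (1 + (p.1 : ℝ) / M) - (1 + (q.1 : ℝ) / M) = _
      ring
    rw [← h3]
    exact Complex.abs_re_le_norm _


theorem norm_reindex {ι κ : Type*} [Fintype ι] [Fintype κ] (e : κ ≃ ι) (s : ι → ℂ) :
    ‖fun j => s (e j)‖ = ‖s‖ := by
  apply le_antisymm
  · rw [pi_norm_le_iff_of_nonneg (norm_nonneg _)]
    intro j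
    exact norm_le_pi_norm s (e j)
  · rw [pi_norm_le_iff_of_nonneg (norm_nonneg _)]
    intro i
    have h := norm_le_pi_norm (fun j => s (e j)) (e.symm i)
    rwa [e.apply_symm_apply] at h

/-- The points. -/
noncomputable def py (F : Sy n k ℂ) (u : V) (x : ∀ t : {v : V // v ≠ u}, Fin (n t.1) → ℂ)
    (s : Wi F u → ℂ) (b : ℂ) : Yu F u
  | none => fun j => b * s ((Fintype.equivFin (Wi F u)).symm j)
  | some v => x v

variable {F : Sy n k ℂ} {u : V}

theorem py_some (x : ∀ t : {v : V // v ≠ u}, Fin (n t.1) → ℂ) (s : Wi F u → ℂ) (b : ℂ)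
    (v : {v : V // v ≠ u}) : py F u x s b (some v) = x v := rfl

theorem py_none (x : ∀ t : {v : V // v ≠ u}, Fin (n t.1) → ℂ) (s : Wi F u → ℂ) (b : ℂ) :
    py F u x s b none = fun j => b * s ((Fintype.equivFin (Wi F u)).symm j) := rfl

theorem norm_py_none (x : ∀ t : {v : V // v ≠ u}, Fin (n t.1) → ℂ) (s : Wi F u → ℂ) (b : ℂ) :
    ‖py F u x s b none‖ = ‖b‖ * ‖s‖ := by
  have h1 : ‖(b • (fun j => s ((Fintype.equivFin (Wi F u)).symm j)) :
      Fin (Fintype.card (Wi F u)) → ℂ)‖ = ‖b‖ * ‖s‖ := by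
    rw [norm_smul, norm_reindex (Fintype.equivFin (Wi F u)).symm s]
  exact h1

theorem xu_py (x : ∀ t : {v : V // v ≠ u}, Fin (n t.1) → ℂ) (s : Wi F u → ℂ) (b : ℂ) :
    xu F u (py F u x s b) = hat u x := rfl

theorem su_py (x : ∀ t : {v : V // v ≠ u}, Fin (n t.1) → ℂ) (s : Wi F u → ℂ) (b : ℂ)
    (i : Wi F u) : su F u (py F u x s b) i = b * s i := by
  have h1 : su F u (py F u x s b) i =
      b * s ((Fintype.equivFin (Wi F u)).symm (Fintype.equivFin (Wi F u) i)) := rfl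
  rw [h1, Equiv.symm_apply_apply]

theorem Phi_py {x : ∀ t : {v : V // v ≠ u}, Fin (n t.1) → ℂ} {s : Wi F u → ℂ}
    (h : Zu F u (hat u x) s) (b : ℂ) : Phi F u (py F u x s b) = 0 := by
  unfold Phi
  rw [xu_py]
  refine Prod.ext ?_ ?_
  · funext i
    exact h.1 i.1 i.2
  · funext l
    show ∑ i, su F u (py F u x s b) i * der F u (hat u x) i l = 0
    have h1 : ∑ i, su F u (py F u x s b) i * der F u (hat u x) i l =
        b * ∑ i, s i * der F u (hat u x) i l := by
      rw [Finset.mul_sum]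
      refine Finset.sum_congr rfl fun i _ => ?_
      rw [su_py]
      ring
    rw [h1, h.2 l, mul_zero]

theorem exists_unit {x : ∀ t : {v : V // v ≠ u}, Fin (n t.1) → ℂ} (hx : x ∈ Wu F u) :
    ∃ s : Wi F u → ℂ, ‖s‖ = 1 ∧ Zu F u (hat u x) s := by
  obtain ⟨_, s, hs, h1, h2⟩ := hx
  have hn : ‖s‖ ≠ 0 := norm_ne_zero_iff.2 hs
  refine ⟨((‖s‖⁻¹ : ℝ) : ℂ) • s, ?_, h1, fun l => ?_⟩
  · rw [norm_smul, Complex.norm_real, norm_inv, norm_norm, inv_mul_cancel₀ hn]
  · have h3 : ∑ i, (((‖s‖⁻¹ : ℝ) : ℂ) • s) i * der F u (hat u x) i l =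
        ((‖s‖⁻¹ : ℝ) : ℂ) * ∑ i, s i * der F u (hat u x) i l := by
      rw [Finset.mul_sum]
      refine Finset.sum_congr rfl fun i _ => ?_
      rw [Pi.smul_apply, smul_eq_mul]
      ring
    rw [h3, h2 l, mul_zero]

section

variable [Fintype V]

theorem dist_py_le (x x' : ∀ t : {v : V // v ≠ u}, Fin (n t.1) → ℂ) (s s' : Wi F u → ℂ)
    (b b' : ℂ) : dist x x' ≤ dist (py F u x s b) (py F u x' s' b') := by
  rw [dist_pi_le_iff dist_nonneg]
  intro t
  have h := dist_le_pi_dist (py F u x s b) (py F u x' s' b') (some t)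
  exact h

theorem dist_py_same (x : ∀ t : {v : V // v ≠ u}, Fin (n t.1) → ℂ) (s : Wi F u → ℂ)
    (b b' : ℂ) : ‖b - b'‖ * ‖s‖ ≤ dist (py F u x s b) (py F u x s b') := by
  have h := dist_le_pi_dist (py F u x s b) (py F u x s b') none
  refine le_trans (le_of_eq ?_) h
  rw [dist_eq_norm]
  have h1 : py F u x s b none - py F u x s b' none = py F u x s (b - b') none := by
    funext j
    show b * _ - b' * _ = (b - b') * _
    ring
  rw [h1, norm_py_none]

theorem finrank_fin (m : ℕ) : finrank ℝ (Fin m → ℂ) = 2 * m := by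
  rw [Module.finrank_pi_fintype, Finset.sum_const, Complex.finrank_real_complex, Finset.card_univ,
    Fintype.card_fin, smul_eq_mul, mul_comm]

theorem finrank_Yu : finrank ℝ (Yu F u) = 2 * (dg F u + ∑ t : {v : V // v ≠ u}, n t.1) := by
  rw [Module.finrank_pi_fintype, Fintype.sum_option]
  simp only [finrank_fin]
  rw [← Finset.mul_sum]
  show 2 * dg F u + 2 * ∑ t : {v : V // v ≠ u}, n t.1 = _
  ring

theorem card_not : Fintype.card {i : Fin k // u ∉ F.e i} = k - dg F u := by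
  have h := Fintype.card_subtype_compl (fun i : Fin k => u ∈ F.e i)
  rw [Fintype.card_fin] at h
  exact h

theorem dg_le : dg F u ≤ k := by
  have h := Fintype.card_subtype_le (fun i : Fin k => u ∈ F.e i)
  rw [Fintype.card_fin] at h
  exact h

theorem finrank_E' : finrank ℝ (({i : Fin k // u ∉ F.e i} → ℂ) × (Fin (n u) → ℂ)) =
    2 * ((k - dg F u) + n u) := by
  rw [Module.finrank_prod, finrank_fin, Module.finrank_pi_fintype, Finset.sum_const,
    Complex.finrank_real_complex, Finset.card_univ, card_not, smul_eq_mul]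
  ring

end


end

/-- A shell is compact. -/
theorem shell_compact (m : ℕ) (C : ℝ) : IsCompact {y : Fin m → ℂ | 1 ≤ ‖y‖ ∧ ‖y‖ ≤ C} := by
  refine IsCompact.of_isClosed_subset (isCompact_closedBall (0 : Fin m → ℂ) C) ?_ ?_
  · exact (isClosed_le continuous_const continuous_norm).inter
      (isClosed_le continuous_norm continuous_const)
  · intro y hy
    rw [mem_closedBall_zero_iff]
    exact hy.2

/-- The exponents. -/
theorem expo {V : Type} [Fintype V] [DecidableEq V] (n : V → ℕ) (D k g : ℕ) (u : V)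
    (hn : ∀ v, D + 1 ≤ n v) (hg : g ≤ k)
    (hu : (Fintype.card V - 1) * D + 2 * g ≤ n u + k) :
    2 * (g + ∑ t : {v : V // v ≠ u}, n t.1) - 2 * ((k - g) + n u) + 1 ≤
      2 * ∑ t : {v : V // v ≠ u}, (n t.1 - (D + 1) + 1) + 2 := by
  have h1 : ∑ t : {v : V // v ≠ u}, (n t.1 - (D + 1) + 1) + (Fintype.card V - 1) * D =
      ∑ t : {v : V // v ≠ u}, n t.1 := by
    have h2 : (Fintype.card V - 1) * D = ∑ _t : {v : V // v ≠ u}, D := by
      rw [Finset.sum_const, Finset.card_univ, smul_eq_mul]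
      congr 1
      have h3 := Fintype.card_subtype_compl (fun v : V => v = u)
      rw [Fintype.card_subtype_eq] at h3
      exact h3.symm
    rw [h2, ← Finset.sum_add_distrib]
    refine Finset.sum_congr rfl fun t _ => ?_
    have := hn t.1
    omega
  omega

theorem exA {V : Type} [Fintype V] [DecidableEq V]
    {n : V → ℕ} {k : ℕ} (F : Sy n k ℂ) (D : ℕ) (hSm : Sm F) (hn : ∀ v, D + 1 ≤ n v)
    (hdg : ∀ v, dg F v ≤ n v) (u : V)
    (hu : (Fintype.card V - 1) * D + 2 * dg F u ≤ n u + k) :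
    ∃ A : ∀ v, Fin (D + 1) → Fin (n v) → ℂ, ∀ x, ¬ Bu F A u ∅ x := by
  by_contra hcon
  push Not at hcon
  obtain ⟨c, C₀, hc, hC₀, hlow⟩ := Pool.Agent.N31.EL.sepLowP {v : V // v ≠ u} (fun t => n t.1) (fun _ => D + 1)
    (fun _ => Nat.succ_pos _) (fun t => hn t.1)
  have hlow' := hlow (Wu F u) (fun x hx a ha => Wu_smul hx a ha) (fun A => Wu_meets hn hcon A)
  obtain ⟨hcont, hjac⟩ := jac hSm hdg u
  set C₁ : ℝ := max C₀ 3 with hC₁
  set K : Set (Yu F u) := Set.pi Set.univ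
    fun t => {y : Fin (nu F u t) → ℂ | 1 ≤ ‖y‖ ∧ ‖y‖ ≤ C₁} with hKdef
  have hK : IsCompact K := isCompact_univ_pi fun t => shell_compact _ _
  obtain ⟨C, hCpos, hup⟩ := sepUpP (Yu F u) (({i : Fin k // u ∉ F.e i} → ℂ) × (Fin (n u) → ℂ))
    (Phi F u) K hK hcont (fun y hy h0 => hjac y (fun t => by
      have h1 : 1 ≤ ‖y t‖ := (hy t (Set.mem_univ t)).1
      intro h2
      rw [h2, norm_zero] at h1
      linarith) h0)
  rw [finrank_Yu, finrank_E'] at hup
  -- the choice of the coefficients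
  have hs : ∀ x : (∀ t : {v : V // v ≠ u}, Fin (n t.1) → ℂ), ∃ s : Wi F u → ℂ,
      x ∈ Wu F u → (‖s‖ = 1 ∧ Zu F u (hat u x) s) := by
    intro x
    by_cases hx : x ∈ Wu F u
    · obtain ⟨s, hs⟩ := exists_unit hx
      exact ⟨s, fun _ => hs⟩
    · exact ⟨0, fun h => absurd h hx⟩
  choose sx hsx using hs
  set L : ℕ := 2 * ∑ t : {v : V // v ≠ u}, (n t.1 - (D + 1) + 1) with hL
  set U : ℕ := 2 * (dg F u + ∑ t : {v : V // v ≠ u}, n t.1) - 2 * ((k - dg F u) + n u) with hU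
  have hLU : U + 1 ≤ L + 2 := expo n D k (dg F u) u hn dg_le hu
  have key : ∀ μ : ℝ, 1 ≤ μ → c * μ ^ L * (μ / 2) ^ 2 ≤ C * μ ^ U := by
    intro μ hμ
    obtain ⟨P, hP1, hP2, hP3⟩ := hlow' μ hμ
    set M : ℕ := ⌊μ⌋₊ with hM
    have hM1 : 1 ≤ M := Nat.le_floor (by simpa using hμ)
    have hM2 : (M : ℝ) ≤ μ := Nat.floor_le (by linarith)
    have hM3 : μ / 2 ≤ M := by
      have h1 : μ < M + 1 := Nat.lt_floor_add_one μ
      have h2 : (1 : ℝ) ≤ M := by exact_mod_cast hM1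
      linarith
    have hM0 : (0 : ℝ) < M := by
      have h2 : (1 : ℝ) ≤ M := by exact_mod_cast hM1
      linarith
    have hμ0 : 0 < μ := by linarith
    classical
    set Y : (∀ t : {v : V // v ≠ u}, Fin (n t.1) → ℂ) × (Fin M × Fin M) → Yu F u :=
      fun q => py F u q.1 (sx q.1) (gp M q.2) with hY
    have hsep : ∀ q ∈ P ×ˢ (Finset.univ : Finset (Fin M × Fin M)),
        ∀ q' ∈ P ×ˢ (Finset.univ : Finset (Fin M × Fin M)), q ≠ q' →
        1 / μ ≤ dist (Y q) (Y q') := by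
      intro q hq q' hq' hne
      have hq1 := (Finset.mem_product.1 hq).1
      have hq1' := (Finset.mem_product.1 hq').1
      by_cases h1 : q.1 = q'.1
      · have h2 : q.2 ≠ q'.2 := fun h2 => hne (Prod.ext h1 h2)
        have h3 := dist_py_same (F := F) (u := u) q.1 (sx q.1) (gp M q.2) (gp M q'.2)
        rw [(hsx q.1 (hP1 q.1 hq1).1).1, mul_one] at h3
        have h4 : Y q' = py F u q.1 (sx q.1) (gp M q'.2) := by
          rw [hY]
          simp only
          rw [h1]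
        rw [h4]
        refine le_trans ?_ h3
        refine le_trans ?_ (gp_sep M h2)
        exact one_div_le_one_div_of_le hM0 hM2
      · exact (hP2 q.1 hq1 q'.1 hq1' h1).trans (dist_py_le _ _ _ _ _ _)
    have hinj : Set.InjOn Y (P ×ˢ (Finset.univ : Finset (Fin M × Fin M)) :
        Finset ((∀ t : {v : V // v ≠ u}, Fin (n t.1) → ℂ) × (Fin M × Fin M))) := by
      intro q hq q' hq' h
      by_contra hne
      have h1 := hsep q hq q' hq' hne
      rw [h, dist_self] at h1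
      have h2 : 0 < 1 / μ := by positivity
      linarith
    have hup' := hup μ ((P ×ˢ (Finset.univ : Finset (Fin M × Fin M))).image Y) hμ
      (by
        intro y hy
        obtain ⟨q, hq, rfl⟩ := Finset.mem_image.1 hy
        have hq1 := (Finset.mem_product.1 hq).1
        obtain ⟨hW, hn1⟩ := hP1 q.1 hq1
        obtain ⟨hs1, hs2⟩ := hsx q.1 hW
        refine ⟨?_, Phi_py hs2 _⟩
        intro t _
        rcases t with _ | v
        · show 1 ≤ ‖py F u q.1 (sx q.1) (gp M q.2) none‖ ∧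
            ‖py F u q.1 (sx q.1) (gp M q.2) none‖ ≤ C₁
          rw [norm_py_none, hs1, mul_one]
          exact ⟨(gp_norm M q.2).1, (gp_norm M q.2).2.trans (le_max_right _ _)⟩
        · exact ⟨(hn1 v).1, (hn1 v).2.trans (le_max_left _ _)⟩)
      (by
        intro y hy y' hy' hne
        obtain ⟨q, hq, rfl⟩ := Finset.mem_image.1 hy
        obtain ⟨q', hq', rfl⟩ := Finset.mem_image.1 hy'
        exact hsep q hq q' hq' fun h => hne (by rw [h]))
    rw [Finset.card_image_of_injOn hinj, Finset.card_product, Finset.card_univ, Fintype.card_prod,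
      Fintype.card_fin] at hup'
    push_cast at hup'
    calc c * μ ^ L * (μ / 2) ^ 2 ≤ (P.card : ℝ) * ((M : ℝ) * M) := by
          have h1 : (μ / 2) ^ 2 ≤ (M : ℝ) * M := by
            rw [sq]
            exact mul_le_mul hM3 hM3 (by positivity) hM0.le
          exact mul_le_mul hP3 h1 (by positivity) (Nat.cast_nonneg _)
      _ ≤ C * μ ^ U := hup'
  have h4C : (0 : ℝ) < 4 * C / c + 1 := by positivity
  have hbig := key (4 * C / c + 1) (by
    have : 0 < 4 * C / c := by positivity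
    linarith)
  set μ : ℝ := 4 * C / c + 1 with hμdef
  have hμ1 : 1 ≤ μ := by
    have : 0 < 4 * C / c := by positivity
    linarith
  have h1 : c * μ ^ L * (μ / 2) ^ 2 = c / 4 * μ ^ (L + 2) := by
    rw [pow_add]
    ring
  rw [h1] at hbig
  have h2 : c / 4 * μ ^ (U + 1) ≤ c / 4 * μ ^ (L + 2) :=
    mul_le_mul_of_nonneg_left (pow_le_pow_right₀ hμ1 hLU) (by positivity)
  have h3 : c / 4 * μ ^ (U + 1) ≤ C * μ ^ U := h2.trans hbig
  have h5 : (c / 4 * μ) * μ ^ U ≤ C * μ ^ U := by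
    calc (c / 4 * μ) * μ ^ U = c / 4 * μ ^ (U + 1) := by ring
      _ ≤ _ := h3
  have h6 : 0 < μ ^ U := by positivity
  have h7 : c / 4 * μ ≤ C := le_of_mul_le_mul_right h5 h6
  have h8 : c / 4 * μ = C + c / 4 := by
    rw [hμdef]
    field_simp
  rw [h8] at h7
  linarith

end Pool.Agent.L5helper6.SM
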