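import Pool.Agent.L5helper6.SM.Uni
import Pool.Agent.L5helper6.SM.Gen

/-!
There are integral linear subspaces without bad points, for complex coefficients.
-/

namespace Pool.Agent.L5helper6.SM

set_option linter.unusedSectionVars false

open Matrix Module Filter Topology Function MvPolynomial
open Pool.Agent.N852.MM (Tup)
open Pool.Agent.N852.EL (lc gr ea MH Zer Mon GrL MH_grl MH_X MH_C Hr Hr_grl Hr_X Hr_C lc_grl lc_map)

variable {V : Type} [DecidableEq V] {n : V → ℕ} {k : ℕ} {r : ℕ}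

/-- The parameters: the coefficients and the matrices. -/
abbrev lam (n : V → ℕ) (e : Fin k → Finset V) (r : ℕ) : Option V → Type :=
  fun t => Option.rec (motive := fun _ => Type) (Fin (Fintype.card (Cf n e)))
    (fun v => Fin r × Fin (n v)) t

noncomputable instance lamF (n : V → ℕ) (e : Fin k → Finset V) (r : ℕ) :
    ∀ t, Fintype (lam n e r t)
  | none => inferInstanceAs (Fintype (Fin (Fintype.card (Cf n e))))
  | some v => inferInstanceAs (Fintype (Fin r × Fin (n v)))

/-- The family. -/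
noncomputable def hx {R : Type*} [CommRing R] {e : Fin k → Finset V}
    (c : Fin (Fintype.card (Cf n e)) → R) (B : ∀ v, Fin r → Fin (n v) → R)
    (z : Option V → Fin r → R) : Tup (nn n e) R :=
  fun t => Option.rec (motive := fun t => Fin (nn n e t) → R) c
    (fun v => lc (B v) (z (some v))) t

theorem hx_map {R S : Type*} [CommRing R] [CommRing S] (φ : R →+* S) {e : Fin k → Finset V}
    (c : Fin (Fintype.card (Cf n e)) → R) (B : ∀ v, Fin r → Fin (n v) → R)
    (z : Option V → Fin r → R) :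
    hx (fun l => φ (c l)) (fun v j l => φ (B v j l)) (fun t j => φ (z t j)) =
      fun t l => φ (hx c B z t l) := by
  funext t l
  rcases t with _ | v
  · rfl
  · exact lc_map φ (B v) (z (some v)) l

/-- The polynomials. -/
noncomputable def hP (n : V → ℕ) (e : Fin k → Finset V) (r : ℕ) (u : V) :
    Pool.Agent.N852.EL.Ci (US n e) (some u) →
      MvPolynomial (Σ _ : Option V, Fin r) (MvPolynomial (Σ t, lam n e r t) ℤ) :=
  Pool.Agent.N852.EL.cp (US n e) (some u)
    (hx (fun l => C (X ⟨none, l⟩)) (fun v j l => C (X ⟨some v, (j, l)⟩)) fun t j => X ⟨t, j⟩)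

theorem map_hP {e : Fin k → Finset V} (u : V) (a : (Σ t, lam n e r t) → ℂ)
    (l : Pool.Agent.N852.EL.Ci (US n e) (some u)) :
    MvPolynomial.map (ea a) (hP n e r u l) = Pool.Agent.N852.EL.cp (US n e) (some u)
      (hx (fun l => C (a ⟨none, l⟩)) (fun v j l => C (a ⟨some v, (j, l)⟩))
        fun t j => X ⟨t, j⟩) l := by
  unfold hP
  rw [← Pool.Agent.N852.EL.cp_map, ← hx_map]
  congr 1
  congr 1
  · funext l
    simp [ea]
  · funext v j l
    simp [ea]
  · funext t j
    simp

theorem eval_hC {e : Fin k → Finset V} (u : V) (c : Fin (Fintype.card (Cf n e)) → ℂ)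
    (B : ∀ v, Fin r → Fin (n v) → ℂ) (z : Option V → Fin r → ℂ)
    (l : Pool.Agent.N852.EL.Ci (US n e) (some u)) :
    eval (fun q => z q.1 q.2) (Pool.Agent.N852.EL.cp (US n e) (some u)
      (hx (fun l => C (c l)) (fun v j l => C (B v j l))
        fun t j => (X ⟨t, j⟩ : MvPolynomial (Σ _ : Option V, Fin r) ℂ)) l) =
      Pool.Agent.N852.EL.cp (US n e) (some u) (hx c B z) l := by
  rw [← Pool.Agent.N852.EL.cp_map, ← hx_map]
  congr 1
  congr 1
  · funext l
    simp
  · funext v j l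
    simp
  · funext t j
    simp

/-- The vector of the coefficients. -/
noncomputable def cfv {R : Type*} (F : Sy n k R) : Fin (Fintype.card (Cf n F.e)) → R :=
  fun l => F.T _ ((Fintype.equivFin (Cf n F.e)).symm l).2

theorem hx_jn {R : Type*} [CommRing R] (F : Sy n k R) (B : ∀ v, Fin r → Fin (n v) → R)
    (z : Option V → Fin r → R) :
    hx (e := F.e) (cfv F) B z = jn F fun v => lc (B v) (z (some v)) := by
  funext t
  rcases t with _ | v
  · rfl
  · rfl

/-- The values of the parameters. -/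
noncomputable def pa {R : Type*} (F : Sy n k R) (A : ∀ v, Fin r → Fin (n v) → R) :
    (Σ t, lam n F.e r t) → R := fun q =>
  Option.rec (motive := fun t => lam n F.e r t → R) (cfv F) (fun v p => A v p.1 p.2) q.1 q.2

theorem zer_hP (hr : 1 ≤ r) (F : Sy n k ℂ) (A : ∀ v, Fin r → Fin (n v) → ℂ) (u : V)
    (x : Tup n ℂ) : Zer (κ := fun _ : Option V => Fin r)
      (fun l => MvPolynomial.map (ea (pa F A)) (hP n F.e r u l)) ↔ Bu F A u ∅ x := by
  have h1 : ∀ (z : Option V → Fin r → ℂ) l, eval (fun q => z q.1 q.2)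
      (MvPolynomial.map (ea (pa F A)) (hP n F.e r u l)) =
        Pool.Agent.N852.EL.cp (US n F.e) (some u) (jn F fun v => lc (A v) (z (some v))) l := by
    intro z l
    rw [map_hP, ← hx_jn]
    exact eval_hC u (cfv F) A z l
  unfold Zer
  simp only [h1]
  constructor
  · rintro ⟨z, hz, h⟩
    obtain ⟨s, hs, h2⟩ := (Pool.Agent.N852.EL.zu_iff _).2 h
    rw [Zu_jn] at h2
    refine ⟨fun v => z (some v), fun i => s ⟨i.1, some_mem.2 i.2⟩, fun v => hz _, ?_, ?_⟩
    · intro h0
      apply hs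
      funext i
      exact congrFun h0 ⟨i.1, some_mem.1 i.2⟩
    · rw [mx_empty]
      exact h2
  · rintro ⟨z, s, hz, hs, h⟩
    rw [mx_empty] at h
    refine ⟨fun t => Option.rec (motive := fun _ => Fin r → ℂ) (fun _ => 1) z t, ?_,
      (Pool.Agent.N852.EL.zu_iff _).1 ⟨fun i => s ⟨i.1, some_mem.1 i.2⟩, ?_, ?_⟩⟩
    · rintro (_ | v)
      · intro h0
        have := congrFun h0 ⟨0, hr⟩
        exact one_ne_zero this
      · exact hz v
    · intro h0
      apply hs
      funext i
      exact congrFun h0 ⟨i.1, some_mem.2 i.2⟩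
    · rw [Zu_jn]
      exact h

/-- The degrees. -/
def wh (V : Type) [DecidableEq V] : Option V → Option V → ℕ :=
  fun t => Option.rec (motive := fun _ => Option V → ℕ) 0 (fun v => Pi.single (some v) 1) t

theorem hP_MH {e : Fin k → Finset V} (u : V) (l : Pool.Agent.N852.EL.Ci (US n e) (some u)) :
    MH (κ := fun _ : Option V => Fin r) (hP n e r u l)
      (Pool.Agent.N852.EL.dc (US n e) (some u) (wh V) l) := by
  have h := Hr_grl (V := Option V) (r := r) (R := MvPolynomial (Σ t, lam n e r t) ℤ)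
  refine h.cp (fun t l => ?_) l
  rcases t with _ | v
  · exact Hr_C _
  · exact lc_grl h (fun j l => Hr_C _) (fun j => Hr_X (some v) j) l

/-- The polynomial in the matrices. -/
noncomputable def sb {R : Type*} [CommRing R] (F : Sy n k R) (r : ℕ) :
    MvPolynomial (Σ t, lam n F.e r t) ℤ →+* MvPolynomial (Σ v, Fin r × Fin (n v)) R :=
  eval₂Hom (Int.castRingHom _) (pa ⟨F.e, fun i j => C (F.T i j)⟩ fun v j l => X ⟨v, (j, l)⟩)

theorem eval_sb (F : Sy n k ℂ) (A : ∀ v, Fin r → Fin (n v) → ℂ)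
    (w : MvPolynomial (Σ t, lam n F.e r t) ℤ) :
    eval (fun q => A q.1 q.2.1 q.2.2) (sb F r w) = ea (pa F A) w := by
  have h : (MvPolynomial.eval (fun q : (Σ v, Fin r × Fin (n v)) => A q.1 q.2.1 q.2.2)).comp
      (sb F r) =
      ea (pa F A) := by
    apply MvPolynomial.ringHom_ext
    · intro m
      simp [ea, sb]
    · rintro ⟨_ | v, q⟩
      · simp only [RingHom.comp_apply, sb, ea, coe_eval₂Hom, eval₂_X]
        exact eval_C _
      · simp only [RingHom.comp_apply, sb, ea, coe_eval₂Hom, eval₂_X]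
        exact eval_X _
  rw [← h]
  rfl

/-- **There are integral linear subspaces without bad points.** -/
theorem genA [Fintype V] (F : Sy n k ℂ) (D : ℕ) (hSm : Sm F) (hn : ∀ v, D + 1 ≤ n v)
    (hdg : ∀ v, dg F v ≤ n v)
    (hdim : ∀ v, (Fintype.card V - 1) * D + 2 * dg F v ≤ n v + k) :
    ∃ A : ∀ v, Fin (D + 1) → Fin (n v) → ℤ, ∀ x : Tup n ℂ, ¬ BS F (cA A) ∅ x := by
  classical
  have hu : ∀ u : V, ∃ w : MvPolynomial (Σ v, Fin (D + 1) × Fin (n v)) ℂ, w ≠ 0 ∧
      ∀ A : ∀ v, Fin (D + 1) → Fin (n v) → ℂ, eval (fun q => A q.1 q.2.1 q.2.2) w ≠ 0 →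
        ∀ x, ¬ Bu F A u ∅ x := by
    intro u
    obtain ⟨Ω, d, _, hΩ⟩ := Pool.Agent.N20.EL.elimP (Option V) (Option V)
      (Pool.Agent.N852.EL.Ci (US n F.e) (some u)) (lam n F.e (D + 1)) (fun _ => Fin (D + 1))
      (hP n F.e (D + 1) u) (Pool.Agent.N852.EL.dc (US n F.e) (some u) (wh V)) (hP_MH u)
    have hiff : ∀ (A : ∀ v, Fin (D + 1) → Fin (n v) → ℂ) (x : Tup n ℂ),
        Bu F A u ∅ x ↔ ∀ w ∈ Ω, ea (pa F A) w = 0 := by
      intro A x
      rw [← zer_hP (Nat.succ_pos D), ← (hΩ _).1]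
    obtain ⟨A, hA'⟩ := exA F D hSm hn hdg u (hdim u)
    have h1 := hA' 0
    rw [hiff] at h1
    push Not at h1
    obtain ⟨w, hw, hw0⟩ := h1
    refine ⟨sb F (D + 1) w, ?_, ?_⟩
    · intro h0
      apply hw0
      rw [← eval_sb, h0, map_zero]
    · intro A' hA'w x hx
      apply hA'w
      rw [eval_sb]
      exact (hiff A' x).1 hx w hw
  choose w hw0 hw using hu
  have hprod : ∏ u, w u ≠ 0 := Finset.prod_ne_zero_iff.2 fun u _ => hw0 u
  obtain ⟨a, ha⟩ : ∃ a : (Σ v, Fin (D + 1) × Fin (n v)) → ℤ,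
      eval (fun q => (a q : ℂ)) (∏ u, w u) ≠ 0 := by
    by_contra hcon
    push Not at hcon
    apply hprod
    refine MvPolynomial.funext_set (fun _ => Set.range ((↑) : ℤ → ℂ))
      (fun _ => Set.infinite_range_of_injective Int.cast_injective) ?_
    intro x hx
    rw [map_zero]
    have hx' : ∀ q, ∃ m : ℤ, (m : ℂ) = x q := fun q => hx q (Set.mem_univ q)
    choose a ha using hx'
    have e : x = fun q => (a q : ℂ) := funext fun q => (ha q).symm
    rw [e]
    exact hcon a
  refine ⟨fun v j l => a ⟨v, (j, l)⟩, ?_⟩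
  rintro x ⟨u, _, hBu⟩
  refine hw u _ ?_ x hBu
  intro h
  apply ha
  rw [map_prod]
  exact Finset.prod_eq_zero (Finset.mem_univ u) h

end Pool.Agent.L5helper6.SM
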