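import Pool.Agent.L5helper6.SM.Clo
import Pool.Agent.L5helper6.SM.GenA
import Pool.Agent.L5helper6.BF.Pts

/-!
The main theorem: smooth complete intersections of multilinear hypersurfaces over number fields.
-/

namespace Pool.Agent.L5helper6.SM

open scoped Classical
open NumberField Module Function
open Pool.Agent Pool.Agent.N852.GR
open Pool.Agent.N852.MM (Tup)
open Pool.Agent.N852.EL (lc gr MH)
open Pool.Agent.L5helper6.BF (Nm Nm_pos It ncard_fibre box_finite box_card io_zero up_eps Ml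
  exists_ml ml_hgt)

set_option linter.unusedSectionVars false

variable {K : Type} [Field K] [NumberField K]
variable {V : Type} [Fintype V] [DecidableEq V] {n : V → ℕ} {k r : ℕ}

/-! ### The vectors which do not occur -/

section gen

variable {R : Type*} [CommRing R]

theorem der_congr {F : Sy n k R} {u : V} {x y : Tup n R} (h : ∀ i, ∀ v ∈ F.e i, x v = y v)
    (i : Wi F u) (l : Fin (n u)) : der F u x i l = der F u y i l := by
  show ev F i.1 (update x u (Pi.single l 1)) = ev F i.1 (update y u (Pi.single l 1))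
  apply ev_congr
  intro v hv
  by_cases hu : v = u
  · subst hu
    rw [update_self, update_self]
  · rw [update_of_ne hu, update_of_ne hu]
    exact h i.1 v hv

theorem Zu_congr {F : Sy n k R} {u : V} {x y : Tup n R} (h : ∀ i, ∀ v ∈ F.e i, x v = y v)
    (s : Wi F u → R) : Zu F u x s ↔ Zu F u y s := by
  unfold Zu IncN
  refine and_congr (forall_congr' fun i => ?_) (forall_congr' fun l => ?_)
  · rw [ev_congr (h i)]
  · simp only [der_congr h]

end gen

theorem BS_congr' {F : Sy n k ℂ} {A : ∀ v, Fin r → Fin (n v) → ℂ} {S : Finset V} {x y : Tup n ℂ}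
    (h : ∀ i, ∀ v ∈ F.e i, x v = y v) : BS F A S x ↔ BS F A S y := by
  have h1 : ∀ z : V → Fin r → ℂ, ∀ i, ∀ v ∈ F.e i, mx A S x z v = mx A S y z v := by
    intro z i v hv
    unfold mx
    split_ifs
    · exact h i v hv
    · rfl
  unfold BS Bu
  refine exists_congr fun u => and_congr_right fun _ => exists_congr fun z =>
    exists_congr fun s => ?_
  rw [Zu_congr (h1 z)]

/-! ### Scaling of the vectors -/

theorem Bu_smul_le {F : Sy n k ℂ} {A : ∀ v, Fin r → Fin (n v) → ℂ} {u : V} {S : Finset V}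
    {x : Tup n ℂ} {c : V → ℂ} (hc : ∀ v, c v ≠ 0) (h : Bu F A u S x) :
    Bu F A u S fun v => c v • x v := by
  obtain ⟨z, s, hz, hs, h1, h2⟩ := h
  set c' : V → ℂ := fun v => if v ∈ S then c v else 1 with hc'
  have hc0 : ∀ v, c' v ≠ 0 := by
    intro v
    simp only [hc']
    split_ifs
    · exact hc v
    · exact one_ne_zero
  have hm : mx A S (fun v => c v • x v) z = fun v => c' v • mx A S x z v := by
    funext v
    unfold mx
    simp only [hc']
    split_ifs
    · rfl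
    · rw [one_smul]
  have hp : ∀ i : Wi F u, ∏ v ∈ (F.e i.1).erase u, c' v ≠ 0 := fun i =>
    Finset.prod_ne_zero_iff.2 fun v _ => hc0 v
  refine ⟨z, fun i => s i * (∏ v ∈ (F.e i.1).erase u, c' v)⁻¹, hz, ?_, ?_, ?_⟩
  · intro h0
    apply hs
    funext i
    have h3 : s i * (∏ v ∈ (F.e i.1).erase u, c' v)⁻¹ = 0 := congrFun h0 i
    exact (mul_eq_zero.1 h3).resolve_right (inv_ne_zero (hp i))
  · rw [hm]
    intro i hi
    rw [ev_smul, h1 i hi, mul_zero]
  · rw [hm]
    intro l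
    rw [← h2 l]
    refine Finset.sum_congr rfl fun i _ => ?_
    have h3 : der F u (fun v => c' v • mx A S x z v) i =
        (∏ v ∈ (F.e i.1).erase u, c' v) • der F u (mx A S x z) i := dd_smul i.1 i.2 c' _
    rw [h3, Pi.smul_apply, smul_eq_mul]
    have := hp i
    field_simp

theorem BS_smul {F : Sy n k ℂ} {A : ∀ v, Fin r → Fin (n v) → ℂ} {S : Finset V} {x : Tup n ℂ}
    {c : V → ℂ} (hc : ∀ v, c v ≠ 0) : BS F A S (fun v => c v • x v) ↔ BS F A S x := by
  constructor
  · rintro ⟨u, hu, h⟩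
    refine ⟨u, hu, ?_⟩
    have h1 := Bu_smul_le (c := fun v => (c v)⁻¹) (fun v => inv_ne_zero (hc v)) h
    have h2 : (fun v => (c v)⁻¹ • c v • x v) = x := by
      funext v
      rw [smul_smul, inv_mul_cancel₀ (hc v), one_smul]
    rwa [h2] at h1
  · rintro ⟨u, hu, h⟩
    exact ⟨u, hu, Bu_smul_le hc h⟩

/-! ### Scaling of the coefficients -/

/-- The system with scaled coefficients. -/
def Sc {R : Type*} [Mul R] (c : R) (F : Sy n k R) : Sy n k R := F.map fun a => c * a

theorem ev_Sc {R : Type*} [CommRing R] (c : R) (F : Sy n k R) (i : Fin k) (x : Tup n R) :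
    ev (Sc c F) i x = c * ev F i x := by
  unfold ev
  rw [Finset.mul_sum]
  refine Finset.sum_congr rfl fun j _ => ?_
  show c * F.T i j * _ = _
  rw [mul_assoc]
  rfl

theorem Inc_Sc {R : Type*} [Field R] {c : R} (hc : c ≠ 0) {F : Sy n k R} {x : Tup n R} :
    Inc (Sc c F) x ↔ Inc F x := by
  unfold Inc
  refine forall_congr' fun i => ?_
  rw [ev_Sc, mul_eq_zero]
  constructor
  · exact fun h => h.resolve_left hc
  · exact fun h => Or.inr h

theorem Sm_Sc {c : ℂ} (hc : c ≠ 0) {F : Sy n k ℂ} (h : Sm F) : Sm (Sc c F) := by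
  intro x hx hi s hs
  refine h x hx ((Inc_Sc hc).1 hi) s fun v l => ?_
  have h1 := hs v l
  have h2 : ∀ i : Wi F v, s i * der (Sc c F) v x i l = c * (s i * der F v x i l) := by
    intro i
    have h3 : der (Sc c F) v x i l = c * der F v x i l := ev_Sc c F i.1 _
    rw [h3]
    ring
  have h4 : ∑ i : Wi F v, s i * der (Sc c F) v x i l = 0 := h1
  rw [Finset.sum_congr rfl fun i _ => h2 i, ← Finset.mul_sum, mul_eq_zero] at h4
  exact h4.resolve_left hc

/-- Integral coefficients. -/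
theorem exists_int (F : Sy n k K) : ∃ (c : K) (G : Sy n k (𝓞 K)), c ≠ 0 ∧
    G.map (fun a => (a : K)) = Sc c F := by
  obtain ⟨e, T⟩ := F
  obtain ⟨b, hb⟩ := IsLocalization.exist_integer_multiples_of_finite (nonZeroDivisors (𝓞 K))
    (fun p : (Σ i, ∀ v : e i, Fin (n v)) => T p.1 p.2)
  choose g hg using hb
  refine ⟨((b : 𝓞 K) : K), ⟨e, fun i j => g ⟨i, j⟩⟩, ?_, ?_⟩
  · have h1 : (b : 𝓞 K) ≠ 0 := nonZeroDivisors.coe_ne_zero b
    intro h0
    apply h1
    exact_mod_cast h0
  · have h2 : (fun i j => (((g ⟨i, j⟩ : 𝓞 K)) : K)) = fun i j => ((b : 𝓞 K) : K) * T i j := by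
      funext i j
      show algebraMap (𝓞 K) K (g ⟨i, j⟩) = _
      rw [hg ⟨i, j⟩]
      exact Algebra.smul_def _ _
    show (⟨e, fun i j => (((g ⟨i, j⟩ : 𝓞 K)) : K)⟩ : Sy n k K) =
      ⟨e, fun i j => ((b : 𝓞 K) : K) * T i j⟩
    rw [h2]

/-! ### The open set -/

/-- The family over the field. -/
def cK (x : Tup n (𝓞 K)) : Tup n K := fun v l => (x v l : K)

theorem Inc_cK {G : Sy n k (𝓞 K)} {x : Tup n (𝓞 K)} :
    Inc (G.map fun a => (a : K)) (cK x) ↔ Inc G x := by
  unfold Inc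
  refine forall_congr' fun i => ?_
  have h1 : ev (G.map fun a => (a : K)) i (cK x) = ((ev G i x : 𝓞 K) : K) :=
    ev_map (F := G) (algebraMap (𝓞 K) K) i x
  constructor
  · intro h
    have h2 : ((ev G i x : 𝓞 K) : K) = 0 := h1.symm.trans h
    exact_mod_cast h2
  · intro h
    rw [h1, h]
    simp

theorem GS_iff (hr : 1 ≤ r) {G : Sy n k (𝓞 K)} {σ : K →+* ℂ} {A : ∀ v, Fin r → Fin (n v) → ℤ}
    {x : Tup n (𝓞 K)} (hx : Inc G x) : (∀ v, GS G σ A v x) ↔
      ¬ ∃ S : Finset V, S ≠ Finset.univ ∧ BS (Gs σ G) (cA A) S (xs σ x) := by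
  constructor
  · rintro h ⟨S, hS, hB⟩
    obtain ⟨v, hv⟩ : ∃ v, v ∉ S := by
      by_contra h0
      push Not at h0
      exact hS (Finset.eq_univ_iff_forall.2 h0)
    exact (h v).2 S hv hB
  · intro h v
    by_contra hv
    obtain ⟨S, h1, h2⟩ := bad_of hr hx hv
    refine h ⟨S, ?_, h2⟩
    rintro rfl
    exact h1 (Finset.mem_univ v)

theorem occ_ne {G : Sy n k (𝓞 K)} (h2 : ∀ i, 2 ≤ (G.e i).card) {x : Tup n (𝓞 K)}
    (h : ∀ v, GI G v x) {i : Fin k} {u : V} (hu : u ∈ G.e i) : x u ≠ 0 := by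
  intro h0
  obtain ⟨v, hv, hvu⟩ : ∃ v ∈ G.e i, v ≠ u := by
    by_contra hcon
    push Not at hcon
    have h3 : (G.e i).card ≤ ({u} : Finset V).card :=
      Finset.card_le_card fun v hv => Finset.mem_singleton.2 (hcon v hv)
    rw [Finset.card_singleton] at h3
    have := h2 i
    omega
  have h3 := (h v).ne_zero ⟨i, hv⟩
  apply h3
  funext l
  have h4 : ev G i (update x v (Pi.single l 1)) = 0 := by
    rw [ev_eq hu, update_of_ne (Ne.symm hvu), h0, dotProduct_zero]
  show ((ev G i (update x v (Pi.single l 1)) : 𝓞 K) : K) = 0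
  rw [h4]
  simp

/-- The dimensions. -/
theorem dims {R : Type*} {F : Sy n k R} (hk : 1 ≤ k) (h2 : ∀ i, 2 ≤ (F.e i).card)
    (hn : ∀ v, (Fintype.card V - 1) * (∑ i, (F.e i).card) + 2 * dg F v ≤ n v + k) (v : V) :
    (∑ i, (F.e i).card) + 1 ≤ n v ∧ dg F v ≤ n v := by
  set D := ∑ i, (F.e i).card with hD
  have hk2 : 2 * k ≤ D := by
    have h3 : ∑ i : Fin k, 2 ≤ ∑ i, (F.e i).card := Finset.sum_le_sum fun i _ => h2 i
    simp at h3
    omega
  have hdk : dg F v ≤ k := by
    unfold dg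
    refine (Fintype.card_subtype_le _).trans ?_
    rw [Fintype.card_fin]
  have hV : 2 ≤ Fintype.card V := (h2 ⟨0, hk⟩).trans (Finset.card_le_univ _)
  have h1 : D + 1 ≤ n v := by
    rcases Nat.lt_or_ge 2 (Fintype.card V) with h3 | h3
    · have h4 : 2 * D ≤ (Fintype.card V - 1) * D := Nat.mul_le_mul_right _ (by omega)
      have := hn v
      omega
    · have h4 : Fintype.card V = 2 := le_antisymm h3 hV
      have h5 : ∀ i, F.e i = Finset.univ := by
        intro i
        apply Finset.eq_univ_of_card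
        exact le_antisymm (Finset.card_le_univ _) (h4.le.trans (h2 i))
      have h6 : dg F v = k := by
        unfold dg
        rw [Fintype.card_subtype]
        have : (Finset.univ.filter fun i : Fin k => v ∈ F.e i) = Finset.univ := by
          rw [Finset.filter_eq_self]
          intro i _
          rw [h5 i]
          exact Finset.mem_univ v
        rw [this]
        simp
      have h7 := hn v
      rw [h4, h6] at h7
      omega
  exact ⟨h1, by omega⟩

/-! ### The points -/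

/-- The representatives of a point. -/
noncomputable def rp (P : ∀ v, Projectivization K (Fin (n v) → K)) : Tup n K := fun v => (P v).rep

theorem count_pts (G : Sy n k (𝓞 K)) (σ : K →+* ℂ) (A : ∀ v, Fin r → Fin (n v) → ℤ) [Nonempty V]
    (hr : 1 ≤ r)
    (hE : ∀ ε : ℝ, 0 < ε → ∃ C : ℝ, 1 ≤ C ∧ ∀ (Z : ℝ) (X : V → ℝ), 1 ≤ Z →
      (∀ u, 1 ≤ X u) → (∀ u, X u ≤ Z) → ((UG G σ A X).ncard : ℝ) ≤
        C * Nm (fun v => finrank ℚ K * (n v - dg G v)) X * Z ^ ε)
    (l : V → ℝ) (hl : ∀ v, 0 < l v) {α : ℝ} (hα0 : 0 ≤ α)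
    (hα : ∀ v, ((n v - dg G v : ℕ) : ℝ) ≤ α * l v) {ε : ℝ} (hε : 0 < ε) :
    ∃ C : ℝ, 1 ≤ C ∧ ∀ Y : ℝ, 1 ≤ Y → ∀ (S : Set (∀ v, Projectivization K (Fin (n v) → K))),
      (∀ P ∈ S, Inc (G.map fun a => (a : K)) (rp P) ∧
        (¬ ∃ S : Finset V, S ≠ Finset.univ ∧ BS (Gs σ G) (cA A) S fun v l => σ (rp P v l)) ∧
        ∏ v, (P v).mulHeight ^ l v ≤ Y) → S.Finite ∧ (S.ncard : ℝ) ≤ C * Y ^ (α + ε) := by
  have hd : 0 < finrank ℚ K := finrank_pos
  set d := finrank ℚ K with hddef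
  have hdR : (0 : ℝ) < d := by exact_mod_cast hd
  obtain ⟨C1, hC1, hH1⟩ := ml_hgt K
  set w : V → ℝ := fun v => d * l v with hw
  have hwpos : ∀ v, 0 < w v := fun v => mul_pos hdR (hl _)
  obtain ⟨v₀, hv₀⟩ := Finite.exists_min w
  obtain ⟨C, hC, hWS⟩ := ws_le G σ A (fun v => d * (n v - dg G v)) hE w (hwpos v₀) hv₀
    (α := α) (fun v => by
      rw [hw]
      push_cast
      have := hα v
      calc (d : ℝ) * ((n v - dg G v : ℕ) : ℝ) ≤ d * (α * l v) :=
            mul_le_mul_of_nonneg_left this hdR.le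
        _ = α * (d * l v) := by ring) hα0 hε
  set C3 : ℝ := ∏ v : V, C1 ^ l v with hC3
  have hC31 : 1 ≤ C3 := Finset.prod_induction _ (fun x : ℝ => 1 ≤ x)
    (fun x y hx hy => by nlinarith) le_rfl fun v _ => Real.one_le_rpow hC1 (hl v).le
  refine ⟨C * C3 ^ (α + ε), ?_, fun Y hY S hS => ?_⟩
  · have : 1 ≤ C3 ^ (α + ε) := Real.one_le_rpow hC31 (by linarith)
    nlinarith
  choose m hm c hc hmc using fun (P : ∀ v, Projectivization K (Fin (n v) → K)) (v : V) =>
    exists_ml (rp P v) (P v).rep_nonzero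
  obtain ⟨hfin, hcard⟩ := hWS (C3 * Y) (by nlinarith)
  have hcK : ∀ P : ∀ v, Projectivization K (Fin (n v) → K),
      cK (m P) = fun v => c P v • rp P v := fun P => funext fun v => hmc P v
  have hmaps : ∀ P ∈ S, m P ∈ WS G σ A w (C3 * Y) := by
    intro P hP
    obtain ⟨h1, h2, h3⟩ := hS P hP
    have h4 : Inc G (m P) := by
      rw [← Inc_cK, hcK]
      exact inc_smul h1 _
    have h5 : xs σ (m P) = fun v => σ (c P v) • fun l => σ (rp P v l) := by
      funext v l
      have h6 := congrFun (hmc P v) l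
      show σ ((m P v l : 𝓞 K) : K) = σ (c P v) * σ (rp P v l)
      rw [← map_mul]
      exact congrArg σ h6
    refine ⟨fun v => (hm P v).1, h4, ?_, ?_⟩
    · rw [GS_iff hr h4]
      rintro ⟨S', h6, h7⟩
      rw [h5] at h7
      have h8 := (BS_smul (x := fun v l => σ (rp P v l)) fun v => (map_ne_zero σ).2 (hc P v)).1 h7
      exact h2 ⟨S', h6, h8⟩
    · refine le_trans ?_ (mul_le_mul_of_nonneg_left h3 (by linarith))
      rw [hC3, ← Finset.prod_mul_distrib]
      refine Finset.prod_le_prod (fun v _ => by positivity) fun v _ => ?_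
      have h9 := hH1 (n v) (m P v) (hm P v)
      have h10 : ‖(io (m P v) : Fin (n v) → EE K)‖ ^ w v =
          (‖(io (m P v) : Fin (n v) → EE K)‖ ^ d) ^ l v := by
        rw [← Real.rpow_natCast, ← Real.rpow_mul (norm_nonneg _)]
      have h11 : Height.mulHeight (co (m P v)) = (P v).mulHeight := by
        rw [hmc P v, Height.mulHeight_smul_eq_mulHeight _ (hc P v)]
        have h12 := Projectivization.mulHeight_mk (P v).rep_nonzero
        rw [Projectivization.mk_rep] at h12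
        exact h12.symm
      rw [h11] at h9
      rw [h10, ← Real.mul_rpow (by linarith) (by rw [← h11]; exact (Height.mulHeight_pos _).le)]
      exact Real.rpow_le_rpow (by positivity) h9 (hl _).le
  have hinj' : Set.InjOn m S := by
    intro P _ P' _ h
    funext v
    have h1 := hmc P v
    rw [h, hmc P' v] at h1
    have h2 : Projectivization.mk K (rp P v) (P v).rep_nonzero =
        Projectivization.mk K (rp P' v) (P' v).rep_nonzero := by
      rw [Projectivization.mk_eq_mk_iff']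
      refine ⟨(c P v)⁻¹ * c P' v, ?_⟩
      rw [mul_smul, h1, smul_smul, inv_mul_cancel₀ (hc P v), one_smul]
    have h3 : Projectivization.mk K (rp P v) (P v).rep_nonzero = P v := (P v).mk_rep
    have h4 : Projectivization.mk K (rp P' v) (P' v).rep_nonzero = P' v := (P' v).mk_rep
    rw [h3, h4] at h2
    exact h2
  refine ⟨Set.Finite.of_injOn hmaps hinj' hfin, ?_⟩
  have h1 : (S.ncard : ℝ) ≤ ((WS G σ A w (C3 * Y)).ncard : ℝ) := by
    exact_mod_cast Set.ncard_le_ncard_of_injOn m hmaps hinj' hfin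
  refine (h1.trans hcard).trans (le_of_eq ?_)
  rw [Real.mul_rpow (by linarith) (by linarith)]
  ring

/-- **The main theorem.** -/
theorem main (hk : 1 ≤ k) (F : Sy n k K) (h2 : ∀ i, 2 ≤ (F.e i).card) (σ : K →+* ℂ)
    (hF : Sm (F.map σ))
    (hn : ∀ v, (Fintype.card V - 1) * (∑ i, (F.e i).card) + 2 * dg F v ≤ n v + k) :
    ∃ Ω : Set (MvPolynomial (Σ v, Fin (n v)) K), (∀ w ∈ Ω, ∃ ε : V → ℕ, MH w ε) ∧
      (∃ P : ∀ v, Projectivization K (Fin (n v) → K), Inc F (rp P) ∧
        ∃ w ∈ Ω, MvPolynomial.eval (fun q => rp P q.1 q.2) w ≠ 0) ∧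
      ∀ l : V → ℝ, (∀ v, 0 < l v) → ∀ α : ℝ, 0 ≤ α →
        (∀ v, ((n v - dg F v : ℕ) : ℝ) ≤ α * l v) → ∀ ε : ℝ, 0 < ε →
        ∃ C : ℝ, 1 ≤ C ∧ ∀ Y : ℝ, 1 ≤ Y →
          {P : ∀ v, Projectivization K (Fin (n v) → K) | Inc F (rp P) ∧
            (∃ w ∈ Ω, MvPolynomial.eval (fun q => rp P q.1 q.2) w ≠ 0) ∧
            ∏ v, (P v).mulHeight ^ l v ≤ Y}.Finite ∧
          ({P : ∀ v, Projectivization K (Fin (n v) → K) | Inc F (rp P) ∧
            (∃ w ∈ Ω, MvPolynomial.eval (fun q => rp P q.1 q.2) w ≠ 0) ∧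
            ∏ v, (P v).mulHeight ^ l v ≤ Y}.ncard : ℝ) ≤ C * Y ^ (α + ε) := by
  obtain ⟨c, G, hc, hG⟩ := exists_int F
  have he : G.e = F.e := congrArg Sy.e hG
  have hdg : ∀ v, dg G v = dg F v := by
    intro v
    have : dg (G.map fun a => (a : K)) v = dg (Sc c F) v := by rw [hG]
    exact this
  have hσc : σ c ≠ 0 := (map_ne_zero σ).2 hc
  have hGs : Gs σ G = Sc (σ c) (F.map σ) := by
    have h3 : Gs σ G = (G.map fun a => (a : K)).map σ := rfl
    rw [h3, hG]
    show (⟨F.e, fun i j => σ (c * F.T i j)⟩ : Sy n k ℂ) = ⟨F.e, fun i j => σ c * σ (F.T i j)⟩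
    simp only [map_mul]
  have hSm : Sm (Gs σ G) := by
    rw [hGs]
    exact Sm_Sc hσc hF
  have h2' : ∀ i, 2 ≤ (G.e i).card := fun i => by rw [he]; exact h2 i
  have hn' : ∀ v, (Fintype.card V - 1) * (∑ i, (G.e i).card) + 2 * dg G v ≤ n v + k := by
    intro v
    rw [he, hdg]
    exact hn v
  have hdim := fun v => dims hk h2' hn' v
  obtain ⟨A, hA⟩ := genA (Gs σ G) (∑ i, (G.e i).card) hSm (fun v => (hdim v).1)
    (fun v => (hdim v).2) hn'
  obtain ⟨Ω, hΩ1, hΩ2⟩ := clo (Nat.succ_pos _) G A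
  have hΩ3 : ∀ x : Tup n K, (∃ w ∈ Ω, MvPolynomial.eval (fun q => x q.1 q.2) w ≠ 0) ↔
      ¬ ∃ S : Finset V, S ≠ Finset.univ ∧ BS (Gs σ G) (cA A) S fun v l => σ (x v l) := by
    intro x
    rw [hΩ2 σ x]
    push Not
    rfl
  have hcV : 0 < Fintype.card V := by
    have := (h2 ⟨0, hk⟩).trans (Finset.card_le_univ _)
    omega
  have hne : Nonempty V := Fintype.card_pos_iff.1 hcV
  refine ⟨Ω, hΩ1, ?_, ?_⟩
  · obtain ⟨x, h3, h4⟩ := exists_good G σ A rfl (fun v => (hdim v).1) h2' hA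
    have h5 := (GS_iff (Nat.succ_pos _) h3).1 h4
    have hocc : ∀ v, x v = 0 → ∀ i, v ∉ G.e i := by
      intro v hv i hi
      exact occ_ne h2' (fun v => (h4 v).1) hi hv
    set y : Tup n (𝓞 K) := fun v => if x v = 0 then fun _ => 1 else x v with hy
    have hy0 : ∀ v, y v ≠ 0 := by
      intro v
      simp only [hy]
      split_ifs with h
      · intro h0
        have h6 := congrFun h0 ⟨0, by have := (hdim v).1; omega⟩
        exact one_ne_zero h6
      · exact h
    have hxy : ∀ i, ∀ v ∈ G.e i, x v = y v := by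
      intro i v hv
      simp only [hy]
      rw [if_neg]
      exact fun h => hocc v h i hv
    have h6 : Inc G y := by
      intro i
      rw [← ev_congr (hxy i)]
      exact h3 i
    have h7 : ¬ ∃ S : Finset V, S ≠ Finset.univ ∧ BS (Gs σ G) (cA A) S (xs σ y) := by
      rintro ⟨S, h8, h9⟩
      refine h5 ⟨S, h8, ?_⟩
      refine (BS_congr' ?_).2 h9
      intro i v hv
      exact xs_congr σ (hxy i v hv)
    have hy1 : ∀ v, (cK y v : Fin (n v) → K) ≠ 0 := by
      intro v h0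
      apply hy0 v
      funext l
      have h8 : ((y v l : 𝓞 K) : K) = 0 := congrFun h0 l
      exact_mod_cast h8
    set P : ∀ v, Projectivization K (Fin (n v) → K) := fun v =>
      Projectivization.mk K (cK y v) (hy1 v) with hP
    choose a ha using fun v => Projectivization.exists_smul_eq_mk_rep K (cK y v) (hy1 v)
    have hrp : rp P = fun v => (a v : K) • cK y v := by
      funext v
      exact (ha v).symm
    refine ⟨P, ?_, ?_⟩
    · rw [hrp]
      refine inc_smul ?_ _
      rw [← Inc_Sc hc, ← hG, Inc_cK]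
      exact h6
    · rw [hΩ3]
      rintro ⟨S, h8, h9⟩
      refine h7 ⟨S, h8, ?_⟩
      have h10 : (fun v l => σ (rp P v l)) = fun v => σ (a v : K) • xs σ y v := by
        funext v l
        rw [hrp]
        show σ ((a v : K) * ((y v l : 𝓞 K) : K)) = _
        rw [map_mul]
        rfl
      rw [h10] at h9
      exact (BS_smul fun v => (map_ne_zero σ).2 (a v).ne_zero).1 h9
  · intro l hl α hα0 hα ε hε
    obtain ⟨D', e', C₀, hIt⟩ := eng G σ A rfl (fun v => (hdim v).1) fun v => (hdim v).2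
    obtain ⟨C, hC, h⟩ := count_pts G σ A (Nat.succ_pos _) (fun ε hε => up_eps hIt hε) l hl hα0
      (fun v => by rw [hdg v]; exact hα v) hε
    refine ⟨C, hC, fun Y hY => h Y hY _ ?_⟩
    rintro P ⟨h3, h4, h5⟩
    refine ⟨?_, (hΩ3 (rp P)).1 h4, h5⟩
    rw [hG, Inc_Sc hc]
    exact h3

end Pool.Agent.L5helper6.SM
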