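import Pool.Agent.L5helper6.SM.Def

/-!
The Jacobian of the bad loci, for complex coefficients (after `Pool.Agent.N478.EL.Jac`).
-/

set_option linter.unusedSectionVars false

namespace Pool.Agent.L5helper6.SM

open Matrix Module Filter Topology Function
open Pool.Agent.N852.MM (Tup)

/-! ### Smoothness -/

section smooth

variable {V : Type} [DecidableEq V] {n : V → ℕ} {k : ℕ} {F : Sy n k ℂ}

theorem contDiff_ev {E : Type} [NormedAddCommGroup E] [NormedSpace ℂ E] (i : Fin k)
    {X : E → Tup n ℂ} (hX : ∀ v l, ContDiff ℂ 1 (fun y => X y v l)) :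
    ContDiff ℂ 1 (fun y => ev F i (X y)) := by
  unfold ev
  refine ContDiff.sum fun j _ => ?_
  refine contDiff_const.mul ?_
  exact contDiff_prod fun v _ => hX v (j v)

theorem contDiff_dd {E : Type} [NormedAddCommGroup E] [NormedSpace ℂ E] (i : Fin k) (u : V)
    (l : Fin (n u)) {X : E → Tup n ℂ} (hX : ∀ v l, ContDiff ℂ 1 (fun y => X y v l)) :
    ContDiff ℂ 1 (fun y => dd F i u (X y) l) := by
  unfold dd
  refine contDiff_ev i fun v l' => ?_
  by_cases hv : v = u
  · subst hv
    simp only [update_self]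
    exact contDiff_const
  · simp only [update_of_ne hv]
    exact hX v l'

variable [Fintype V]

theorem xu_self' (u : V) (y : Yu F u) {v : V} (hv : v = u) : xu F u y v = 0 := dif_pos hv

theorem xu_ne (u : V) (y : Yu F u) (v : {v : V // v ≠ u}) : xu F u y v.1 = y (some v) :=
  dif_neg v.2

theorem contDiff_block (u : V) (t : Option {v : V // v ≠ u}) :
    ContDiff ℂ 1 (fun y : Yu F u => y t) :=
  (ContinuousLinearMap.proj (R := ℂ) (φ := fun t => Fin (nu F u t) → ℂ) t).contDiff

theorem contDiff_xu (u v : V) (l : Fin (n v)) : ContDiff ℂ 1 (fun y : Yu F u => xu F u y v l) := by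
  by_cases hv : v = u
  · have h1 : (fun y : Yu F u => xu F u y v l) = fun _ => (0 : ℂ) :=
      funext fun y => congrFun (xu_self' u y hv) l
    rw [h1]
    exact contDiff_const
  · have h1 : (fun y : Yu F u => xu F u y v l) = fun y => y (some ⟨v, hv⟩) l :=
      funext fun y => congrFun (xu_ne u y ⟨v, hv⟩) l
    rw [h1]
    exact (contDiff_pi.1 (contDiff_block (F := F) u (some ⟨v, hv⟩))) l

theorem contDiff_su (u : V) (i : Wi F u) : ContDiff ℂ 1 (fun y : Yu F u => su F u y i) := by
  unfold su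
  have h1 : ContDiff ℂ 1 (fun y : Yu F u => y none) :=
    (ContinuousLinearMap.proj (R := ℂ) (φ := fun t => Fin (nu F u t) → ℂ) none).contDiff
  exact (contDiff_pi.1 h1) _

theorem contDiff_Phi (u : V) : ContDiff ℂ 1 (Phi F u) := by
  unfold Phi
  refine ContDiff.prodMk ?_ ?_
  · rw [contDiff_pi]
    intro i
    exact contDiff_ev i.1 fun v l => contDiff_xu u v l
  · rw [contDiff_pi]
    intro l
    refine ContDiff.sum fun i _ => (contDiff_su u i).mul ?_
    exact contDiff_dd i.1 u l fun v l => contDiff_xu u v l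

end smooth

/-! ### Directional derivatives -/

theorem line {E E' : Type} [NormedAddCommGroup E] [NormedSpace ℂ E] [NormedAddCommGroup E']
    [NormedSpace ℂ E'] {Φ : E → E'} {Φ' : E →L[ℂ] E'} {y : E} (h : HasFDerivAt Φ Φ' y) {d : E}
    {b : E'} (hd : ∀ t : ℂ, Φ (y + t • d) = Φ y + t • b) : Φ' d = b := by
  have h1 : HasDerivAt (fun t : ℂ => y + t • d) d 0 := by
    have := ((hasDerivAt_id (0 : ℂ)).smul_const d).const_add y
    simpa using this
  have h2 : HasFDerivAt Φ Φ' (y + (0 : ℂ) • d) := by simpa using h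
  have h3 : HasDerivAt (fun t : ℂ => Φ (y + t • d)) (Φ' d) 0 := h2.comp_hasDerivAt (0 : ℂ) h1
  have h4 : HasDerivAt (fun t : ℂ => Φ (y + t • d)) b 0 := by
    have : (fun t : ℂ => Φ (y + t • d)) = fun t => Φ y + t • b := funext hd
    rw [this]
    have := ((hasDerivAt_id (0 : ℂ)).smul_const b).const_add (Φ y)
    simpa using this
  exact h3.unique h4

section dir

variable {V : Type} [DecidableEq V] {n : V → ℕ} {k : ℕ} {F : Sy n k ℂ}

theorem ev_line (i : Fin k) (x : Tup n ℂ) (v : V) (w : Fin (n v) → ℂ) (t : ℂ) :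
    ev F i (update x v (x v + t • w)) = ev F i x + t * (if v ∈ F.e i then dd F i v x ⬝ᵥ w else 0) := by
  by_cases hv : v ∈ F.e i
  · rw [if_pos hv, ev_update hv, dotProduct_add, dotProduct_smul, ← ev_eq hv, smul_eq_mul]
  · rw [if_neg hv, ev_update_not hv, mul_zero, add_zero]

theorem dd_line (i : Fin k) (x : Tup n ℂ) {u v : V} (huv : v ≠ u) (w : Fin (n v) → ℂ) (t : ℂ)
    (l : Fin (n u)) :
    dd F i u (update x v (x v + t • w)) l = dd F i u x l +
      t * (if v ∈ F.e i then dd F i v (update x u (Pi.single l 1)) ⬝ᵥ w else 0) := by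
  unfold dd
  rw [update_comm huv]
  have h1 : update x u (Pi.single l 1) v = x v := update_of_ne huv _ _
  conv_lhs => rw [← h1]
  exact ev_line i (update x u (Pi.single l 1)) v w t

/-- linearity in two blocks -/
theorem two_blocks (i : Fin k) (x : Tup n ℂ) {u v : V} (huv : v ≠ u) (hu : u ∈ F.e i)
    (hv : v ∈ F.e i) (w : Fin (n v) → ℂ) (c : Fin (n u) → ℂ) :
    ∑ l, c l * (dd F i v (update x u (Pi.single l 1)) ⬝ᵥ w) = dd F i v (update x u c) ⬝ᵥ w := by
  have h1 : ∀ z : Fin (n u) → ℂ, dd F i v (update x u z) ⬝ᵥ w = dd F i u (update x v w) ⬝ᵥ z := by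
    intro z
    rw [← ev_update hv, ← ev_update hu, update_comm huv]
  simp only [h1]
  unfold dotProduct
  refine Finset.sum_congr rfl fun l _ => ?_
  rw [Finset.sum_eq_single l]
  · rw [Pi.single_eq_same]
    ring
  · intro l' _ hl
    rw [Pi.single_eq_of_ne hl, mul_zero]
  · intro h
    exact absurd (Finset.mem_univ _) h

theorem sum_sub (p : Fin k → Prop) [DecidablePred p] (f : Fin k → ℂ) :
    ∑ i : {i // p i}, f i = ∑ i, if p i then f i else 0 := by
  rw [← Finset.sum_filter]
  exact (Finset.sum_subtype (Finset.univ.filter p) (by simp) f).symm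

/-- the Jacobian criterion in the form in which it is applied -/
theorem sm_apply (hF : Sm F) (u : V) (x : Tup n ℂ) (c : Fin (n u) → ℂ) (hc : c ≠ 0)
    (hx : ∀ v, v ≠ u → x v ≠ 0) (hx1 : ∀ i, u ∉ F.e i → ev F i x = 0)
    (hx2 : ∀ i, u ∈ F.e i → dd F i u x ⬝ᵥ c = 0) (ρ s : Fin k → ℂ)
    (hρ : ∀ i, u ∈ F.e i → ρ i = 0) (hs : ∀ i, u ∉ F.e i → s i = 0)
    (h1 : ∀ l, ∑ i, (if u ∈ F.e i then s i * dd F i u x l else 0) = 0)
    (h2 : ∀ v, v ≠ u → ∀ l, ∑ i, (if v ∈ F.e i then ρ i * dd F i v x l else 0) +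
      ∑ i, (if v ∈ F.e i then s i * dd F i v (update x u c) l else 0) = 0) :
    ρ = 0 ∧ s = 0 := by
  have key := hF (update x u c) (by
    intro v
    by_cases hv : v = u
    · subst hv
      rw [update_self]
      exact hc
    · rw [update_of_ne hv]
      exact hx v hv) (by
    intro i
    by_cases hi : u ∈ F.e i
    · rw [ev_update hi]
      exact hx2 i hi
    · rw [ev_update_not hi]
      exact hx1 i hi) (fun i => ρ i + s i) (by
    intro v l
    have e1 : ∑ i : Wi F v, (ρ i.1 + s i.1) * der F v (update x u c) i l =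
        ∑ i, if v ∈ F.e i then (ρ i + s i) * dd F i v (update x u c) l else 0 :=
      sum_sub (fun i => v ∈ F.e i) fun i => (ρ i + s i) * dd F i v (update x u c) l
    rw [e1]
    by_cases hv : v = u
    · subst hv
      refine (Finset.sum_congr rfl fun i _ => ?_).trans (h1 l)
      split_ifs with hi
      · rw [hρ i hi, zero_add, dd_update]
      · rfl
    · have h4 := h2 v hv l
      rw [← Finset.sum_add_distrib] at h4
      refine (Finset.sum_congr rfl fun i _ => ?_).trans h4
      split_ifs with hi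
      · by_cases hu : u ∈ F.e i
        · rw [hρ i hu]
          ring
        · rw [hs i hu]
          have h3 : dd F i v (update x u c) l = dd F i v x l := by
            unfold dd
            rw [update_comm (Ne.symm hv), ev_update_not hu]
          rw [h3]
          ring
      · rw [add_zero])
  have h3 : ∀ i, ρ i + s i = 0 := fun i => congrFun key i
  constructor
  · funext i
    by_cases hi : u ∈ F.e i
    · exact hρ i hi
    · have := h3 i
      rw [hs i hi, add_zero] at this
      exact this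
  · funext i
    by_cases hi : u ∈ F.e i
    · have := h3 i
      rw [hρ i hi, zero_add] at this
      exact this
    · exact hs i hi

end dir

section main

variable {V : Type} [Fintype V] [DecidableEq V] {n : V → ℕ} {k : ℕ} {F : Sy n k ℂ}

theorem xu_block (u : V) (y z : Yu F u) (v : {v : V // v ≠ u})
    (hz : ∀ t', t' ≠ some v → z t' = 0) (t : ℂ) :
    xu F u (y + t • z) =
      update (xu F u y) v.1 (xu F u y v.1 + t • (show Fin (n v.1) → ℂ from z (some v))) := by
  funext v'
  by_cases h : v' = v.1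
  · subst h
    rw [update_self, xu_ne, xu_ne]
    rfl
  · rw [update_of_ne h]
    by_cases h1 : v' = u
    · rw [xu_self' u _ h1, xu_self' u _ h1]
    · refine (xu_ne u (y + t • z) ⟨v', h1⟩).trans ((?_ : _ = _).trans (xu_ne u y ⟨v', h1⟩).symm)
      show y (some ⟨v', h1⟩) + t • z (some ⟨v', h1⟩) = y (some ⟨v', h1⟩)
      rw [hz _ (fun h2 => h (congrArg Subtype.val (Option.some.inj h2))), smul_zero, add_zero]

theorem su_block (u : V) (y z : Yu F u) (hz : z none = 0) (t : ℂ) :
    su F u (y + t • z) = su F u y := by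
  funext i
  show (y none + t • z none) _ = y none _
  rw [hz, smul_zero, add_zero]

theorem xu_none (u : V) (y z : Yu F u) (hz : ∀ v, z (some v) = 0) (t : ℂ) :
    xu F u (y + t • z) = xu F u y := by
  funext v'
  by_cases h1 : v' = u
  · rw [xu_self' u _ h1, xu_self' u _ h1]
  · refine (xu_ne u (y + t • z) ⟨v', h1⟩).trans ((?_ : _ = _).trans (xu_ne u y ⟨v', h1⟩).symm)
    show y (some ⟨v', h1⟩) + t • z (some ⟨v', h1⟩) = y (some ⟨v', h1⟩)
    rw [hz, smul_zero, add_zero]

theorem su_none (u : V) (y z : Yu F u) (t : ℂ) (i : Wi F u) :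
    su F u (y + t • z) i = su F u y i + t * z none (Fintype.equivFin (Wi F u) i) := rfl

/-- The equations of the bad locus are independent. -/
theorem jac (hF : Sm F) (hdg : ∀ u, dg F u ≤ n u) (u : V) : Continuous (Phi F u) ∧
    ∀ y : Yu F u, (∀ t, y t ≠ 0) → Phi F u y = 0 →
      ∃ Φ' : Yu F u →L[ℝ] ({i : Fin k // u ∉ F.e i} → ℂ) × (Fin (n u) → ℂ),
        HasStrictFDerivAt (Phi F u) Φ' y ∧ Surjective Φ' := by
  refine ⟨(contDiff_Phi u).continuous, ?_⟩
  intro y hy0 hy
  obtain ⟨Φ', hΦ'⟩ : ∃ Φ' : Yu F u →L[ℂ] ({i : Fin k // u ∉ F.e i} → ℂ) × (Fin (n u) → ℂ),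
      HasStrictFDerivAt (Phi F u) Φ' y :=
    ⟨_, (contDiff_Phi u).contDiffAt.hasStrictFDerivAt (by norm_num)⟩
  refine ⟨Φ'.restrictScalars ℝ, hΦ'.restrictScalars ℝ, ?_⟩
  show Surjective Φ'
  have hfd := hΦ'.hasFDerivAt
  obtain ⟨x, hx⟩ : ∃ x, x = xu F u y := ⟨_, rfl⟩
  have hx0 : ∀ v, v ≠ u → x v ≠ 0 := by
    intro v hv
    rw [hx]
    intro h
    exact hy0 (some ⟨v, hv⟩) ((xu_ne u y ⟨v, hv⟩).symm.trans h)
  have hx1 : ∀ i, u ∉ F.e i → ev F i x = 0 := by
    intro i hi
    have := congrFun (congrArg Prod.fst hy) ⟨i, hi⟩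
    rw [hx]
    exact this
  have hx2 : ∀ l, ∑ i, su F u y i * der F u x i l = 0 := by
    intro l
    have := congrFun (congrArg Prod.snd hy) l
    rw [hx]
    exact this
  have hs0 : su F u y ≠ 0 := by
    intro h
    apply hy0 none
    funext l
    have h1 : su F u y ((Fintype.equivFin (Wi F u)).symm l) = 0 :=
      congrFun h ((Fintype.equivFin (Wi F u)).symm l)
    have h2 : su F u y ((Fintype.equivFin (Wi F u)).symm l) = y none l :=
      congrArg (y none) (Equiv.apply_symm_apply (Fintype.equivFin (Wi F u)) l)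
    exact h2.symm.trans h1
  -- the directional derivatives
  have hd1 : ∀ (v : {v : V // v ≠ u}) (w : Fin (n v.1) → ℂ) (z : Yu F u),
      (∀ t', t' ≠ some v → z t' = 0) → z (some v) = w → Φ' z =
        (fun i => if v.1 ∈ F.e i.1 then dd F i.1 v.1 x ⬝ᵥ w else 0,
          fun l => ∑ i : Wi F u, su F u y i *
            (if v.1 ∈ F.e i.1 then dd F i.1 v.1 (update x u (Pi.single l 1)) ⬝ᵥ w else 0)) := by
    intro v w z hz hzw
    refine line hfd fun t => ?_
    unfold Phi
    rw [xu_block u y z v hz, su_block u y z (hz none (by simp)), ← hx]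
    have hzw' : (show Fin (n v.1) → ℂ from z (some v)) = w := hzw
    rw [hzw']
    refine Prod.ext ?_ ?_
    · funext i
      exact ev_line i.1 x v.1 w t
    · funext l
      show ∑ i : Wi F u, su F u y i * dd F i.1 u (update x v.1 (x v.1 + t • w)) l =
        ∑ i : Wi F u, su F u y i * dd F i.1 u x l + t * ∑ i : Wi F u, su F u y i *
            (if v.1 ∈ F.e i.1 then dd F i.1 v.1 (update x u (Pi.single l 1)) ⬝ᵥ w else 0)
      rw [Finset.mul_sum, ← Finset.sum_add_distrib]
      refine Finset.sum_congr rfl fun i _ => ?_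
      rw [dd_line i.1 x v.2 w t l]
      ring
  have hd2 : ∀ (z : Yu F u), (∀ v, z (some v) = 0) → Φ' z =
      (0, fun l => ∑ i : Wi F u, z none (Fintype.equivFin (Wi F u) i) * dd F i.1 u x l) := by
    intro z hz
    refine line hfd fun t => ?_
    unfold Phi
    rw [xu_none u y z hz, ← hx]
    refine Prod.ext ?_ ?_
    · funext i
      show ev F i.1 x = ev F i.1 x + t * 0
      ring
    · funext l
      show ∑ i : Wi F u, su F u (y + t • z) i * dd F i.1 u x l =
        ∑ i : Wi F u, su F u y i * dd F i.1 u x l +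
          t * ∑ i : Wi F u, z none (Fintype.equivFin (Wi F u) i) * dd F i.1 u x l
      rw [Finset.mul_sum, ← Finset.sum_add_distrib]
      refine Finset.sum_congr rfl fun i _ => ?_
      rw [su_none]
      ring
  -- a functional
  by_contra hns
  have hlt : LinearMap.range (Φ'.toLinearMap) < ⊤ := by
    rw [lt_top_iff_ne_top]
    intro h
    exact hns (LinearMap.range_eq_top.1 h)
  obtain ⟨φ, hφ0, hφ⟩ := Submodule.exists_le_ker_of_lt_top _ hlt
  have hφ1 : ∀ z : Yu F u, φ (Φ' z) = 0 := fun z => hφ ⟨z, rfl⟩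
  obtain ⟨ρ, hρ⟩ : ∃ ρ : {i : Fin k // u ∉ F.e i} → ℂ, ρ = fun i => φ (Pi.single i 1, 0) :=
    ⟨_, rfl⟩
  obtain ⟨c, hc⟩ : ∃ c : Fin (n u) → ℂ, c = fun l => φ (0, Pi.single l 1) := ⟨_, rfl⟩
  have hφ2 : ∀ α β, φ (α, β) = ∑ i, α i * ρ i + ∑ l, β l * c l := by
    intro α β
    have e1 : ((α, β) : ({i : Fin k // u ∉ F.e i} → ℂ) × (Fin (n u) → ℂ)) = (α, 0) + (0, β) := by
      rw [Prod.mk_add_mk, add_zero, zero_add]
    rw [e1, map_add]
    have e2 := (φ.comp (LinearMap.inl ℂ _ _)).pi_apply_eq_sum_univ α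
    have e3 := (φ.comp (LinearMap.inr ℂ _ _)).pi_apply_eq_sum_univ β
    have e4 : φ (α, 0) = ∑ i, α i * ρ i := by
      rw [hρ]
      refine (show φ (α, 0) = _ from e2).trans ?_
      refine Finset.sum_congr rfl fun i _ => ?_
      have e6 : (fun j => if i = j then (1 : ℂ) else 0) = Pi.single i 1 := by
        funext j
        simp [Pi.single_apply, eq_comm]
      rw [smul_eq_mul, e6]
      rfl
    have e5 : φ (0, β) = ∑ l, β l * c l := by
      rw [hc]
      refine (show φ (0, β) = _ from e3).trans ?_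
      refine Finset.sum_congr rfl fun i _ => ?_
      have e6 : (fun j => if i = j then (1 : ℂ) else 0) = Pi.single i 1 := by
        funext j
        simp [Pi.single_apply, eq_comm]
      rw [smul_eq_mul, e6]
      rfl
    rw [e4, e5]
  -- extension of the coefficients
  obtain ⟨ρ', hρ'⟩ : ∃ ρ' : Fin k → ℂ, ρ' = fun i => if h : u ∉ F.e i then ρ ⟨i, h⟩ else 0 :=
    ⟨_, rfl⟩
  obtain ⟨s', hs'⟩ : ∃ s' : Fin k → ℂ, s' = fun i => if h : u ∈ F.e i then su F u y ⟨i, h⟩ else 0 :=
    ⟨_, rfl⟩
  have hρ1 : ∀ i, u ∈ F.e i → ρ' i = 0 := fun i hi => by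
    rw [hρ']
    exact dif_neg (not_not.2 hi)
  have hs1 : ∀ i, u ∉ F.e i → s' i = 0 := fun i hi => by
    rw [hs']
    exact dif_neg hi
  have hρ2 : ∀ i : {i : Fin k // u ∉ F.e i}, ρ i = ρ' i.1 := fun i => by
    rw [hρ']
    beta_reduce
    rw [dif_pos i.2]
  have hs2 : ∀ i : Wi F u, su F u y i = s' i.1 := fun i => by
    rw [hs']
    beta_reduce
    rw [dif_pos i.2]
  have hA : ∀ v, v ≠ u → ∀ l, ∑ i, (if v ∈ F.e i then ρ' i * dd F i v x l else 0) +
      ∑ i, (if v ∈ F.e i then s' i * dd F i v (update x u c) l else 0) = 0 := by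
    intro v hv l
    obtain ⟨z, hz1, hz2⟩ : ∃ z : Yu F u, (∀ t', t' ≠ some ⟨v, hv⟩ → z t' = 0) ∧
        z (some ⟨v, hv⟩) = (Pi.single l 1 : Fin (n v) → ℂ) :=
      ⟨Pi.single (M := fun t => Fin (nu F u t) → ℂ) (some ⟨v, hv⟩) (Pi.single l 1 : Fin (n v) → ℂ),
        fun t' ht' => Pi.single_eq_of_ne ht' _, Pi.single_eq_same _ _⟩
    have h1 := hφ1 z
    rw [hd1 ⟨v, hv⟩ (Pi.single l 1) z hz1 hz2, hφ2] at h1
    have e1 : ∑ i : {i : Fin k // u ∉ F.e i},
        (if v ∈ F.e i.1 then dd F i.1 v x ⬝ᵥ (Pi.single l 1) else 0) * ρ i =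
        ∑ i, (if v ∈ F.e i then ρ' i * dd F i v x l else 0) := by
      simp only [hρ2]
      rw [sum_sub (fun i => u ∉ F.e i) fun i =>
        (if v ∈ F.e i then dd F i v x ⬝ᵥ (Pi.single l 1) else 0) * ρ' i]
      refine Finset.sum_congr rfl fun i _ => ?_
      by_cases hu : u ∈ F.e i
      · rw [if_neg (not_not.2 hu), hρ1 i hu, zero_mul, ite_self]
      · rw [if_pos hu]
        split_ifs
        · rw [dotProduct_single_one, mul_comm]
        · rw [zero_mul]
    have e2 : ∑ l' : Fin (n u), (∑ i : Wi F u, su F u y i * (if v ∈ F.e i.1 then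
        dd F i.1 v (update x u (Pi.single l' 1)) ⬝ᵥ (Pi.single l 1) else 0)) * c l' =
        ∑ i, (if v ∈ F.e i then s' i * dd F i v (update x u c) l else 0) := by
      simp only [Finset.sum_mul]
      rw [Finset.sum_comm]
      have e3 : ∀ i : Wi F u, ∑ l' : Fin (n u), su F u y i * (if v ∈ F.e i.1 then
          dd F i.1 v (update x u (Pi.single l' 1)) ⬝ᵥ (Pi.single l 1) else 0) * c l' =
          if v ∈ F.e i.1 then s' i.1 * dd F i.1 v (update x u c) l else 0 := by
        intro i
        rw [hs2 i]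
        split_ifs with hvi
        · have e4 := two_blocks i.1 x hv i.2 hvi (Pi.single l 1) c
          rw [dotProduct_single_one] at e4
          rw [← e4, Finset.mul_sum]
          refine Finset.sum_congr rfl fun l' _ => ?_
          ring
        · simp
      rw [Finset.sum_congr rfl fun i _ => e3 i]
      rw [sum_sub (fun i => u ∈ F.e i) fun i =>
        if v ∈ F.e i then s' i * dd F i v (update x u c) l else 0]
      refine Finset.sum_congr rfl fun i _ => ?_
      by_cases hu : u ∈ F.e i
      · rw [if_pos hu]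
      · rw [if_neg hu, hs1 i hu, zero_mul, ite_self]
    rw [← e1, ← e2]
    exact h1
  have hB : ∀ i, u ∈ F.e i → dd F i u x ⬝ᵥ c = 0 := by
    intro i hi
    obtain ⟨z, hz1, hz2⟩ : ∃ z : Yu F u, (∀ v, z (some v) = 0) ∧
        z none = (Pi.single (Fintype.equivFin (Wi F u) ⟨i, hi⟩) 1 :
          Fin (Fintype.card (Wi F u)) → ℂ) :=
      ⟨Pi.single (M := fun t => Fin (nu F u t) → ℂ) none
        (Pi.single (Fintype.equivFin (Wi F u) ⟨i, hi⟩) 1 : Fin (Fintype.card (Wi F u)) → ℂ),
        fun v => Pi.single_eq_of_ne (by simp) _, Pi.single_eq_same _ _⟩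
    have hz3 : ∀ j : Wi F u, z none (Fintype.equivFin (Wi F u) j) =
        if j = ⟨i, hi⟩ then 1 else 0 := by
      intro j
      have h2 : z none (Fintype.equivFin (Wi F u) j) =
          (Pi.single (Fintype.equivFin (Wi F u) ⟨i, hi⟩) 1 : Fin (Fintype.card (Wi F u)) → ℂ)
            (Fintype.equivFin (Wi F u) j) := congrFun hz2 _
      refine h2.trans ?_
      rw [Pi.single_apply]
      simp only [EmbeddingLike.apply_eq_iff_eq]
    have h1 := hφ1 z
    rw [hd2 z hz1, hφ2] at h1
    simp only [hz3, Pi.zero_apply, zero_mul, Finset.sum_const_zero, zero_add, ite_mul, one_mul,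
      Finset.sum_ite_eq', Finset.mem_univ, if_true] at h1
    exact h1
  have hS : ∀ l, ∑ i, (if u ∈ F.e i then s' i * dd F i u x l else 0) = 0 := by
    intro l
    rw [← sum_sub (fun i => u ∈ F.e i) fun i => s' i * dd F i u x l]
    refine (Finset.sum_congr rfl fun i _ => ?_).trans (hx2 l)
    rw [hs2 i]
    rfl
  by_cases hc0 : c = 0
  · -- a vector orthogonal to the gradients
    obtain ⟨c', hc', hB'⟩ : ∃ c' : Fin (n u) → ℂ, c' ≠ 0 ∧
        ∀ i, u ∈ F.e i → dd F i u x ⬝ᵥ c' = 0 := by
      let A : (Fin (n u) → ℂ) →ₗ[ℂ] (Wi F u → ℂ) :=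
        (Matrix.of fun (i : Wi F u) (l : Fin (n u)) => dd F i.1 u x l).mulVecLin
      have hAe : ∀ z i, A z i = dd F i.1 u x ⬝ᵥ z := fun _ _ => rfl
      by_contra hcon
      push Not at hcon
      have hinj : Injective A := by
        rw [injective_iff_map_eq_zero]
        intro z hz
        by_contra hz0
        obtain ⟨i, hi, h1⟩ := hcon z hz0
        apply h1
        have := congrFun hz ⟨i, hi⟩
        rw [hAe] at this
        exact this
      have hdim : finrank ℂ (Wi F u → ℂ) ≤ finrank ℂ (Fin (n u) → ℂ) := by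
        rw [Module.finrank_fintype_fun_eq_card, Module.finrank_fintype_fun_eq_card,
          Fintype.card_fin]
        exact hdg u
      have hle := LinearMap.finrank_le_finrank_of_injective hinj
      have hsurj : Surjective A :=
        (LinearMap.injective_iff_surjective_of_finrank_eq_finrank (le_antisymm hle hdim)).1 hinj
      apply hs0
      funext i
      obtain ⟨z, hz⟩ := hsurj (Pi.single i 1)
      have h1 : ∑ i' : Wi F u, su F u y i' * A z i' = 0 := by
        simp only [hAe]
        unfold dotProduct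
        simp only [Finset.mul_sum]
        rw [Finset.sum_comm]
        refine Finset.sum_eq_zero fun l _ => ?_
        have h2 := hx2 l
        calc ∑ i' : Wi F u, su F u y i' * (dd F i'.1 u x l * z l) =
              (∑ i' : Wi F u, su F u y i' * der F u x i' l) * z l := by
              rw [Finset.sum_mul]
              refine Finset.sum_congr rfl fun i' _ => ?_
              rw [← mul_assoc]
              rfl
          _ = 0 := by rw [h2, zero_mul]
      rw [hz, Finset.sum_eq_single i] at h1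
      · rw [Pi.single_eq_same, mul_one] at h1
        exact h1
      · intro j _ hj
        rw [Pi.single_eq_of_ne hj, mul_zero]
      · intro h
        exact absurd (Finset.mem_univ _) h
    obtain ⟨h1, -⟩ := sm_apply hF u x c' hc' hx0 hx1 hB' ρ' 0 hρ1 (fun _ _ => rfl)
      (by
        intro l
        simp) (by
        intro v hv l
        have h2 := hA v hv l
        have h3 : ∑ i, (if v ∈ F.e i then s' i * dd F i v (update x u c) l else 0) = 0 := by
          refine Finset.sum_eq_zero fun i _ => ?_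
          split_ifs with hvi
          · by_cases hu : u ∈ F.e i
            · have h4 : dd F i v (update x u c) l = 0 := by
                unfold dd
                rw [update_comm (Ne.symm hv), ev_update hu, hc0, dotProduct_zero]
              rw [h4, mul_zero]
            · rw [hs1 i hu, zero_mul]
          · rfl
        rw [h3, add_zero] at h2
        simpa using h2)
    apply hφ0
    refine LinearMap.ext fun z => ?_
    obtain ⟨α, β⟩ := z
    rw [hφ2, hc0]
    have h5 : ∀ i, ρ i = 0 := fun i => by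
      rw [hρ2 i, h1]
      rfl
    simp [h5]
  · obtain ⟨-, h1⟩ := sm_apply hF u x c hc0 hx0 hx1 hB ρ' s' hρ1 hs1 hS hA
    apply hs0
    funext i
    rw [hs2 i, h1]
    rfl

end main

end Pool.Agent.L5helper6.SM

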