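import Pool.Agent.L5helper6.SM.Eng

/-!
The number of the integral solutions from below, over a number field (after
`Pool.Agent.N868.MM.LowA`), and the existence of good solutions.
-/

namespace Pool.Agent.L5helper6.SM

open scoped Classical
open NumberField Module Function Matrix
open Pool.Agent Pool.Agent.N852.GR
open Pool.Agent.N852.MM (Tup)
open Pool.Agent.L5helper6.BF (Nm Nm_pos It ncard_fibre box_finite box_card io_zero)

set_option linter.unusedSectionVars false

variable {K : Type} [Field K] [NumberField K]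
variable {V : Type} [Fintype V] [DecidableEq V] {n : V → ℕ} {k r : ℕ}

/-- The number of the integral vectors in a ball from below. -/
theorem lowball (K : Type) [Field K] [NumberField K] : ∃ c : ℝ, 0 < c ∧ ∀ (N : ℕ) (X : ℝ), 0 ≤ X →
    (c * X) ^ (finrank ℚ K * N) ≤ ({z : Fin N → 𝓞 K | ‖io z‖ ≤ X}.ncard : ℝ) := by
  set b := RingOfIntegers.basis K with hb
  set M₀ : ℝ := 1 + ∑ j, ‖mixedEmbedding K (b j : K)‖ with hM₀
  have hM0 : 0 < M₀ := by
    have : 0 ≤ ∑ j, ‖mixedEmbedding K (b j : K)‖ := Finset.sum_nonneg fun _ _ => norm_nonneg _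
    linarith
  refine ⟨1 / M₀, by positivity, fun N X hX => ?_⟩
  set m := ⌊X / M₀⌋₊ with hm
  set f : (Fin N → Module.Free.ChooseBasisIndex ℤ (𝓞 K) → Fin (m + 1)) → Fin N → 𝓞 K :=
    fun a l => ∑ j, ((a l j : ℕ) : ℤ) • b j with hf
  have hinj : Injective f := by
    intro a a' h
    funext l j
    have h1 := congrFun h l
    have h2 : ∀ a : Fin N → Module.Free.ChooseBasisIndex ℤ (𝓞 K) → Fin (m + 1),
        b.repr (f a l) j = ((a l j : ℕ) : ℤ) := by
      intro a
      rw [hf]
      simp only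
      rw [b.repr_sum_self]
    have h3 := h2 a
    rw [h1, h2 a'] at h3
    apply Fin.ext
    exact_mod_cast h3.symm
  have hmem : ∀ a, ‖io (f a)‖ ≤ X := by
    intro a
    rw [pi_norm_le_iff_of_nonneg hX]
    intro l
    rw [io_apply]
    have e : mixedEmbedding K ((f a l : 𝓞 K) : K) =
        ∑ j, ((a l j : ℕ) : ℝ) • mixedEmbedding K (b j : K) := by
      have h1 : ((f a l : 𝓞 K) : K) = ∑ j, (((a l j : ℕ) : ℤ) : K) * (b j : K) := by
        have h2 : algebraMap (𝓞 K) K (f a l) = ∑ j, algebraMap (𝓞 K) K (((a l j : ℕ) : ℤ) • b j) :=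
          map_sum _ _ _
        refine h2.trans (Finset.sum_congr rfl fun j _ => ?_)
        rw [zsmul_eq_mul, map_mul, map_intCast]
      rw [h1, map_sum]
      refine Finset.sum_congr rfl fun j _ => ?_
      rw [map_mul, map_intCast, ← zsmul_eq_mul, ← Int.cast_smul_eq_zsmul ℝ]
      simp
    rw [e]
    calc ‖∑ j, ((a l j : ℕ) : ℝ) • mixedEmbedding K (b j : K)‖
        ≤ ∑ j, ‖((a l j : ℕ) : ℝ) • mixedEmbedding K (b j : K)‖ := norm_sum_le _ _
      _ ≤ ∑ j, (m : ℝ) * ‖mixedEmbedding K (b j : K)‖ := by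
          refine Finset.sum_le_sum fun j _ => ?_
          rw [norm_smul, Real.norm_natCast]
          refine mul_le_mul_of_nonneg_right ?_ (norm_nonneg _)
          have := (a l j).2
          exact_mod_cast Nat.lt_succ_iff.1 this
      _ = m * ∑ j, ‖mixedEmbedding K (b j : K)‖ := by rw [Finset.mul_sum]
      _ ≤ (X / M₀) * M₀ := by
          refine mul_le_mul (Nat.floor_le (by positivity)) (by linarith)
            (Finset.sum_nonneg fun _ _ => norm_nonneg _) (by positivity)
      _ = X := by field_simp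
  have hcard : Fintype.card (Fin N → Module.Free.ChooseBasisIndex ℤ (𝓞 K) → Fin (m + 1)) ≤
      {z : Fin N → 𝓞 K | ‖io z‖ ≤ X}.ncard := by
    rw [← Finset.card_univ, ← Set.ncard_coe_finset]
    exact Set.ncard_le_ncard_of_injOn f (fun a _ => hmem a) (hinj.injOn)
      ((latP K N).2.1 X)
  have hd : Fintype.card (Module.Free.ChooseBasisIndex ℤ (𝓞 K)) = finrank ℚ K := by
    rw [← Module.finrank_eq_card_chooseBasisIndex, RingOfIntegers.rank]
  have hcard2 : Fintype.card (Fin N → Module.Free.ChooseBasisIndex ℤ (𝓞 K) → Fin (m + 1)) =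
      (m + 1) ^ (finrank ℚ K * N) := by
    rw [Fintype.card_fun, Fintype.card_fun, Fintype.card_fin, Fintype.card_fin, hd, pow_mul]
  calc (1 / M₀ * X) ^ (finrank ℚ K * N) ≤ ((m : ℝ) + 1) ^ (finrank ℚ K * N) := by
        refine pow_le_pow_left₀ (by positivity) ?_ _
        have h1 := Nat.lt_floor_add_one (X / M₀)
        have h2 : 1 / M₀ * X = X / M₀ := by ring
        rw [h2]
        exact h1.le
    _ = (((m + 1) ^ (finrank ℚ K * N) : ℕ) : ℝ) := by push_cast; rfl
    _ ≤ _ := by
        rw [← hcard2]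
        exact_mod_cast hcard

theorem norm_one_le (K : Type) [Field K] [NumberField K] : ‖(1 : EE K)‖ ≤ 1 := by
  rw [mixedEmbedding.norm_eq_sup'_normAtPlace]
  apply Finset.sup'_le
  intro w _
  rw [map_one]

theorem norm_prod_le' {ι : Type} (s : Finset ι) (f : ι → EE K) : ‖∏ i ∈ s, f i‖ ≤ ∏ i ∈ s, ‖f i‖ := by
  induction s using Finset.induction_on with
  | empty =>
    rw [Finset.prod_empty, Finset.prod_empty]
    exact norm_one_le K
  | insert i s hi ih =>
    rw [Finset.prod_insert hi, Finset.prod_insert hi]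
    exact (norm_mul_le _ _).trans (mul_le_mul_of_nonneg_left ih (norm_nonneg _))

/-- The size of the values. -/
theorem val_le (G : Sy n k (𝓞 K)) : ∃ C : ℝ, 1 ≤ C ∧ ∀ (i : Fin k) (x : Tup n (𝓞 K)) (X : ℝ),
    0 ≤ X → (∀ v ∈ G.e i, ‖io (x v)‖ ≤ X) →
      ‖mixedEmbedding K ((ev G i x : 𝓞 K) : K)‖ ≤ C * X ^ (G.e i).card := by
  refine ⟨1 + ∑ i, ∑ j, ‖mixedEmbedding K ((G.T i j : 𝓞 K) : K)‖, ?_, ?_⟩
  · have : (0 : ℝ) ≤ ∑ i, ∑ j, ‖mixedEmbedding K ((G.T i j : 𝓞 K) : K)‖ := by positivity
    linarith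
  intro i x X hX0 hx
  have hX : 0 ≤ X ^ (G.e i).card := pow_nonneg hX0 _
  set em : 𝓞 K →+* EE K := (mixedEmbedding K).comp (algebraMap (𝓞 K) K) with hem
  have e1 : mixedEmbedding K ((ev G i x : 𝓞 K) : K) =
      ∑ j : (∀ v : G.e i, Fin (n v)), em (G.T i j) * ∏ v : G.e i, em (x v (j v)) := by
    show em (ev G i x) = _
    unfold ev
    rw [map_sum]
    refine Finset.sum_congr rfl fun j _ => ?_
    rw [map_mul, map_prod]
  have h1 : ∀ j : (∀ v : G.e i, Fin (n v)), ‖em (G.T i j) * ∏ v : G.e i, em (x v (j v))‖ ≤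
      ‖em (G.T i j)‖ * X ^ (G.e i).card := by
    intro j
    refine (norm_mul_le _ _).trans (mul_le_mul_of_nonneg_left ?_ (norm_nonneg _))
    refine (norm_prod_le' _ _).trans ?_
    calc ∏ v : G.e i, ‖em (x v (j v))‖ ≤ ∏ v : G.e i, X :=
          Finset.prod_le_prod (fun _ _ => norm_nonneg _)
            (fun v _ => (norm_le_pi_norm (io (x v)) (j v)).trans (hx v v.2))
      _ = X ^ (G.e i).card := by rw [Finset.prod_const, Finset.card_univ, Fintype.card_coe]
  rw [e1]
  refine (norm_sum_le _ _).trans ((Finset.sum_le_sum fun j _ => h1 j).trans ?_)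
  rw [← Finset.sum_mul]
  apply mul_le_mul_of_nonneg_right _ hX
  have h4 : ∑ j, ‖em (G.T i j)‖ ≤ ∑ i, ∑ j, ‖em (G.T i j)‖ :=
    Finset.single_le_sum (f := fun i => ∑ j, ‖em (G.T i j)‖)
      (fun i _ => by positivity) (Finset.mem_univ i)
  have h5 : ∑ i, ∑ j, ‖em (G.T i j)‖ = ∑ i, ∑ j, ‖mixedEmbedding K ((G.T i j : 𝓞 K) : K)‖ := rfl
  linarith

/-- The integral vectors in a ball. -/
noncomputable def Bo (K : Type) [Field K] [NumberField K] (N : ℕ) (X : ℝ) :
    Finset (Fin N → 𝓞 K) := ((latP K N).2.1 X).toFinset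

theorem mem_Bo {N : ℕ} {X : ℝ} {z : Fin N → 𝓞 K} : z ∈ Bo K N X ↔ ‖io z‖ ≤ X :=
  Set.Finite.mem_toFinset _

theorem card_Bo (N : ℕ) {X : ℝ} (hX : 1 ≤ X) :
    ((Bo K N X).card : ℝ) ≤ (6 * X) ^ (finrank ℚ K * N) := by
  unfold Bo
  rw [← Set.ncard_eq_toFinset_card _ ((latP K N).2.1 X)]
  exact EngT.ball_le (latP K) N X hX

/-- The pigeonhole principle for one vector. -/
theorem pig_one {G : Sy n k (𝓞 K)} {C X c : ℝ} (hC : 1 ≤ C) (hX : 1 ≤ X)
    (hc : ∀ (N : ℕ) (X : ℝ), 0 ≤ X →
      (c * X) ^ (finrank ℚ K * N) ≤ ({z : Fin N → 𝓞 K | ‖io z‖ ≤ X}.ncard : ℝ))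
    (hval : ∀ (i : Fin k) (x : Tup n (𝓞 K)) (X : ℝ), 0 ≤ X → (∀ v ∈ G.e i, ‖io (x v)‖ ≤ X) →
      ‖mixedEmbedding K ((ev G i x : 𝓞 K) : K)‖ ≤ C * X ^ (G.e i).card)
    (I : Finset (Fin k)) (v : V) (hI : ∀ i ∈ I, v ∈ G.e i)
    (x : Tup n (𝓞 K)) (hx : ∀ u, ‖io (x u)‖ ≤ X) :
    (c * (X / 2)) ^ (finrank ℚ K * n v) ≤
      (∏ i ∈ I, (6 * (C * X ^ (G.e i).card)) ^ finrank ℚ K) *
        (((Bo K (n v) X).filter fun z => ∀ i ∈ I, ev G i (update x v z) = 0).card : ℝ) := by
  have hX0 : 0 < X := by linarith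
  set d := finrank ℚ K with hd
  set Y₀ := Bo K (n v) (X / 2) with hY₀
  set f : (Fin (n v) → 𝓞 K) → (Fin k → Fin 1 → 𝓞 K) :=
    fun z i _ => if i ∈ I then ev G i (update x v z) else 0 with hf
  set T : Finset (Fin k → Fin 1 → 𝓞 K) := Fintype.piFinset fun i => if i ∈ I then
    Bo K 1 (C * X ^ (G.e i).card) else {0} with hT
  set R := (Bo K (n v) X).filter fun z => ∀ i ∈ I, ev G i (update x v z) = 0 with hR
  have hCK : ∀ i : Fin k, 1 ≤ C * X ^ (G.e i).card := fun i =>
    one_le_mul_of_one_le_of_one_le hC (one_le_pow₀ hX)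
  have hmaps : ∀ z ∈ Y₀, f z ∈ T := by
    intro z hz
    rw [hY₀, mem_Bo] at hz
    rw [hT, Fintype.mem_piFinset]
    intro i
    by_cases hi : i ∈ I
    · rw [if_pos hi, mem_Bo]
      have h0 : 0 ≤ C * X ^ (G.e i).card := by linarith [hCK i]
      rw [pi_norm_le_iff_of_nonneg h0]
      intro l
      rw [io_apply]
      simp only [hf]
      rw [if_pos hi]
      refine hval i _ X hX0.le fun u _ => ?_
      by_cases hu : u = v
      · subst hu
        rw [update_self]
        linarith
      · rw [update_of_ne hu]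
        exact hx u
    · rw [if_neg hi, Finset.mem_singleton]
      funext l
      simp only [hf]
      rw [if_neg hi]
      rfl
  have hTc : (T.card : ℝ) ≤ ∏ i ∈ I, (6 * (C * X ^ (G.e i).card)) ^ d := by
    rw [hT, Fintype.card_piFinset]
    push_cast
    have h1 : ∏ i : Fin k, (((if i ∈ I then Bo K 1 (C * X ^ (G.e i).card) else {0} :
        Finset (Fin 1 → 𝓞 K))).card : ℝ) ≤
        ∏ i : Fin k, if i ∈ I then (6 * (C * X ^ (G.e i).card)) ^ d else 1 := by
      refine Finset.prod_le_prod (fun _ _ => Nat.cast_nonneg _) fun i _ => ?_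
      by_cases hi : i ∈ I
      · rw [if_pos hi, if_pos hi]
        have := card_Bo (K := K) 1 (hCK i)
        rwa [mul_one] at this
      · rw [if_neg hi, if_neg hi, Finset.card_singleton, Nat.cast_one]
    refine h1.trans (le_of_eq ?_)
    rw [Finset.prod_ite_mem, Finset.univ_inter]
  have hfib : ∀ w ∈ T, ((Y₀.filter fun z => f z = w).card : ℝ) ≤ (R.card : ℝ) := by
    intro w _
    rcases Finset.eq_empty_or_nonempty (Y₀.filter fun z => f z = w) with h1 | ⟨z₀, hz₀⟩
    · rw [h1, Finset.card_empty, Nat.cast_zero]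
      positivity
    · rw [Finset.mem_filter, hY₀, mem_Bo] at hz₀
      have h2 : (Y₀.filter fun z => f z = w).card ≤ R.card := by
        apply Finset.card_le_card_of_injOn (fun z => z - z₀)
        · intro z hz
          rw [Finset.mem_coe, Finset.mem_filter, hY₀, mem_Bo] at hz
          rw [Finset.mem_coe, hR, Finset.mem_filter, mem_Bo]
          constructor
          · rw [io_sub]
            have := norm_sub_le (io z) (io z₀)
            linarith [hz.1, hz₀.1]
          · intro i hi
            have e1 := congrFun (congrFun (hz.2.trans hz₀.2.symm) i) 0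
            simp only [hf] at e1
            rw [if_pos hi, if_pos hi, ev_update (hI i hi), ev_update (hI i hi)] at e1
            rw [ev_update (hI i hi), dotProduct_sub, e1, sub_self]
        · intro y _ y' _ h
          exact sub_left_injective h
      exact_mod_cast h2
  have hlow : (c * (X / 2)) ^ (d * n v) ≤ (Y₀.card : ℝ) := by
    have h1 := hc (n v) (X / 2) (by linarith)
    rw [Set.ncard_eq_toFinset_card _ ((latP K (n v)).2.1 (X / 2))] at h1
    exact h1
  calc (c * (X / 2)) ^ (d * n v) ≤ (Y₀.card : ℝ) := hlow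
    _ = ∑ w ∈ T, ((Y₀.filter fun z => f z = w).card : ℝ) := by
        rw [Finset.card_eq_sum_card_fiberwise hmaps]
        push_cast
        rfl
    _ ≤ ∑ w ∈ T, (R.card : ℝ) := Finset.sum_le_sum hfib
    _ = (T.card : ℝ) * (R.card : ℝ) := by rw [Finset.sum_const, nsmul_eq_mul]
    _ ≤ _ := by gcongr

/-- The partial solutions. -/
def SA (G : Sy n k (𝓞 K)) (X : ℝ) (A : Finset V) : Set (Tup n (𝓞 K)) :=
  {x | (∀ v ∈ A, ‖io (x v)‖ ≤ X) ∧ (∀ v ∉ A, x v = 0) ∧ ∀ i, G.e i ⊆ A → ev G i x = 0}

theorem SA_finite (G : Sy n k (𝓞 K)) {X : ℝ} (hX : 0 ≤ X) (A : Finset V) : (SA G X A).Finite := by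
  refine (box_finite fun _ => X).subset ?_
  rintro x ⟨h1, h2, -⟩ v
  by_cases hv : v ∈ A
  · exact h1 v hv
  · rw [h2 v hv, io_zero, norm_zero]
    exact hX

/-- **The pigeonhole principle.** -/
theorem pigeon (G : Sy n k (𝓞 K)) (h2 : ∀ i, 2 ≤ (G.e i).card) :
    ∃ c C : ℝ, 0 < c ∧ 1 ≤ C ∧ ∀ X : ℝ, 1 ≤ X →
      c * X ^ (finrank ℚ K * ∑ v, n v) ≤
        C * X ^ (finrank ℚ K * ∑ i, (G.e i).card) * ((SA G X Finset.univ).ncard : ℝ) := by
  obtain ⟨C, hC, hval⟩ := val_le G
  obtain ⟨c, hc, hlow⟩ := lowball K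
  set d := finrank ℚ K with hd
  refine ⟨(c / 2) ^ (d * ∑ v, n v), (6 * C) ^ (d * k), by positivity,
    one_le_pow₀ (by linarith), ?_⟩
  intro X hX
  have hX0 : 0 < X := by linarith
  have key : ∀ A : Finset V, (c * (X / 2)) ^ (d * ∑ v ∈ A, n v) ≤
      (∏ i ∈ Finset.univ.filter (fun i => G.e i ⊆ A), (6 * (C * X ^ (G.e i).card)) ^ d) *
        ((SA G X A).ncard : ℝ) := by
    intro A
    induction A using Finset.induction_on with
    | empty =>
      rw [Finset.sum_empty, mul_zero, pow_zero]
      have h3 : Finset.univ.filter (fun i => G.e i ⊆ (∅ : Finset V)) = ∅ := by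
        rw [Finset.filter_eq_empty_iff]
        intro i _ h
        have := h2 i
        rw [Finset.subset_empty.1 h] at this
        simp at this
      have h4 : (0 : Tup n (𝓞 K)) ∈ SA G X ∅ := by
        refine ⟨fun v hv => absurd hv (Finset.notMem_empty v), fun v _ => rfl, fun i hi => ?_⟩
        have := h2 i
        rw [Finset.subset_empty.1 hi] at this
        simp at this
      have h5 : (1 : ℝ) ≤ (SA G X ∅).ncard := by
        exact_mod_cast (Set.ncard_pos (SA_finite G hX0.le ∅)).2 ⟨_, h4⟩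
      rw [h3, Finset.prod_empty, one_mul]
      exact h5
    | insert v A hv ih =>
      rw [Finset.sum_insert hv, mul_add, pow_add]
      set I := Finset.univ.filter (fun i : Fin k => G.e i ⊆ insert v A ∧ v ∈ G.e i) with hI
      have hI' : ∀ i ∈ I, v ∈ G.e i := fun i hi => (Finset.mem_filter.1 hi).2.2
      have hsplit : Finset.univ.filter (fun i => G.e i ⊆ insert v A) =
          I ∪ Finset.univ.filter (fun i => G.e i ⊆ A) := by
        ext i
        rw [Finset.mem_union, hI, Finset.mem_filter, Finset.mem_filter, Finset.mem_filter]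
        by_cases hvi : v ∈ G.e i
        · have : ¬ G.e i ⊆ A := fun h => hv (h hvi)
          tauto
        · rw [Finset.subset_insert_iff_of_notMem hvi]
          tauto
      have hdis : Disjoint I (Finset.univ.filter (fun i => G.e i ⊆ A)) := by
        rw [Finset.disjoint_left]
        intro i hi hi'
        exact hv ((Finset.mem_filter.1 hi').2 (hI' i hi))
      rw [hsplit, Finset.prod_union hdis]
      set fib : Tup n (𝓞 K) → Finset (Fin (n v) → 𝓞 K) := fun x =>
        (Bo K (n v) X).filter fun z => ∀ i ∈ I, ev G i (update x v z) = 0 with hfib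
      have hf1 := SA_finite G hX0.le A
      have hf2 := SA_finite G hX0.le (insert v A)
      rw [Set.ncard_eq_toFinset_card _ hf1] at ih
      rw [Set.ncard_eq_toFinset_card _ hf2]
      have h3 : (hf1.toFinset.sigma fib).card ≤ hf2.toFinset.card := by
        apply Finset.card_le_card_of_injOn (fun p => update p.1 v p.2)
        · rintro ⟨x, z⟩ hp
          rw [Finset.mem_coe, Finset.mem_sigma, Set.Finite.mem_toFinset] at hp
          simp only [hfib] at hp
          obtain ⟨⟨h4, h5, h6⟩, h7⟩ := hp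
          rw [Finset.mem_filter, mem_Bo] at h7
          rw [Finset.mem_coe, Set.Finite.mem_toFinset]
          refine ⟨fun u hu => ?_, fun u hu => ?_, fun i hi => ?_⟩
          · by_cases huv : u = v
            · subst huv
              simp only [update_self]
              exact h7.1
            · simp only [update_of_ne huv]
              exact h4 u (Finset.mem_of_mem_insert_of_ne hu huv)
          · rw [Finset.mem_insert, not_or] at hu
            simp only [update_of_ne hu.1]
            exact h5 u hu.2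
          · by_cases hvi : v ∈ G.e i
            · exact h7.2 i (Finset.mem_filter.2 ⟨Finset.mem_univ _, hi, hvi⟩)
            · simp only [ev_update_not hvi]
              exact h6 i ((Finset.subset_insert_iff_of_notMem hvi).1 hi)
        · rintro ⟨x, z⟩ hp ⟨x', z'⟩ hp' h
          rw [Finset.mem_coe, Finset.mem_sigma, Set.Finite.mem_toFinset] at hp hp'
          simp only at h hp hp'
          have h8 : z = z' := by
            have := congrFun h v
            rwa [update_self, update_self] at this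
          have h9 : x = x' := by
            have e1 : x = update (update x v z) v 0 := by
              rw [update_idem]
              have := hp.1.2.1 v hv
              rw [← this, update_eq_self]
            have e2 : x' = update (update x' v z') v 0 := by
              rw [update_idem]
              have := hp'.1.2.1 v hv
              rw [← this, update_eq_self]
            rw [e1, e2, h]
          subst h8
          subst h9
          rfl
      rw [Finset.card_sigma] at h3
      have h4 : ∀ x ∈ hf1.toFinset, (c * (X / 2)) ^ (d * n v) ≤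
          (∏ i ∈ I, (6 * (C * X ^ (G.e i).card)) ^ d) * ((fib x).card : ℝ) := by
        intro x hx
        rw [Set.Finite.mem_toFinset] at hx
        refine pig_one hC hX hlow hval I v hI' x ?_
        intro u
        by_cases hu : u ∈ A
        · exact hx.1 u hu
        · rw [hx.2.1 u hu, io_zero, norm_zero]
          exact hX0.le
      have hP1 : 0 ≤ ∏ i ∈ I, (6 * (C * X ^ (G.e i).card)) ^ d := by positivity
      have hP2 : 0 ≤ ∏ i ∈ Finset.univ.filter (fun i => G.e i ⊆ A),
        (6 * (C * X ^ (G.e i).card)) ^ d := by positivity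
      calc (c * (X / 2)) ^ (d * n v) * (c * (X / 2)) ^ (d * ∑ u ∈ A, n u)
          ≤ (c * (X / 2)) ^ (d * n v) * ((∏ i ∈ Finset.univ.filter (fun i => G.e i ⊆ A),
            (6 * (C * X ^ (G.e i).card)) ^ d) * (hf1.toFinset.card : ℝ)) := by gcongr
        _ = (∏ i ∈ Finset.univ.filter (fun i => G.e i ⊆ A), (6 * (C * X ^ (G.e i).card)) ^ d) *
            ∑ x ∈ hf1.toFinset, (c * (X / 2)) ^ (d * n v) := by
            rw [Finset.sum_const, nsmul_eq_mul]
            ring
        _ ≤ (∏ i ∈ Finset.univ.filter (fun i => G.e i ⊆ A), (6 * (C * X ^ (G.e i).card)) ^ d) *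
            ∑ x ∈ hf1.toFinset, (∏ i ∈ I, (6 * (C * X ^ (G.e i).card)) ^ d) *
              ((fib x).card : ℝ) := by
            refine mul_le_mul_of_nonneg_left (Finset.sum_le_sum fun x hx => h4 x hx) hP2
        _ = (∏ i ∈ I, (6 * (C * X ^ (G.e i).card)) ^ d) *
            (∏ i ∈ Finset.univ.filter (fun i => G.e i ⊆ A), (6 * (C * X ^ (G.e i).card)) ^ d) *
            ((∑ x ∈ hf1.toFinset, (fib x).card : ℕ) : ℝ) := by
            rw [← Finset.mul_sum]
            push_cast
            ring
        _ ≤ _ := by gcongr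
  have h3 : Finset.univ.filter (fun i => G.e i ⊆ (Finset.univ : Finset V)) = Finset.univ := by
    rw [Finset.filter_true_of_mem]
    intro i _
    exact Finset.subset_univ _
  have h4 := key Finset.univ
  rw [h3] at h4
  have h5 : (∏ i : Fin k, (6 * (C * X ^ (G.e i).card)) ^ d) =
      (6 * C) ^ (d * k) * X ^ (d * ∑ i, (G.e i).card) := by
    calc (∏ i : Fin k, (6 * (C * X ^ (G.e i).card)) ^ d) =
          ∏ i : Fin k, ((6 * C) ^ d * X ^ (d * (G.e i).card)) := by
          refine Finset.prod_congr rfl fun i _ => ?_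
          rw [← mul_assoc, mul_pow, ← pow_mul, mul_comm (G.e i).card d]
      _ = _ := by
          rw [Finset.prod_mul_distrib, Finset.prod_const, Finset.card_univ, Fintype.card_fin,
            Finset.prod_pow_eq_pow_sum, ← Finset.mul_sum, ← pow_mul]
  rw [h5] at h4
  have h6 : (c * (X / 2)) ^ (d * ∑ v, n v) = (c / 2) ^ (d * ∑ v, n v) * X ^ (d * ∑ v, n v) := by
    rw [← mul_pow]
    congr 1
    ring
  rw [h6] at h4
  exact h4

end Pool.Agent.L5helper6.SM
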