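import Pool.Agent.L5helper6.SM.Def
import Pool.Agent.N20.EL.Elim
import Pool.Agent.N216.EL.FewP
import Pool.Agent.N147.EL.CntBS

/-!
The systems with coefficients in a ring as values of one system with integer coefficients, whose
first vector is the vector of all coefficients.
-/

namespace Pool.Agent.L5helper6.SM

set_option linter.unusedSectionVars false

open Matrix Module Filter Topology Function
open Pool.Agent.N852.MM (Tup)
open Pool.Agent.N852.EL (lc gr)

variable {V : Type} [DecidableEq V] {n : V → ℕ} {k : ℕ} {r : ℕ}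

/-- The index set of all coefficients. -/
abbrev Cf (n : V → ℕ) (e : Fin k → Finset V) : Type := Σ i, ∀ v : e i, Fin (n v)

/-- The lengths. -/
noncomputable abbrev nn (n : V → ℕ) (e : Fin k → Finset V) : Option V → ℕ :=
  fun t => Option.rec (motive := fun _ => ℕ) (Fintype.card (Cf n e)) n t

theorem none_mem (s : Finset V) : (none : Option V) ∈ Finset.insertNone s :=
  Finset.none_mem_insertNone

theorem some_mem {s : Finset V} {v : V} : some v ∈ Finset.insertNone s ↔ v ∈ s :=
  Finset.some_mem_insertNone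

/-- The universal system. -/
noncomputable def US (n : V → ℕ) (e : Fin k → Finset V) : Pool.Agent.N852.MM.Sys (nn n e) k where
  e := fun i => Finset.insertNone (e i)
  T := fun i j => if (j ⟨none, none_mem _⟩ : Fin (Fintype.card (Cf n e))) =
    Fintype.equivFin (Cf n e) ⟨i, fun v => j ⟨some v.1, some_mem.2 v.2⟩⟩ then 1 else 0

/-- The family of vectors with the vector of the coefficients. -/
noncomputable def jn {R : Type*} (F : Sy n k R) (x : Tup n R) : Tup (nn n F.e) R :=
  fun t => Option.rec (motive := fun t => Fin (nn n F.e t) → R)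
    (fun l => F.T _ ((Fintype.equivFin (Cf n F.e)).symm l).2) x t

/-- The indices of the universal system. -/
def jeq (n : V → ℕ) (e : Fin k → Finset V) (s : Finset V) :
    (∀ v : (Finset.insertNone s : Finset (Option V)), Fin (nn n e v)) ≃
      Fin (Fintype.card (Cf n e)) × (∀ v : s, Fin (n v)) where
  toFun j := (j ⟨none, none_mem _⟩, fun v => j ⟨some v.1, some_mem.2 v.2⟩)
  invFun p := fun v => match v with
    | ⟨none, _⟩ => p.1
    | ⟨some w, h⟩ => p.2 ⟨w, some_mem.1 h⟩
  left_inv j := by
    funext v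
    rcases v with ⟨_ | w, h⟩
    · rfl
    · rfl
  right_inv p := rfl

/-- The vectors of a form of the universal system. -/
def oeq (s : Finset V) : (Finset.insertNone s : Finset (Option V)) ≃ Option s where
  toFun v := match v with
    | ⟨none, _⟩ => none
    | ⟨some w, h⟩ => some ⟨w, some_mem.1 h⟩
  invFun v := match v with
    | none => ⟨none, none_mem _⟩
    | some w => ⟨some w.1, some_mem.2 w.2⟩
  left_inv v := by
    rcases v with ⟨_ | w, h⟩
    · rfl
    · rfl
  right_inv v := by
    rcases v with _ | w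
    · rfl
    · rfl

theorem prod_insertNone {R : Type*} [CommRing R] (s : Finset V)
    (g : {v // v ∈ Finset.insertNone s} → R) :
    ∏ v, g v = g ⟨none, none_mem _⟩ * ∏ v : s, g ⟨some v.1, some_mem.2 v.2⟩ := by
  rw [← Equiv.prod_comp (oeq s).symm, Fintype.prod_option]
  rfl

theorem ev_jn {R : Type*} [CommRing R] (F : Sy n k R) (i : Fin k) (x : Tup n R) :
    Pool.Agent.N852.MM.ev (US n F.e) i (jn F x) = ev F i x := by
  unfold Pool.Agent.N852.MM.ev
  have h1 := Equiv.sum_comp (jeq n F.e (F.e i)).symm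
    (fun j : (∀ v : (US n F.e).e i, Fin (nn n F.e v)) =>
      (((US n F.e).T i j : ℤ) : R) * ∏ v : (US n F.e).e i, jn F x v (j v))
  refine h1.symm.trans ?_
  rw [Fintype.sum_prod_type, Finset.sum_comm]
  unfold ev
  refine Finset.sum_congr rfl fun j _ => ?_
  have h2 : ∀ c : Fin (Fintype.card (Cf n F.e)),
      (((US n F.e).T i ((jeq n F.e (F.e i)).symm (c, j)) : ℤ) : R) *
        ∏ v : (US n F.e).e i, jn F x v ((jeq n F.e (F.e i)).symm (c, j) v) =
      if c = Fintype.equivFin (Cf n F.e) ⟨i, j⟩ then
        F.T _ ((Fintype.equivFin (Cf n F.e)).symm c).2 * ∏ v : F.e i, x v (j v) else 0 := by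
    intro c
    have h3 : (US n F.e).T i ((jeq n F.e (F.e i)).symm (c, j)) =
      if c = Fintype.equivFin (Cf n F.e) ⟨i, j⟩ then 1 else 0 := rfl
    have h4 : ∏ v : (US n F.e).e i, jn F x v ((jeq n F.e (F.e i)).symm (c, j) v) =
        F.T _ ((Fintype.equivFin (Cf n F.e)).symm c).2 * ∏ v : F.e i, x v (j v) :=
      prod_insertNone (F.e i) fun v => jn F x v ((jeq n F.e (F.e i)).symm (c, j) v)
    rw [h3, h4]
    split_ifs
    · rw [Int.cast_one, one_mul]
    · rw [Int.cast_zero, zero_mul]
  rw [Finset.sum_congr rfl fun c _ => h2 c, Finset.sum_ite_eq' Finset.univ]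
  rw [if_pos (Finset.mem_univ _), Equiv.symm_apply_apply]

theorem jn_update {R : Type*} (F : Sy n k R) (v : V) (x : Tup n R) (z : Fin (n v) → R) :
    jn F (update x v z) = update (jn F x) (some v) z := by
  funext t
  rcases t with _ | u
  · rw [update_of_ne (by simp)]
    rfl
  · by_cases hu : u = v
    · subst hu
      rw [update_self]
      show update x u z u = z
      rw [update_self]
    · rw [update_of_ne (by simpa using hu)]
      show update x v z u = x u
      rw [update_of_ne hu]

theorem dd_jn {R : Type*} [CommRing R] (F : Sy n k R) (i : Fin k) (v : V) (x : Tup n R) :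
    Pool.Agent.N852.MM.dd (US n F.e) i (some v) (jn F x) = dd F i v x := by
  funext l
  unfold Pool.Agent.N852.MM.dd dd
  rw [← ev_jn, jn_update]

theorem jn_map {R S : Type*} [CommRing R] [CommRing S] (F : Sy n k R) (f : R →+* S)
    (x : Tup n R) : jn (F.map f) (fun v l => f (x v l)) = fun t l => f (jn F x t l) := by
  funext t
  rcases t with _ | u
  · rfl
  · rfl

/-! ### The bad loci -/

/-- The linear subspaces for the universal system. -/
noncomputable def A' (n : V → ℕ) (e : Fin k → Finset V) {R : Type*} [Zero R]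
    (A : ∀ v, Fin r → Fin (n v) → R) :
    ∀ t : Option V, Fin r → Fin (nn n e t) → R :=
  fun t => Option.rec (motive := fun t => Fin r → Fin (nn n e t) → R) (fun _ _ => 0) A t

theorem mx_jn {R : Type*} [CommRing R] (F : Sy n k R) (A : ∀ v, Fin r → Fin (n v) → R)
    (S : Finset V) (x : Tup n R) (z : Option V → Fin r → R) :
    Pool.Agent.N852.EL.mx (A' n F.e A) (Finset.insertNone S) (jn F x) z =
      jn F (mx A S x fun v => z (some v)) := by
  funext t
  unfold Pool.Agent.N852.EL.mx
  rcases t with _ | u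
  · rw [if_pos (none_mem _)]
    rfl
  · show _ = mx A S x (fun v => z (some v)) u
    unfold mx
    by_cases hu : u ∈ S
    · rw [if_pos (some_mem.2 hu), if_pos hu]
      rfl
    · rw [if_neg (fun h => hu (some_mem.1 h)), if_neg hu]
      rfl

theorem Zu_jn (F : Sy n k ℂ) (u : V) (x : Tup n ℂ)
    (s : Pool.Agent.N852.MM.Wi (US n F.e) (some u) → ℂ) :
    Pool.Agent.N852.EL.Zu (US n F.e) (some u) (jn F x) s ↔
      Zu F u x fun i => s ⟨i.1, some_mem.2 i.2⟩ := by
  unfold Pool.Agent.N852.EL.Zu Zu
  refine and_congr ?_ ?_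
  · unfold Pool.Agent.N852.MM.IncN IncN
    refine forall_congr' fun i => ?_
    rw [ev_jn]
    refine imp_congr_left ?_
    exact not_congr some_mem
  · refine forall_congr' fun l => ?_
    have h1 := Equiv.sum_comp (Equiv.subtypeEquivRight (fun i : Fin k =>
      (some_mem (s := F.e i) (v := u)).symm) : Wi F u ≃ Pool.Agent.N852.MM.Wi (US n F.e) (some u))
      (fun i => s i * Pool.Agent.N852.MM.der (US n F.e) (some u) (jn F x) i l)
    rw [← h1]
    have h2 : ∀ i : Wi F u, s (Equiv.subtypeEquivRight (fun i : Fin k =>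
        (some_mem (s := F.e i) (v := u)).symm) i) *
        Pool.Agent.N852.MM.der (US n F.e) (some u) (jn F x)
        (Equiv.subtypeEquivRight (fun i : Fin k => (some_mem (s := F.e i) (v := u)).symm) i) l =
        s ⟨i.1, some_mem.2 i.2⟩ * der F u x i l := by
      intro i
      have h3 := congrFun (dd_jn F i.1 u x) l
      show s ⟨i.1, some_mem.2 i.2⟩ * Pool.Agent.N852.MM.dd (US n F.e) i.1 (some u) (jn F x) l = _
      rw [h3]
      rfl
    exact Iff.of_eq (congrArg (fun q : ℂ => q = 0) (Finset.sum_congr rfl fun i _ => h2 i))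

theorem bu_jn (hr : 1 ≤ r) (F : Sy n k ℂ) (A : ∀ v, Fin r → Fin (n v) → ℂ) (u : V)
    (S : Finset V) (x : Tup n ℂ) :
    Pool.Agent.N852.EL.Bu (US n F.e) (A' n F.e A) (some u) (Finset.insertNone S) (jn F x) ↔
      Bu F A u S x := by
  constructor
  · rintro ⟨z, s, hz, hs, h⟩
    rw [mx_jn, Zu_jn] at h
    refine ⟨fun v => z (some v), _, fun v => hz _, ?_, h⟩
    intro h0
    apply hs
    funext i
    exact congrFun h0 ⟨i.1, some_mem.1 i.2⟩
  · rintro ⟨z, s, hz, hs, h⟩
    refine ⟨fun t => Option.rec (motive := fun _ => Fin r → ℂ) (fun _ => 1) z t,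
      fun i => s ⟨i.1, some_mem.1 i.2⟩, ?_, ?_, ?_⟩
    · rintro (_ | v)
      · intro h0
        have := congrFun h0 ⟨0, hr⟩
        exact one_ne_zero this
      · exact hz v
    · intro h0
      apply hs
      funext i
      exact congrFun h0 ⟨i.1, some_mem.2 i.2⟩
    · rw [mx_jn, Zu_jn]
      exact h

theorem cA_A' (e : Fin k → Finset V) (A : ∀ v, Fin r → Fin (n v) → ℤ) :
    Pool.Agent.N852.EL.cA (A' n e A) = A' n e (cA A) := by
  funext t
  rcases t with _ | v
  · funext j l
    show (((0 : ℤ) : ℂ)) = 0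
    exact Int.cast_zero
  · rfl

theorem insertNone_insert (v : V) (S : Finset V) :
    Finset.insertNone (insert v S) = insert (some v) (Finset.insertNone S) := by
  ext t
  rcases t with _ | u
  · simp
  · simp

/-- The number of points in a translate of the linear subspace. -/
theorem few (hr : 1 ≤ r) (F : Sy n k ℂ) [Fintype V] (A : ∀ v, Fin r → Fin (n v) → ℤ) (u v : V)
    (S : Finset V) (hv : v ∉ S) : ∃ δ₀ : ℕ, ∀ x : Tup n ℂ, ¬ Bu F (cA A) u S x →
      ∀ (w : Fin (n v) → ℂ) (Y : Finset (Fin r → ℂ)),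
        (∀ y ∈ Y, Bu F (cA A) u (insert v S) (update x v fun l => w l + lc (cA A v) y l)) →
        Y.card ≤ δ₀ := by
  obtain ⟨δ₀, h⟩ := Pool.Agent.N147.EL.few Pool.Agent.N20.EL.elimP Pool.Agent.N216.EL.fewP
    (US n F.e) (A' n F.e A) (some u) (some v) (Finset.insertNone S)
    (fun h => hv (some_mem.1 h))
  refine ⟨δ₀, fun x hx w Y hY => h (jn F x) ?_ w Y fun y hy => ?_⟩
  · rw [cA_A', bu_jn hr]
    exact hx
  · have h1 := (bu_jn hr F (cA A) u (insert v S) _).2 (hY y hy)
    rw [insertNone_insert, jn_update] at h1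
    rw [cA_A']
    exact h1

end Pool.Agent.L5helper6.SM
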